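import Mathlib
import Pool.Graph.R_pool_sql_team_seeded_3997aac3.Q123.CE.FEND
import Pool.Agent.H62.LocD

/-!
# The second class of the points of `y² + y = x³`

The tangent line at the flex `(-1, ω²)`.  In the coordinates `X = x + 1`,
`Y = y - ω² - (1 + 2 ω) (x + 1)` the curve is `Y² + 2 (1 + 2 ω) X Y - (1 + 2 ω) Y = X³`, and `Y` modulo
cubes is a homomorphism.
-/

set_option autoImplicit false

namespace Pool.Agent.H81.SG

open WeierstrassCurve Pool.Agent.Q285.CE Pool.Agent.Q123.CE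

section cube

variable {F : Type*} [Field F]

theorem L3a {a b : F} (hb : b ≠ 0) {k c X1 X2 X3 Y1 Y2 Y3 : F} (h1 : Y1 = k * X1 + c) (h2 : Y2 = k * X2 + c)
    (h3 : Y3 = k * X3 + c) (c1 : Y1 ^ 2 + a * X1 * Y1 + b * Y1 = X1 ^ 3)
    (e2 : X1 * X2 + X1 * X3 + X2 * X3 = -(2 * k * c + a * c + b * k)) (k1 : Y1 = 0) (k2 : Y2 ≠ 0) (k3 : Y3 ≠ 0) :
    IsC (cy b Y1 * cy b Y2 * cy b Y3) := by
  have hx1 : X1 = 0 := by
    have : X1 ^ 3 = 0 := by rw [← c1, k1]; ring
    exact pow_eq_zero_iff three_ne_zero |>.1 this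
  have hm : c = 0 := by
    rw [k1, hx1] at h1
    linear_combination -h1
  rw [k1, cy_zero, cy_of k2, cy_of k3]
  have h4 : Y2 * Y3 = -b * k ^ 3 := by
    rw [h2, h3, hm]
    rw [hx1, hm] at e2
    linear_combination k ^ 2 * e2
  refine ⟨-k, ?_, ?_⟩
  · intro hk
    have hk0 : k = 0 := neg_eq_zero.1 hk
    rw [hk0] at h4
    apply mul_ne_zero k2 k3
    rw [h4]
    ring
  · rw [mul_assoc, h4, ← mul_assoc, mul_neg, inv_mul_cancel₀ hb]
    ring

/-- three points on a line -/
theorem L3 {a b : F} (hb : b ≠ 0) {k c X1 X2 X3 Y1 Y2 Y3 : F} (h1 : Y1 = k * X1 + c) (h2 : Y2 = k * X2 + c)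
    (h3 : Y3 = k * X3 + c) (c1 : Y1 ^ 2 + a * X1 * Y1 + b * Y1 = X1 ^ 3)
    (c2 : Y2 ^ 2 + a * X2 * Y2 + b * Y2 = X2 ^ 3) (c3 : Y3 ^ 2 + a * X3 * Y3 + b * Y3 = X3 ^ 3)
    (e1 : X1 + X2 + X3 = k ^ 2 + a * k)
    (e2 : X1 * X2 + X1 * X3 + X2 * X3 = -(2 * k * c + a * c + b * k)) (e3 : X1 * X2 * X3 = c ^ 2 + b * c) :
    IsC (cy b Y1 * cy b Y2 * cy b Y3) := by
  have two : ∀ {X1 X2 X3 Y1 Y2 Y3 : F}, Y1 = k * X1 + c → Y2 = k * X2 + c → Y3 = k * X3 + c →
      Y1 ^ 2 + a * X1 * Y1 + b * Y1 = X1 ^ 3 → Y2 ^ 2 + a * X2 * Y2 + b * Y2 = X2 ^ 3 →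
      X1 * X2 + X1 * X3 + X2 * X3 = -(2 * k * c + a * c + b * k) →
      Y1 = 0 → Y2 = 0 → Y3 = 0 := by
    intro X1 X2 X3 Y1 Y2 Y3 h1 h2 h3 c1 c2 e2 k1 k2
    have hx1 : X1 = 0 := by
      have : X1 ^ 3 = 0 := by rw [← c1, k1]; ring
      exact pow_eq_zero_iff three_ne_zero |>.1 this
    have hx2 : X2 = 0 := by
      have : X2 ^ 3 = 0 := by rw [← c2, k2]; ring
      exact pow_eq_zero_iff three_ne_zero |>.1 this
    have hm : c = 0 := by
      rw [k1, hx1] at h1
      linear_combination -h1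
    have hk : k = 0 := by
      rw [hx1, hx2, hm] at e2
      have h5 : b * k = 0 := by linear_combination e2
      exact (mul_eq_zero.1 h5).resolve_left hb
    rw [h3, hm, hk]
    ring
  by_cases k1 : Y1 = 0
  · by_cases k2 : Y2 = 0
    · have k3 := two h1 h2 h3 c1 c2 e2 k1 k2
      rw [k1, k2, k3, cy_zero]
      exact ⟨b⁻¹, inv_ne_zero hb, by ring⟩
    · by_cases k3 : Y3 = 0
      · exact absurd (two h1 h3 h2 c1 c3 (by linear_combination e2) k1 k3) k2
      · exact L3a hb h1 h2 h3 c1 e2 k1 k2 k3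
  · by_cases k2 : Y2 = 0
    · by_cases k3 : Y3 = 0
      · exact absurd (two h2 h3 h1 c2 c3 (by linear_combination e2) k2 k3) k1
      · have h := L3a hb h2 h1 h3 c2 (by linear_combination e2) k2 k1 k3
        rwa [mul_comm (cy b Y2)] at h
    · by_cases k3 : Y3 = 0
      · have h := L3a hb h3 h1 h2 c3 (by linear_combination e2) k3 k1 k2
        rwa [mul_assoc, mul_comm] at h
      · rw [cy_of k1, cy_of k2, cy_of k3]
        have h4 : Y1 * Y2 * Y3 = c ^ 3 := by
          rw [h1, h2, h3]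
          linear_combination k ^ 3 * e3 + k ^ 2 * c * e2 + k * c ^ 2 * e1
        rw [h4]
        refine IsC.of ?_
        rintro rfl
        apply mul_ne_zero (mul_ne_zero k1 k2) k3
        rw [h4]
        ring

/-- opposite points -/
theorem cz_neg {a b : F} (hb : b ≠ 0) {X Y : F} (c : Y ^ 2 + a * X * Y + b * Y = X ^ 3) :
    IsC (cy b Y * cy b (-Y - a * X - b)) := by
  by_cases h : Y = 0
  · subst h
    have hX : X = 0 := by
      have : X ^ 3 = 0 := by rw [← c]; ring
      exact pow_eq_zero_iff three_ne_zero |>.1 this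
    subst hX
    have h1 : -0 - a * 0 - b ≠ 0 := by
      have : -0 - a * 0 - b = -b := by ring
      rw [this]
      exact neg_ne_zero.2 hb
    rw [cy_zero, cy_of h1]
    refine ⟨-1, neg_ne_zero.2 one_ne_zero, ?_⟩
    field_simp
    ring
  · by_cases h' : -Y - a * X - b = 0
    · have hX : X = 0 := by
        have : X ^ 3 = 0 := by rw [← c]; linear_combination (-Y) * h'
        exact pow_eq_zero_iff three_ne_zero |>.1 this
      subst hX
      have hy : Y = -b := by linear_combination -h'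
      rw [h', cy_zero, cy_of h, hy]
      refine ⟨-1, neg_ne_zero.2 one_ne_zero, ?_⟩
      rw [neg_mul, mul_inv_cancel₀ hb]
      ring
    · rw [cy_of h, cy_of h']
      refine ⟨-X, ?_, by linear_combination -c⟩
      intro hx
      have hx0 : X = 0 := neg_eq_zero.1 hx
      rw [hx0] at c h'
      have h1 : Y * (-Y - a * 0 - b) = 0 := by linear_combination -c
      rcases mul_eq_zero.1 h1 with h2 | h2
      · exact h h2
      · exact h' h2

end cube

section pts

variable {F : Type*} [Field F]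

/-- the tangent line at the flex -/
def tl (I x y : F) : F := y - I ^ 2 - (1 + 2 * I) * (x + 1)

theorem curve {I x y : F} (hI : I ^ 2 + I + 1 = 0) (c : y ^ 2 + y = x ^ 3) :
    tl I x y ^ 2 + (2 * (1 + 2 * I)) * (x + 1) * tl I x y + (-(1 + 2 * I)) * tl I x y = (x + 1) ^ 3 := by
  unfold tl
  linear_combination c + (I ^ 2 + I - 2 * y - 4 * x ^ 2 - 4 * x - 1) * hI

theorem tl_neg {I x y : F} (hI : I ^ 2 + I + 1 = 0) :
    tl I x (-y - 1) = -tl I x y - (2 * (1 + 2 * I)) * (x + 1) - (-(1 + 2 * I)) := by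
  unfold tl
  linear_combination (-2) * hI

/-- the class of a pair of coordinates -/
noncomputable def cs (I x y : F) : F := cy (-(1 + 2 * I)) (tl I x y)

variable {V : WeierstrassCurve F} {D : F}

/-- the class of a point -/
noncomputable def sc (I : F) : V.toAffine.Point → F
  | 0 => 1
  | .some x y _ => cs I x y

theorem sc_zero (I : F) : sc I (0 : V.toAffine.Point) = 1 := rfl

theorem sc_some (I : F) {x y : F} (h : V.toAffine.Nonsingular x y) :
    sc I (.some x y h : V.toAffine.Point) = cs I x y := rfl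

theorem cs_ne [CharZero F] {I : F} (hI : I ^ 2 + I + 1 = 0) (x y : F) : cs I x y ≠ 0 :=
  cy_ne (neg_ne_zero.2 (lamI hI)) _

theorem sc_ne [CharZero F] {I : F} (hI : I ^ 2 + I + 1 = 0) (P : V.toAffine.Point) : sc I P ≠ 0 := by
  rcases P with _ | ⟨x, y, h⟩
  · exact one_ne_zero
  · exact cs_ne hI x y

theorem cs_neg [CharZero F] {I : F} (hI : I ^ 2 + I + 1 = 0) {x y : F} (c : y ^ 2 + y = x ^ 3) :
    IsC (cs I x y * cs I x (-y - 1)) := by
  have h := cz_neg (neg_ne_zero.2 (lamI hI)) (curve hI c)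
  rwa [← tl_neg hI] at h

theorem sc_add [DecidableEq F] [CharZero F] (hV : IsD V D) (hD : D = 1) {I : F} (hI : I ^ 2 + I + 1 = 0)
    (P Q : V.toAffine.Point) : IsC (sc I P * sc I Q / sc I (P + Q)) := by
  subst hD
  rcases P with _ | ⟨x1, y1, n1⟩
  · have h1 : (Affine.Point.zero : V.toAffine.Point) + Q = Q := zero_add Q
    have h2 : sc I (Affine.Point.zero : V.toAffine.Point) = 1 := rfl
    rw [h1, h2, one_mul, div_self (sc_ne hI Q)]
    exact IsC.one
  rcases Q with _ | ⟨x2, y2, n2⟩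
  · have h1 : ∀ P : V.toAffine.Point, P + Affine.Point.zero = P := fun P => add_zero P
    have h2 : sc I (Affine.Point.zero : V.toAffine.Point) = 1 := rfl
    rw [h1, h2, mul_one, div_self (sc_ne hI _)]
    exact IsC.one
  have c1 := (hV.eqn _ _).1 n1.1
  have c2 := (hV.eqn _ _).1 n2.1
  by_cases hxy : x1 = x2 ∧ y1 = -y2 - 1
  · rw [hV.add_opp n1 n2 hxy, sc_zero, div_one, sc_some, sc_some, hxy.1, hxy.2, mul_comm]
    exact cs_neg hI (by rw [← c2]; ring)
  · obtain ⟨ℓ, X, Y, n3, e, eX, eY, hs⟩ := hV.add_ex n1 n2 hxy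
    rw [e, sc_some, sc_some, sc_some]
    have c3 := (hV.eqn _ _).1 n3.1
    set m := y1 - ℓ * x1 with hm
    have k1 : y1 = ℓ * x1 + m := by rw [hm]; ring
    have k3 : -Y - 1 = ℓ * X + m := by rw [hm, eY]; ring
    have e1 : x1 + x2 + X = ℓ ^ 2 := by rw [eX]; ring
    have key : y2 = ℓ * x2 + m ∧ x1 * x2 + x1 * X + x2 * X = -(2 * ℓ * m + 1 * ℓ) := by
      rcases hs with ⟨g1, g2⟩ | ⟨g1, g2, g3, g4⟩
      · have k2 : y2 = ℓ * x2 + m := by rw [hm]; linear_combination g2
        refine ⟨k2, ?_⟩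
        apply mul_left_cancel₀ (sub_ne_zero.2 g1)
        rw [k1] at c1
        rw [k2] at c2
        rw [eX]
        linear_combination c1 - c2
      · refine ⟨by rw [← g2, ← g1]; exact k1, ?_⟩
        rw [eX, ← g1]
        have h5 : ℓ * (2 * (ℓ * x1 + m) + 1) = 3 * x1 ^ 2 := by rw [← k1]; exact g4
        linear_combination h5
    obtain ⟨k2, e2⟩ := key
    have e3 : x1 * x2 * X = m ^ 2 + 1 * m := by
      rw [k1] at c1
      linear_combination x1 * e2 - x1 ^ 2 * e1 - c1
    have c3' : (-Y - 1) ^ 2 + 1 * (-Y - 1) = X ^ 3 := by linear_combination c3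
    have h := L3 (a := 2 * (1 + 2 * I)) (b := -(1 + 2 * I)) (neg_ne_zero.2 (lamI hI))
      (k := ℓ - (1 + 2 * I)) (c := m - ℓ - I ^ 2) (X1 := x1 + 1) (X2 := x2 + 1) (X3 := X + 1)
      (Y1 := tl I x1 y1) (Y2 := tl I x2 y2) (Y3 := tl I X (-Y - 1))
      (by rw [k1]; unfold tl; ring) (by rw [k2]; unfold tl; ring) (by rw [k3]; unfold tl; ring)
      (curve hI (by linear_combination c1)) (curve hI (by linear_combination c2))
      (curve hI (by linear_combination c3'))
      (by linear_combination e1 + 4 * hI)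
      (by linear_combination e2 + 2 * e1 + (-2 * ℓ + 4) * hI)
      (by linear_combination e3 + e2 + e1 + (-I ^ 2 - I + 2 * m - 2 * ℓ + 1) * hI)
    have h' := cs_neg hI (x := X) (y := Y) (by linear_combination c3)
    have h5 := h.div h'
    have e5 : cs I x1 y1 * cs I x2 y2 * cs I X (-Y - 1) / (cs I X Y * cs I X (-Y - 1)) =
        cs I x1 y1 * cs I x2 y2 / cs I X Y :=
      mul_div_mul_right _ _ (cs_ne hI _ _)
    rw [← e5]
    exact h5

/-- `1 - ω`, with the first coordinate -/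
theorem one_sub_im' [DecidableEq F] [CharZero F] (hV : IsD V D) (hD : D ≠ 0) {I : F}
    (hI : I ^ 2 + I + 1 = 0) {x g : F}
    (hn : V.toAffine.Nonsingular x (D * I ^ 2 + (1 + 2 * I) * x * g)) (hx : x ≠ 0) :
    ∃ (X : F) (h : V.toAffine.Nonsingular X (g ^ 3)),
      (Affine.Point.some x _ hn : V.toAffine.Point) - im hV hD hI (.some x _ hn) = .some X _ h ∧
      X * x = I ^ 2 * g * (g * x - D) := by
  have h0 := hV.neg_nons hD (hV.im_nons hD hI hn)
  have h1I := subI hI
  have hI3 := cubI hI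
  have hI0 := neI hI
  have he := (hV.eqn _ _).1 hn.1
  have hr := rel hI he rfl
  rw [sub_eq_add_neg, im_some, hV.neg_eq _ h0]
  set y := D * I ^ 2 + (1 + 2 * I) * x * g with hy
  have hxy : ¬ (x = I * x ∧ y = -(-y - D) - D) := by
    rintro ⟨h3, -⟩
    have h4 : (1 - I) * x = 0 := by linear_combination h3
    exact mul_ne_zero h1I hx h4
  obtain ⟨ℓ, X, Y, h, e, eX, eY, hs⟩ := hV.add_ex hn h0 hxy
  have hℓ : ℓ * x = I * (2 * g * x - D) := by
    rcases hs with ⟨-, k1⟩ | ⟨k1, -⟩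
    · apply mul_left_cancel₀ h1I
      rw [hy] at k1
      linear_combination k1 + (2 * g * x + D) * hI
    · exact absurd ⟨k1, by ring⟩ hxy
  have hXx : X * x = I ^ 2 * g * (g * x - D) := by
    apply mul_right_cancel₀ hx
    have e1 : X * x * x = (ℓ * x) ^ 2 - (1 + I) * x ^ 3 := by
      rw [eX]; ring
    rw [e1, hℓ]
    linear_combination (-x ^ 3) * hI + I ^ 2 * hr
  have hY : Y = g ^ 3 := by
    have hx2 : x ^ 2 ≠ 0 := pow_ne_zero 2 hx
    apply mul_right_cancel₀ hx2
    have e1 : Y * x ^ 2 = -(ℓ * x) * (X * x) + (ℓ * x) * x ^ 2 - (y + D) * x ^ 2 := by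
      rw [eY]; ring
    rw [e1, hℓ, hXx, hy]
    linear_combination (-(2 * g * x - D) * g * (g * x - D)) * hI3 - D * x ^ 2 * hI - g * hr
  subst hY
  exact ⟨X, h, e, hXx⟩

theorem key_id {I x g X y : F} (hI : I ^ 2 + I + 1 = 0) (hX : X * x = I ^ 2 * g * (g * x - 1))
    (hy : y = 1 * I ^ 2 + (1 + 2 * I) * x * g)
    (hr : x ^ 3 + 3 * g ^ 2 * x ^ 2 - 3 * 1 * g * x + 1 ^ 2 = 0) :
    (1 - I) ^ 3 * tl I X (g ^ 3) * y * x ^ 3 = (x ^ 2 - I * x + I ^ 2 * y) ^ 3 := by
  have h1 : tl I X (g ^ 3) * x = g ^ 3 * x - I ^ 2 * x - (2 * I + 1) * (I ^ 2 * g * (g * x - 1) + x) := by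
    unfold tl
    linear_combination (-(1 + 2 * I)) * hX
  have h2 : (1 - I) ^ 3 * tl I X (g ^ 3) * y * x ^ 3 =
      (1 - I) ^ 3 * (g ^ 3 * x - I ^ 2 * x - (2 * I + 1) * (I ^ 2 * g * (g * x - 1) + x)) * y * x ^ 2 := by
    rw [← h1]; ring
  rw [h2, hy]
  linear_combination ((-1)*I^10 + (-6)*I^9*x*g + I^9 + (-12)*I^8*x^2*g^2 + 3*I^8*x*g + (-8)*I^7*x^3*g^3 + 3*I^7*x*g + 3*I^7*x + (-1)*I^7 + (-4)*I^6*x^3*g^3 + 2*I^6*x^3*g^2 + 9*I^6*x^2*g^2 + 10*I^6*x^2*g + (-3)*I^6*x^2 + (-6)*I^6*x*g + (-3)*I^6*x + I^6 + 4*I^5*x^4*g^3 + 6*I^5*x^3*g^3 + I^5*x^3*g^2 + (-12)*I^5*x^3*g + I^5*x^3 + (-9)*I^5*x^2*g^2 + I^5*x^2*g + 3*I^5*x^2 + 3*I^5*x*g + (-12)*I^4*x^4*g^3 + (-12)*I^4*x^4*g^2 + 2*I^4*x^4*g + (-3)*I^4*x^3*g^3 + 20*I^4*x^3*g^2 + 6*I^4*x^3*g + (-2)*I^4*x^3 + (-14)*I^4*x^2*g + (-3)*I^4*x^2 + 3*I^4*x*g + 3*I^4*x + (-1)*I^4 + 9*I^3*x^4*g^3 + (-3)*I^3*x^4*g + (-4)*I^3*x^3*g^3 + (-18)*I^3*x^3*g^2 + 5*I^3*x^3 + 9*I^3*x^2*g^2 + 12*I^3*x^2*g + (-6)*I^3*x*g + (-3)*I^3*x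 + I^3 + (-2)*I^2*x^4*g^4 + 8*I^2*x^4*g^3 + 9*I^2*x^4*g^2 + 8*I^2*x^4*g + (-3)*I^2*x^4 + 10*I^2*x^3*g^3 + (-8)*I^2*x^3*g^2 + (-9)*I^2*x^3*g + (-1)*I^2*x^3 + (-9)*I^2*x^2*g^2 + 3*I^2*x^2*g + 3*I^2*x^2 + 3*I^2*x*g + (-6)*I*x^5*g + 7*I*x^4*g^4 + (-18)*I*x^4*g^3 + (-9)*I*x^4*g^2 + 3*I*x^4*g + 3*I*x^4 + (-9)*I*x^3*g^3 + 27*I*x^3*g^2 + 9*I*x^3*g + (-2)*I*x^3 + (-15)*I*x^2*g + (-3)*I*x^2 + 3*I*x*g + 3*I*x + (-1)*I + 3*x^5*g + (-8)*x^4*g^4 + 9*x^4*g^3 + (-7)*x^4*g + (-3)*x^4 + (-18)*x^3*g^2 + 2*x^3 + 9*x^2*g^2 + 12*x^2*g + (-6)*x*g + (-3)*x + 1) * hI + (3*I*x^2*g + 3*I*x^2 + 3*I*x*g + (-1)*x^3 + 3*x^2*g^2 + (-3)*x^2*g + 3*x*g + 3*x + (-1)) * hr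

theorem sc_theta [DecidableEq F] [CharZero F] (hV : IsD V D) (hD1 : D = 1) (hD : D ≠ 0) {I : F}
    (hI : I ^ 2 + I + 1 = 0) (R : V.toAffine.Point) :
    IsC (sc I (R - im hV hD hI R) * cl D R) := by
  subst hD1
  -- the points for which the value is different from `T'`
  have main : ∀ {x y : F} (h : V.toAffine.Nonsingular x y), x ≠ 0 → ∀ {X Y : F}
      (h' : V.toAffine.Nonsingular X Y), (Affine.Point.some x y h : V.toAffine.Point) -
        im hV hD hI (.some x y h) = .some X Y h' → tl I X Y ≠ 0 →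
      IsC (sc I ((Affine.Point.some x y h : V.toAffine.Point) - im hV hD hI (.some x y h)) *
        cl 1 (Affine.Point.some x y h : V.toAffine.Point)) := by
    intro x y h hx X Y h' e ht
    have hl := lamI hI
    obtain ⟨g, hg⟩ : ∃ g : F, y = 1 * I ^ 2 + (1 + 2 * I) * x * g := by
      refine ⟨(y - 1 * I ^ 2) / ((1 + 2 * I) * x), ?_⟩
      have h1 : (1 + 2 * I) * x ≠ 0 := mul_ne_zero hl hx
      have e1 := div_mul_cancel₀ (y - 1 * I ^ 2) h1
      linear_combination -e1
    subst hg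
    obtain ⟨X', h'', e', hXx⟩ := one_sub_im' hV hD hI h hx
    rw [e, Affine.Point.some.injEq] at e'
    obtain ⟨rfl, rfl⟩ := e'
    have he := (hV.eqn _ _).1 h.1
    have hr := rel hI he rfl
    have hk := key_id hI hXx rfl hr
    have hy0 : (1 : F) * I ^ 2 + (1 + 2 * I) * x * g ≠ 0 := by
      intro h0
      rw [h0] at he
      have : x ^ 3 = 0 := by rw [← he]; ring
      exact hx (pow_eq_zero_iff three_ne_zero |>.1 this)
    rw [e, sc_some, cl_some, cs, cy_of ht, cy_of hy0]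
    set y := (1 : F) * I ^ 2 + (1 + 2 * I) * x * g with hy
    have h1I := subI hI
    refine ⟨(x ^ 2 - I * x + I ^ 2 * y) / ((1 - I) * x), ?_, ?_⟩
    · refine div_ne_zero ?_ (mul_ne_zero h1I hx)
      intro h0
      rw [h0] at hk
      have h1 : (1 - I) ^ 3 * tl I X (g ^ 3) * y * x ^ 3 ≠ 0 :=
        mul_ne_zero (mul_ne_zero (mul_ne_zero (pow_ne_zero _ h1I) ht) hy0) (pow_ne_zero _ hx)
      apply h1
      rw [hk]
      ring
    · rw [div_pow, ← hk]
      field_simp
  rcases R with _ | ⟨x, y, h⟩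
  · have h1 : (Affine.Point.zero : V.toAffine.Point) - im hV hD hI Affine.Point.zero = 0 := by
      show (0 : V.toAffine.Point) - im hV hD hI 0 = 0
      rw [map_zero, sub_zero]
    have h2 : cl 1 (Affine.Point.zero : V.toAffine.Point) = (1 : F) := rfl
    rw [h1, sc_zero, h2, mul_one]
    exact IsC.one
  · have he := (hV.eqn _ _).1 h.1
    by_cases hx : x = 0
    · subst hx
      have h1 : im hV hD hI (.some 0 y h) = .some 0 y h := by
        rw [im_some, Affine.Point.some.injEq]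
        exact ⟨by ring, rfl⟩
      rw [h1, sub_self, sc_zero, one_mul, cl_some]
      have h2 : y * (y + 1) = 0 := by linear_combination he
      rcases mul_eq_zero.1 h2 with h3 | h3
      · rw [h3, cy_zero, inv_one]
        exact IsC.one
      · have h4 : y = -1 := by linear_combination h3
        rw [h4, cy_of (neg_ne_zero.2 one_ne_zero)]
        exact ⟨-1, neg_ne_zero.2 one_ne_zero, by ring⟩
    · rcases hR : (Affine.Point.some x y h : V.toAffine.Point) - im hV hD hI (.some x y h) with _ | ⟨X, Y, h'⟩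
      · exfalso
        rcases ker_im hV hD hI hR with h1 | ⟨y', h'', h1⟩
        · exact Affine.Point.some_ne_zero _ h1
        · rw [Affine.Point.some.injEq] at h1
          exact hx h1.1
      · by_cases ht : tl I X Y = 0
        · have hn := hV.neg_nons hD h
          have hn' := hV.neg_nons hD h'
          have e1 : (Affine.Point.some x (-y - 1) hn : V.toAffine.Point) -
              im hV hD hI (.some x (-y - 1) hn) = .some X (-Y - 1) hn' := by
            rw [← hV.neg_eq h hn, ← hV.neg_eq h' hn', map_neg, ← hR]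
            abel
          have hc' := (hV.eqn _ _).1 h'.1
          have hX1 : X + 1 = 0 := by
            have := curve (x := X) (y := Y) hI (by linear_combination hc')
            rw [ht] at this
            have h3 : (X + 1) ^ 3 = 0 := by rw [← this]; ring
            exact pow_eq_zero_iff three_ne_zero |>.1 h3
          have ht' : tl I X (-Y - 1) ≠ 0 := by
            rw [tl_neg hI, ht, hX1]
            have : -0 - 2 * (1 + 2 * I) * 0 - -(1 + 2 * I) = 1 + 2 * I := by ring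
            rw [this]
            exact lamI hI
          have m1 := main hn hx hn' e1 ht'
          rw [e1, sc_some, cl_some] at m1
          have m2 := cs_neg hI (x := X) (y := Y) (by linear_combination hc')
          have m3 := cy_neg hD he
          have m4 := (m2.mul m3).div m1
          rw [sc_some, cl_some]
          have e4 : cs I X Y * cs I X (-Y - 1) * (cy 1 y * cy 1 (-y - 1)) /
              (cs I X (-Y - 1) * cy 1 (-y - 1)) = cs I X Y * cy 1 y := by
            have a1 := cs_ne hI X (-Y - 1)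
            have a2 := cy_ne hD (-y - 1)
            field_simp
          rwa [e4] at m4
        · have m1 := main h hx h' hR ht
          rwa [hR] at m1

end pts

section main

open Pool.Agent.Q7.CE Pool.Agent.H62 WithZero
open Pool.Agent.TH841.SH.D (Pt act)

variable {F : Type} [Field F] [CharZero F] {w : F}

theorem I_of (hI : w ^ 2 + w + 1 = 0) (L : Type) [Field L] [Algebra F L] :
    algebraMap F L w ^ 2 + algebraMap F L w + 1 = 0 := by
  rw [← map_pow, ← map_add, ← map_one (algebraMap F L), ← map_add, hI, map_zero]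

/-- the second class of a point -/
noncomputable def scP (w : F) {L : Type} [Field L] [Algebra F L] (P : Pt (ED (1 : F)) L) : L :=
  @sc L _ ((ED (1 : F)).baseChange L) (algebraMap F L w) P

theorem scP_ne (hI : w ^ 2 + w + 1 = 0) {L : Type} [Field L] [Algebra F L] (P : Pt (ED (1 : F)) L) :
    scP w P ≠ 0 :=
  @sc_ne L _ ((ED (1 : F)).baseChange L) (charZero_of_injective_algebraMap (algebraMap F L).injective)
    _ (I_of hI L) P

theorem scP_zero {L : Type} [Field L] [Algebra F L] : scP w (0 : Pt (ED (1 : F)) L) = 1 := rfl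

theorem scP_add (hI : w ^ 2 + w + 1 = 0) (L : Type) [Field L] [Algebra F L] (P Q : Pt (ED (1 : F)) L) :
    IsC (scP w P * scP w Q / scP w (P + Q)) :=
  @sc_add L _ ((ED (1 : F)).baseChange L) (algebraMap F L 1) (Classical.decEq L)
    (charZero_of_injective_algebraMap (algebraMap F L).injective) (isD_base 1 L) (map_one _) _
    (I_of hI L) P Q

theorem scP_theta (hI : w ^ 2 + w + 1 = 0) (L : Type) [Field L] [Algebra F L] (R : Pt (ED (1 : F)) L) :
    IsC (scP w (R - imP one_ne_zero hI L R) * clP 1 R) :=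
  @sc_theta L _ ((ED (1 : F)).baseChange L) (algebraMap F L 1) (Classical.decEq L)
    (charZero_of_injective_algebraMap (algebraMap F L).injective) (isD_base 1 L) (map_one _)
    ((map_ne_zero _).2 one_ne_zero) _ (I_of hI L) R

theorem scP_act {L L' : Type} [Field L] [Algebra F L] [Field L'] [Algebra F L']
    (s : L →ₐ[F] L') (P : Pt (ED (1 : F)) L) : scP w (act (ED (1 : F)) s P) = s (scP w P) := by
  rcases P with _ | ⟨x, y, h⟩
  · exact (map_one s).symm
  · show cs (algebraMap F L' w) (s x) (s y) = s (cs (algebraMap F L w) x y)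
    have h1 : tl (algebraMap F L' w) (s x) (s y) = s (tl (algebraMap F L w) x y) := by
      unfold tl
      simp only [map_sub, map_mul, map_add, map_one, map_pow, AlgHom.commutes, map_ofNat]
    rw [cs, cs, h1]
    by_cases hy : tl (algebraMap F L w) x y = 0
    · rw [hy, map_zero, cy_zero, cy_zero, map_inv₀, map_neg, map_add, map_mul, map_one, map_ofNat,
        AlgHom.commutes]
    · rw [cy_of hy, cy_of ((map_ne_zero _).2 hy)]

theorem c3_gen {L : Type} [Field L] {V : Valuation L ℤᵐ⁰} {a b X Y : L} (ha : V a ≤ 1) (hb : V b = 1)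
    (h : Y ^ 2 + a * X * Y + b * Y = X ^ 3) (hy : Y ≠ 0) : C3 (V Y) := by
  have hVY : V Y ≠ 0 := (Valuation.ne_zero_iff V).2 hy
  have h' : Y * (Y + (a * X + b)) = X ^ 3 := by linear_combination h
  have hprod : V Y * V (Y + (a * X + b)) = V X ^ 3 := by rw [← map_mul, h', map_pow]
  have haX : V (a * X) ≤ V X := by
    rw [map_mul]
    calc V a * V X ≤ 1 * V X := mul_le_mul_left ha _
      _ = V X := one_mul _
  rcases lt_trichotomy (V Y) 1 with h1 | h1 | h1
  · -- `V X < 1`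
    have hX : V X < 1 := by
      by_contra hX
      rw [not_lt] at hX
      have h2 : V (Y + (a * X + b)) ≤ V X := by
        refine (Valuation.map_add _ _ _).trans (max_le (h1.le.trans hX) ?_)
        refine (Valuation.map_add _ _ _).trans (max_le haX ?_)
        rw [hb]; exact hX
      have hX0 : V X ≠ 0 := by
        intro h0
        rw [h0] at hX
        exact absurd hX (not_le.2 zero_lt_one)
      have h3 : V X ^ 3 < V X := by
        rw [← hprod]
        calc V Y * V (Y + (a * X + b)) ≤ V Y * V X := mul_le_mul_right h2 _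
          _ < 1 * V X := by
            exact mul_lt_mul_of_pos_right h1 (zero_lt_iff.2 hX0)
          _ = V X := one_mul _
      have h4 : V X ≤ V X ^ 3 := by
        calc V X = V X ^ 1 := (pow_one _).symm
          _ ≤ V X ^ 3 := pow_le_pow_right₀ hX (by norm_num)
      exact absurd h3 (not_lt.2 h4)
    have h2 : V (Y + (a * X + b)) = 1 := by
      have h3 : V (a * X + b) = 1 := by
        rw [Valuation.map_add_eq_of_lt_right, hb]
        rw [hb]; exact haX.trans_lt hX
      rw [Valuation.map_add_eq_of_lt_right, h3]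
      rw [h3]; exact h1
    rw [h2, mul_one] at hprod
    have hX0 : V X ≠ 0 := by
      intro h0
      rw [h0] at hprod
      exact hVY (by rw [hprod]; rfl)
    rw [hprod]
    exact C3.cube hX0
  · rw [h1]
    exact C3.one
  · have hX1 : 1 < V X := by
      by_contra hX
      rw [not_lt] at hX
      have h3 : V (a * X + b) ≤ 1 :=
        (Valuation.map_add _ _ _).trans (max_le (haX.trans hX) hb.le)
      have h4 : V (Y + (a * X + b)) = V Y :=
        Valuation.map_add_eq_of_lt_left _ (h3.trans_lt h1)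
      rw [h4] at hprod
      have h5 : V X ^ 3 ≤ 1 := pow_le_one₀ zero_le hX
      rw [← hprod] at h5
      have h6 : 1 < V Y * V Y := one_lt_mul'' h1 h1
      exact absurd h6 (not_lt.2 h5)
    have hXY : V X < V Y := by
      by_contra hXY
      rw [not_lt] at hXY
      have h2 : V (Y + (a * X + b)) ≤ V X := by
        refine (Valuation.map_add _ _ _).trans (max_le hXY ?_)
        refine (Valuation.map_add _ _ _).trans (max_le haX ?_)
        rw [hb]; exact hX1.le
      have h3 : V X ^ 3 ≤ V X * V X := by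
        rw [← hprod]
        exact mul_le_mul' hXY h2
      have h4 : V X * V X < V X ^ 3 := by
        calc V X * V X = V X ^ 2 := (sq _).symm
          _ < V X ^ 3 := pow_lt_pow_right₀ hX1 (by norm_num)
      exact absurd h4 (not_lt.2 h3)
    have h2 : V (Y + (a * X + b)) = V Y := by
      have h3 : V (a * X + b) < V Y := by
        refine (Valuation.map_add _ _ _).trans_lt (max_lt (haX.trans_lt hXY) ?_)
        rw [hb]; exact h1
      exact Valuation.map_add_eq_of_lt_left _ h3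
    rw [h2] at hprod
    have hX0 : V X ≠ 0 := (zero_lt_one.trans hX1).ne'
    refine C3.of_sq hVY ?_
    rw [sq, hprod]
    exact C3.cube hX0

theorem scP_c3 (hI : w ^ 2 + w + 1 = 0) {L : Type} [Field L] [Algebra F L] (V : Valuation L ℤᵐ⁰)
    (hV : V 3 = 1) (P : Pt (ED (1 : F)) L) : C3 (V (scP w P)) := by
  have hI' := I_of hI L
  have : CharZero L := charZero_of_injective_algebraMap (algebraMap F L).injective
  set I := algebraMap F L w with hId
  have hb : V (1 + 2 * I) = 1 := by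
    have h1 : (1 + 2 * I) ^ 2 = -3 := by linear_combination 4 * hI'
    have h2 : V (1 + 2 * I) ^ 2 = 1 := by rw [← map_pow, h1, Valuation.map_neg, hV]
    have h4 := pow_eq_one_iff (a := V (1 + 2 * I)) (n := 2)
    exact (h4.1 h2).resolve_right two_ne_zero
  have hb' : V (-(1 + 2 * I)) = 1 := by rw [Valuation.map_neg, hb]
  have h2 : V 2 ≤ 1 := by
    have : (2 : L) = 1 + 1 := by norm_num
    rw [this]
    refine (Valuation.map_add _ _ _).trans (max_le ?_ ?_) <;> rw [map_one]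
  have ha : V (2 * (1 + 2 * I)) ≤ 1 := by
    rw [map_mul, hb, mul_one]; exact h2
  rcases P with _ | ⟨x, y, h⟩
  · show C3 (V 1)
    rw [map_one]
    exact C3.one
  · show C3 (V (cy (-(1 + 2 * I)) (tl I x y)))
    by_cases ht : tl I x y = 0
    · rw [ht, cy_zero, map_inv₀, hb', inv_one]
      exact C3.one
    · rw [cy_of ht]
      have he := ((isD_base (1 : F) L).eqn _ _).1 h.1
      rw [map_one] at he
      exact c3_gen ha hb' (curve hI' (by linear_combination he)) ht

/-- **the second class map**: the class of a point `Q` with `s Q - Q = R - ω R` -/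
theorem sig_cls {K : Type} [Field K] [Algebra F K] (hI : w ^ 2 + w + 1 = 0)
    (s : K →ₐ[F] K) (Q R : Pt (ED (1 : F)) K)
    (h : act (ED (1 : F)) s Q - Q = R - imP one_ne_zero hI K R) :
    ∃ x c : K, x ≠ 0 ∧ c ≠ 0 ∧ s x / x = (clP (1 : F) R) ^ 2 * c ^ 3 ∧
      ∀ V : Valuation K (WithZero (Multiplicative ℤ)), V 3 = 1 → C3 (V x) := by
  have h1 : act (ED (1 : F)) s Q = Q + (R - imP one_ne_zero hI K R) := by
    rw [← h]; abel
  have hR := clP_ne (D := (1 : F)) one_ne_zero R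
  have hQ := scP_ne hI Q
  have hT := scP_ne hI (R - imP one_ne_zero hI K R)
  obtain ⟨u, hu, eu⟩ := scP_add hI K Q (R - imP one_ne_zero hI K R)
  obtain ⟨v, hv, ev⟩ := scP_theta hI K R
  refine ⟨scP w Q, v / (u * clP (1 : F) R), hQ, div_ne_zero hv (mul_ne_zero hu hR), ?_,
    fun V hV => scP_c3 hI V hV Q⟩
  have e1 : s (scP w Q) = scP w (Q + (R - imP one_ne_zero hI K R)) := by
    rw [← h1, scP_act]
  rw [e1]
  have hS := scP_ne hI (Q + (R - imP one_ne_zero hI K R))
  rw [div_eq_iff hS] at eu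
  rw [div_pow, mul_pow, ← ev]
  rw [div_eq_iff hQ]
  have hu3 : u ^ 3 ≠ 0 := pow_ne_zero _ hu
  field_simp
  linear_combination (-1 : K) * eu

end main

end Pool.Agent.H81.SG
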