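import Mathlib
import Pool.Graph.R_pool_sql_team_seeded_3997aac3.Q190.CE.EKUM
import Pool.Agent.H81.SigCls
import Pool.Agent.H62.Sel

/-!
# Points with a prescribed Galois action: the second flex

The points of `y² + y = x³` are written as `(g, e)` with `e³ - g³ = 1`.
-/

set_option autoImplicit false
set_option linter.unusedSectionVars false

namespace Pool.Agent.H81.HS

open WeierstrassCurve Pool.Agent.Q285.CE Pool.Agent.Q123.CE Pool.Agent.H81.SG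

section alg

variable {L : Type*} [Field L]

/-- the first coordinate -/
def px (g e : L) : L := -(e ^ 2 + e * g + g ^ 2)

/-- the second coordinate -/
def py (W g e : L) : L := (W ^ 2 * g - W * e) * px g e

theorem p_curve {W g e : L} (hW : W ^ 2 + W + 1 = 0) (hE : e ^ 3 - g ^ 3 = 1) :
    py W g e ^ 2 + 1 * py W g e = px g e ^ 3 := by
  unfold py px
  linear_combination (W^2*e^4*g^2 + 2*W^2*e^3*g^3 + 3*W^2*e^2*g^4 + 2*W^2*e*g^5 + W^2*g^6 + (-2)*W*e^5*g + (-5)*W*e^4*g^2 + (-8)*W*e^3*g^3 + (-7)*W*e^2*g^4 + (-4)*W*e*g^5 + (-1)*W*g^6 + e^6 + 4*e^5*g + 7*e^4*g^2 + 8*e^3*g^3 + 5*e^2*g^4 + (-1)*e^2*g + 2*e*g^5 + (-1)*e*g^2 + (-1)*g^3) * hW + ((-1)*W*e^3 + (-2)*W*e^2*g + (-2)*W*e*g^2 + (-1)*W*g^3 + (-1)*e^2*g + (-1)*e*g^2 + (-1)*g^3) * hE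

theorem px_id {g e : L} (hE : e ^ 3 - g ^ 3 = 1) : (e - g) * px g e = -1 := by
  unfold px
  linear_combination -hE

theorem px_ne {g e : L} (hE : e ^ 3 - g ^ 3 = 1) : px g e ≠ 0 := by
  intro h
  have := px_id hE
  rw [h] at this
  norm_num at this

theorem py_ne {W g e : L} (hW : W ^ 2 + W + 1 = 0) (hE : e ^ 3 - g ^ 3 = 1) : py W g e ≠ 0 := by
  intro h
  have := p_curve hW hE
  rw [h] at this
  have h3 : px g e ^ 3 = 0 := by rw [← this]; ring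
  exact px_ne hE (pow_eq_zero_iff three_ne_zero |>.1 h3)

/-- the relation between the point `(g1, e1)` and the point `(g, e)` -/
structure Rel (W g1 e1 g e : L) : Prop where
  h1 : e1 ^ 3 - g1 ^ 3 = 1
  h : e ^ 3 - g ^ 3 = 1
  hg : g ≠ 0
  he : e ≠ 0
  hx : W ^ 2 * g * e = px g1 e1
  hy : -e ^ 3 = py W g1 e1

/-- the function -/
def rho (W g e : L) : L := (-W ^ 2 * e * g ^ 2 + W * g + e ^ 2) / (e * g)

theorem rot {g e : L} (hg : g ≠ 0) (h : e ^ 3 - g ^ 3 = 1) : (-1 / g) ^ 3 - (-e / g) ^ 3 = 1 := by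
  have h1 : e ^ 3 = 1 + g ^ 3 := by linear_combination h
  rw [div_pow, div_pow, neg_pow e, h1]
  field_simp
  ring

theorem scl {W g e : L} (hW : W ^ 2 + W + 1 = 0) (h : e ^ 3 - g ^ 3 = 1) :
    (W ^ 2 * e) ^ 3 - (W * g) ^ 3 = 1 := by
  have hW3 : W ^ 3 = 1 := by linear_combination (W - 1) * hW
  linear_combination h + (e ^ 3 * (W ^ 3 + 1) - g ^ 3) * hW3

theorem Rel.step {W g1 e1 g e : L} (hW : W ^ 2 + W + 1 = 0) (r : Rel W g1 e1 g e) :
    Rel W (W * g1) (W ^ 2 * e1) (-e / g) (-1 / g) := by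
  obtain ⟨h1, h, hg, he, hx, hy⟩ := r
  have hW3 : W ^ 3 = 1 := by linear_combination (W - 1) * hW
  have hg3 : g ^ 3 ≠ 0 := pow_ne_zero 3 hg
  have hyg : py W g1 e1 + 1 = -g ^ 3 := by linear_combination -hy - h
  -- `y + 1 = W x (W e1 - g1)`
  have k1 : py W g1 e1 + 1 = W * px g1 e1 * (W * e1 - g1) := by
    have := px_id h1
    unfold py
    linear_combination this - (e1 * px g1 e1) * hW + (px g1 e1 * g1) * hW
  have k2 : px (W * g1) (W ^ 2 * e1) * (W * (W * e1 - g1)) = -1 := by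
    have := px_id (scl hW h1)
    linear_combination this
  have hx' : W ^ 2 * (-e / g) * (-1 / g) = px (W * g1) (W ^ 2 * e1) := by
    apply mul_right_cancel₀ (b := W * (W * e1 - g1) * px g1 e1)
    · intro h0
      have : py W g1 e1 + 1 = 0 := by rw [k1, ← h0]; ring
      rw [hyg] at this
      exact hg3 (neg_eq_zero.1 this)
    · have e1' : px (W * g1) (W ^ 2 * e1) * (W * (W * e1 - g1) * px g1 e1) = -px g1 e1 := by
        linear_combination px g1 e1 * k2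
      have e2 : W * (W * e1 - g1) * px g1 e1 = -g ^ 3 := by
        rw [← hyg, k1]; ring
      rw [e1', e2, ← hx]
      field_simp
  refine ⟨scl hW h1, rot hg h, ?_, ?_, hx', ?_⟩
  · exact div_ne_zero (neg_ne_zero.2 he) hg
  · exact div_ne_zero (neg_ne_zero.2 one_ne_zero) hg
  · -- second coordinate
    have e3 : py W (W * g1) (W ^ 2 * e1) = (g1 - e1) * px (W * g1) (W ^ 2 * e1) := by
      unfold py
      linear_combination ((g1 - e1) * px (W * g1) (W ^ 2 * e1)) * hW3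
    rw [e3, ← hx']
    have h5 : (g1 - e1) * (W ^ 2 * g * e) = 1 := by
      rw [hx]
      linear_combination -(px_id h1)
    have h6 : (g1 - e1) * (W ^ 2 * (-e / g) * (-1 / g)) = 1 / g ^ 3 := by
      rw [eq_div_iff hg3]
      field_simp
      linear_combination h5
    rw [h6]
    field_simp

theorem rho_step {W g e : L} (hW : W ^ 2 + W + 1 = 0) (hg : g ≠ 0) (he : e ≠ 0) :
    rho W (-e / g) (-1 / g) = W ^ 2 * rho W g e := by
  have hW3 : W ^ 3 = 1 := by linear_combination (W - 1) * hW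
  unfold rho
  field_simp
  linear_combination (W * e * g ^ 2 - g) * hW3

theorem rho_T {W g e : L} (hW : W ^ 2 + W + 1 = 0) (m : ℕ) :
    rho W (W ^ m * g) (W ^ (2 * m) * e) = W ^ m * rho W g e := by
  have hW3 : W ^ 3 = 1 := by linear_combination (W - 1) * hW
  have h1 : (W ^ m) ^ 3 = 1 := by rw [← pow_mul, mul_comm m 3, pow_mul, hW3, one_pow]
  have h2 : W ^ (2 * m) = (W ^ m) ^ 2 := by rw [mul_comm, pow_mul]
  rw [h2]
  set z := W ^ m with hz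
  unfold rho
  have e1 : z ^ 2 * e * (z * g) = e * g := by linear_combination (e * g) * h1
  have e2 : -W ^ 2 * (z ^ 2 * e) * (z * g) ^ 2 + W * (z * g) + (z ^ 2 * e) ^ 2 =
      z * (-W ^ 2 * e * g ^ 2 + W * g + e ^ 2) := by
    linear_combination (-W ^ 2 * e * g ^ 2 * z + z * e ^ 2) * h1
  rw [e1, e2, mul_div_assoc]

theorem rho_cube {W g1 e1 g e : L} (hW : W ^ 2 + W + 1 = 0) (r : Rel W g1 e1 g e) :
    rho W g e ^ 3 = (1 - W) ^ 3 * tl W (W ^ 2 * g1 * e1) (-e1 ^ 3) := by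
  obtain ⟨h1, h, hg, he, hx, hy⟩ := r
  have hid := px_id h1
  have hW3 : W ^ 3 = 1 := by linear_combination (W - 1) * hW
  have hk := key_id (I := W) (x := px g1 e1) (g := -e1) (X := W ^ 2 * g1 * e1) (y := py W g1 e1) hW
    (by linear_combination (-W ^ 2 * e1) * hid)
    (by unfold py; linear_combination (-W ^ 2) * hid + (e1 * px g1 e1) * hW)
    (by
      have := p_curve hW h1
      have hyy : py W g1 e1 = 1 * W ^ 2 + (1 + 2 * W) * px g1 e1 * (-e1) := by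
        unfold py; linear_combination (-W ^ 2) * hid + (e1 * px g1 e1) * hW
      exact Pool.Agent.Q285.CE.rel hW (by linear_combination this) hyy)
  have h3 : (-e1) ^ 3 = -e1 ^ 3 := by ring
  rw [h3] at hk
  set t := tl W (W ^ 2 * g1 * e1) (-e1 ^ 3) with ht
  rw [← hx, ← hy] at hk
  have hN : (W ^ 2 * g * e) ^ 2 - W * (W ^ 2 * g * e) + W ^ 2 * -e ^ 3 =
      (-W ^ 2 * e) * (-W ^ 2 * e * g ^ 2 + W * g + e ^ 2) := by ring
  rw [hN] at hk
  unfold rho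
  rw [div_pow]
  rw [div_eq_iff (pow_ne_zero _ (mul_ne_zero he hg))]
  apply mul_left_cancel₀ (neg_ne_zero.2 (pow_ne_zero 3 he))
  have hW6 : (W ^ 2) ^ 3 = 1 := by rw [← pow_mul, mul_comm 2 3, pow_mul, hW3, one_pow]
  have e5 : (-W ^ 2 * e * (-W ^ 2 * e * g ^ 2 + W * g + e ^ 2)) ^ 3 =
      -e ^ 3 * (-W ^ 2 * e * g ^ 2 + W * g + e ^ 2) ^ 3 := by
    linear_combination (-e ^ 3 * (-W ^ 2 * e * g ^ 2 + W * g + e ^ 2) ^ 3) * hW6
  rw [← e5, ← hk]
  linear_combination ((1 - W) ^ 3 * t * -e ^ 3 * (g * e) ^ 3) * hW6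

end alg

section add

variable {F : Type*} [Field F] [DecidableEq F] [CharZero F] {V : WeierstrassCurve F}

theorem add_T0 (hV : IsD V 1) {W g e : F} (hW : W ^ 2 + W + 1 = 0) (hE : e ^ 3 - g ^ 3 = 1)
    (n0 : V.toAffine.Nonsingular 0 0) (n1 : V.toAffine.Nonsingular (px g e) (py W g e))
    (n2 : V.toAffine.Nonsingular (px (W * g) (W ^ 2 * e)) (py W (W * g) (W ^ 2 * e))) :
    (Affine.Point.some _ _ n1 : V.toAffine.Point) + .some 0 0 n0 = .some _ _ n2 := by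
  have hx := px_ne hE
  have hxy : ¬ (px g e = 0 ∧ py W g e = -0 - 1) := fun h => hx h.1
  obtain ⟨ℓ, X, Y, n3, e3, eX, eY, hs⟩ := hV.add_ex n1 n0 hxy
  have hℓ : ℓ * px g e = py W g e := by
    rcases hs with ⟨-, k⟩ | ⟨k, -⟩
    · linear_combination k
    · exact absurd k hx
  have hX : X = px (W * g) (W ^ 2 * e) := by
    apply mul_right_cancel₀ (pow_ne_zero 2 hx)
    have h1 : X * px g e ^ 2 = (ℓ * px g e) ^ 2 - px g e * px g e ^ 2 := by rw [eX]; ring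
    have hc := p_curve hW hE
    rw [h1, hℓ]
    have key : -py W g e - px (W * g) (W ^ 2 * e) * px g e ^ 2 = 0 := by
      unfold py px
      linear_combination (W^2*e^6 + 2*W^2*e^5*g + 3*W^2*e^4*g^2 + 2*W^2*e^3*g^3 + W^2*e^2*g^4 + (-1)*W*e^6 + (-1)*W*e^5*g + (-1)*W*e^4*g^2 + W*e^3*g^3 + W*e^2*g^4 + W*e*g^5 + (-1)*e^5*g + (-1)*e^4*g^2 + (-1)*e^3*g^3 + e^2*g^4 + e^2*g + e*g^5 + e*g^2 + g^6 + g^3) * hW + (W*e^3 + 2*W*e^2*g + 2*W*e*g^2 + W*g^3 + e^2*g + e*g^2 + g^3) * hE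
    linear_combination key + hc
  have hY : Y = py W (W * g) (W ^ 2 * e) := by
    apply mul_right_cancel₀ hx
    have h1 : Y * px g e = -((ℓ * px g e) * (X - px g e) + py W g e * px g e) - 1 * px g e := by rw [eY]; ring
    rw [h1, hℓ, hX]
    have key : -py W g e * px (W * g) (W ^ 2 * e) - px g e -
        (W ^ 2 * W * g - W * W ^ 2 * e) * px (W * g) (W ^ 2 * e) * px g e = 0 := by
      unfold py px
      linear_combination (W^5*e^5 + (-1)*W^5*e^2*g^3 + (-1)*W^4*e^5 + (-1)*W^4*e^3*g^2 + (-1)*W^4*e*g^4 + W^3*e^5 + W^3*e^4*g + 2*W^3*e^3*g^2 + (-1)*W^3*g^5 + (-1)*W*e^5 + (-1)*W*e^4*g + (-1)*W*e^3*g^2 + W*e^2*g^3 + W*e*g^4 + W*g^5 + e^5 + e^4*g + e^3*g^2 + (-1)*e^2*g^3 + (-1)*e*g^4 + (-1)*g^5) * hW + ((-1)*e^2 + (-1)*e*g + (-1)*g^2) * hE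
    unfold py at key ⊢
    linear_combination key
  rw [e3, Affine.Point.some.injEq]
  exact ⟨hX, hY⟩

theorem add_T1 (hV : IsD V 1) {W g e : F} (hW : W ^ 2 + W + 1 = 0) (hE : e ^ 3 - g ^ 3 = 1)
    (hg : g ≠ 0) (he : e ≠ 0)
    (n0 : V.toAffine.Nonsingular (-1) (W ^ 2)) (n1 : V.toAffine.Nonsingular (px g e) (py W g e))
    (n2 : V.toAffine.Nonsingular (px (-e / g) (-1 / g)) (py W (-e / g) (-1 / g))) :
    (Affine.Point.some _ _ n1 : V.toAffine.Point) + .some (-1) (W ^ 2) n0 = .some _ _ n2 := by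
  have hx : px g e + 1 ≠ 0 := by
    intro h0
    have h1 : (e - g) * (px g e + 1) = e - g - 1 := by linear_combination px_id hE
    rw [h0, mul_zero] at h1
    have h2 : (e - g - 1) * (e ^ 2 + g ^ 2 + 1 + e * g + e - g) = -3 * (e * g) := by
      linear_combination hE
    rw [← h1, zero_mul] at h2
    have h3 : e * g = 0 := by
      have h4 : (3 : F) ≠ 0 := three_ne_zero
      apply mul_left_cancel₀ h4
      linear_combination h2
    exact mul_ne_zero he hg h3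
  have hxy : ¬ (px g e = -1 ∧ py W g e = -W ^ 2 - 1) := fun h => hx (by rw [h.1]; ring)
  obtain ⟨ℓ, X, Y, n3, e3, eX, eY, hs⟩ := hV.add_ex n1 n0 hxy
  have hℓ : ℓ * (px g e + 1) = py W g e - W ^ 2 := by
    rcases hs with ⟨-, k⟩ | ⟨k, -⟩
    · linear_combination k
    · exact absurd (by rw [k]; ring) hx
  have hX2 : px (-e / g) (-1 / g) * g ^ 2 = -(1 + e + e ^ 2) := by
    unfold px
    field_simp
  have hY2 : py W (-e / g) (-1 / g) * g ^ 3 = (W - W ^ 2 * e) * (-(1 + e + e ^ 2)) := by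
    rw [← hX2]
    unfold py
    field_simp
    ring
  have hX : X = px (-e / g) (-1 / g) := by
    apply mul_right_cancel₀ (pow_ne_zero 2 hg)
    apply mul_right_cancel₀ (pow_ne_zero 2 hx)
    rw [hX2]
    have h1 : X * g ^ 2 * (px g e + 1) ^ 2 =
        ((ℓ * (px g e + 1)) ^ 2 + (1 - px g e) * (px g e + 1) ^ 2) * g ^ 2 := by rw [eX]; ring
    rw [h1, hℓ]
    unfold py px
    linear_combination (W^2*e^4*g^4 + 2*W^2*e^3*g^5 + 3*W^2*e^2*g^6 + 2*W^2*e^2*g^3 + 2*W^2*e*g^7 + 2*W^2*e*g^4 + W^2*g^8 + 2*W^2*g^5 + W^2*g^2 + (-2)*W*e^5*g^3 + (-5)*W*e^4*g^4 + (-8)*W*e^3*g^5 + (-2)*W*e^3*g^2 + (-7)*W*e^2*g^6 + (-4)*W*e^2*g^3 + (-4)*W*e*g^7 + (-4)*W*e*g^4 + (-1)*W*g^8 + (-2)*W*g^5 + (-1)*W*g^2 + e^6*g^2 + 4*e^5*g^3 + 7*e^4*g^4 + 8*e^3*g^5 + 2*e^3*g^2 + 5*e^2*g^6 + 2*e^2*g^3 + 2*e*g^7 + 2*e*g^4) * hW + ((-1)*W*e^3*g^2 + (-2)*W*e^2*g^3 + (-2)*W*e*g^4 + (-1)*W*g^5 + (-1)*W*g^2 + e^3 + (-1)*e^2*g^3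 + 2*e^2*g + e^2 + (-1)*e*g^4 + 2*e*g^2 + 2*e*g + (-1)*e + (-1)*g^5 + g^3 + g^2 + (-1)) * hE
  have hY : Y = py W (-e / g) (-1 / g) := by
    apply mul_right_cancel₀ (pow_ne_zero 3 hg)
    apply mul_right_cancel₀ hx
    rw [hY2]
    have h1 : Y * g ^ 3 * (px g e + 1) = -((ℓ * (px g e + 1)) * (X * g ^ 2 * g - px g e * g ^ 3) +
        py W g e * g ^ 3 * (px g e + 1)) - (px g e + 1) * g ^ 3 := by rw [eY]; ring
    rw [h1, hℓ, hX, hX2]
    unfold py px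
    linear_combination (e^5 + (-1)*e^4*g^2 + e^4*g + e^4 + (-1)*e^3*g^3 + e^3*g + (-1)*e^2 + e*g^5 + (-1)*e*g^3 + e*g^2 + (-1)*e*g + (-1)*e + g^6 + g^5 + (-1)*g^4 + (-1)*g) * hW + (W*e^2*g + (-1)*W*e^2 + 2*W*e*g^2 + (-2)*W*e + W*g^3 + W*g^2 + (-1)*W*g + (-1)*W + (-1)*e^2 + e*g^2 + (-1)*e*g + (-1)*e + g^3 + (-1)*g) * hE
  rw [e3, Affine.Point.some.injEq]
  exact ⟨hX, hY⟩

end add

end Pool.Agent.H81.HS
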