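import Mathlib
import Pool.Agent.H81.Hes

/-!
# Points with a prescribed Galois action: the second flex, II
-/

set_option autoImplicit false
set_option linter.unusedSectionVars false

namespace Pool.Agent.H81.HS

open WeierstrassCurve Pool.Agent.Q285.CE Pool.Agent.Q123.CE Pool.Agent.H81.SG
open Pool.Agent.Q7.CE Pool.Agent.H62
open Pool.Agent.Q190.CE (cube_eq)
open Pool.Agent.TH841.SH.D (Pt act)

variable {F : Type} [Field F] [CharZero F] {w : F}

theorem isD1 (L : Type) [Field L] [Algebra F L] : IsD ((ED (1 : F)).baseChange L) (1 : L) := by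
  have := isD_base (1 : F) L
  rwa [map_one] at this

theorem nons_of {L : Type} [Field L] [Algebra F L] {x y : L} (h : y ^ 2 + 1 * y = x ^ 3) :
    ((ED (1 : F)).baseChange L).toAffine.Nonsingular x y := by
  have : CharZero L := charZero_of_injective_algebraMap (algebraMap F L).injective
  exact (isD1 L).nons one_ne_zero h

/-- the point `(g, e)` -/
noncomputable def pt (hI : w ^ 2 + w + 1 = 0) (L : Type) [Field L] [Algebra F L] (g e : L)
    (h : e ^ 3 - g ^ 3 = 1) : Pt (ED (1 : F)) L :=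
  Affine.Point.some (px g e) (py (algebraMap F L w) g e) (nons_of (p_curve (I_of hI L) h))

/-- the origin of the affine plane -/
noncomputable def T0 (F : Type) [Field F] [CharZero F] (L : Type) [Field L] [Algebra F L] : Pt (ED (1 : F)) L :=
  Affine.Point.some 0 0 (nons_of (by ring))

theorem pt_congr {hI : w ^ 2 + w + 1 = 0} {L : Type} [Field L] [Algebra F L] {g e g' e' : L}
    {h : e ^ 3 - g ^ 3 = 1} {h' : e' ^ 3 - g' ^ 3 = 1} (h1 : g = g') (h2 : e = e') :
    pt hI L g e h = pt hI L g' e' h' := by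
  subst h1; subst h2; rfl

theorem pt_T0 (hI : w ^ 2 + w + 1 = 0) {L : Type} [Field L] [Algebra F L] {g e : L}
    (h : e ^ 3 - g ^ 3 = 1) : pt hI L g e h + T0 F L =
      pt hI L (algebraMap F L w * g) (algebraMap F L w ^ 2 * e) (scl (I_of hI L) h) := by
  have : CharZero L := charZero_of_injective_algebraMap (algebraMap F L).injective
  exact @add_T0 L _ (Classical.decEq L) _ ((ED (1 : F)).baseChange L) (isD1 L) _ _ _ (I_of hI L) h _ _ _

theorem pt_T1 (hI : w ^ 2 + w + 1 = 0) {L : Type} [Field L] [Algebra F L] {g e : L}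
    (h : e ^ 3 - g ^ 3 = 1) (hg : g ≠ 0) (he : e ≠ 0) : pt hI L g e h + T' hI L =
      pt hI L (-e / g) (-1 / g) (rot hg h) := by
  have : CharZero L := charZero_of_injective_algebraMap (algebraMap F L).injective
  exact @add_T1 L _ (Classical.decEq L) _ ((ED (1 : F)).baseChange L) (isD1 L) _ _ _ (I_of hI L) h hg he _ _ _

theorem act_pt (hI : w ^ 2 + w + 1 = 0) {L L' : Type} [Field L] [Algebra F L] [Field L'] [Algebra F L']
    (φ : L →ₐ[F] L') {g e : L} (h : e ^ 3 - g ^ 3 = 1) (h' : (φ e) ^ 3 - (φ g) ^ 3 = 1) :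
    act (ED (1 : F)) φ (pt hI L g e h) = pt hI L' (φ g) (φ e) h' := by
  show (Affine.Point.some (φ (px g e)) (φ (py (algebraMap F L w) g e)) _ :
    ((ED (1 : F)).baseChange L').toAffine.Point) = Affine.Point.some (px (φ g) (φ e))
      (py (algebraMap F L' w) (φ g) (φ e)) _
  rw [Affine.Point.some.injEq]
  have h1 : φ (px g e) = px (φ g) (φ e) := by
    unfold px
    simp only [map_neg, map_add, map_mul, map_pow]
  refine ⟨h1, ?_⟩
  unfold py
  rw [map_mul, h1, map_sub, map_mul, map_mul, map_pow, AlgHom.commutes]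

theorem pt_nT0 (hI : w ^ 2 + w + 1 = 0) {L : Type} [Field L] [Algebra F L] {g e : L}
    (h : e ^ 3 - g ^ 3 = 1) (m : ℕ) : ∃ h', pt hI L g e h + m • T0 F L =
      pt hI L (algebraMap F L w ^ m * g) (algebraMap F L w ^ (2 * m) * e) h' := by
  induction m with
  | zero =>
    refine ⟨by rw [mul_zero, pow_zero, one_mul, one_mul]; exact h, ?_⟩
    rw [zero_nsmul, add_zero]
    exact pt_congr (by rw [pow_zero, one_mul]) (by rw [mul_zero, pow_zero, one_mul])
  | succ m ih =>
    obtain ⟨h', e'⟩ := ih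
    have h2 := scl (I_of hI L) h'
    have e1 : algebraMap F L w * (algebraMap F L w ^ m * g) = algebraMap F L w ^ (m + 1) * g := by ring
    have e2 : algebraMap F L w ^ 2 * (algebraMap F L w ^ (2 * m) * e) =
      algebraMap F L w ^ (2 * (m + 1)) * e := by ring
    refine ⟨by rw [← e1, ← e2]; exact h2, ?_⟩
    rw [succ_nsmul, ← add_assoc, e', pt_T0]
    exact pt_congr e1 e2

theorem iter1 (hI : w ^ 2 + w + 1 = 0) {L : Type} [Field L] [Algebra F L] {g1 e1 g e : L}
    (r : Rel (algebraMap F L w) g1 e1 g e) (c : ℕ) : ∃ (g' e' : L) (h' : e' ^ 3 - g' ^ 3 = 1),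
      Rel (algebraMap F L w) (algebraMap F L w ^ c * g1) (algebraMap F L w ^ (2 * c) * e1) g' e' ∧
      rho (algebraMap F L w) g' e' = algebraMap F L w ^ (2 * c) * rho (algebraMap F L w) g e ∧
      pt hI L g e r.h + c • T' hI L = pt hI L g' e' h' := by
  induction c with
  | zero =>
    refine ⟨g, e, r.h, ?_, ?_, ?_⟩
    · rw [mul_zero, pow_zero, one_mul, one_mul]; exact r
    · rw [mul_zero, pow_zero, one_mul]
    · rw [zero_nsmul, add_zero]
  | succ c ih =>
    obtain ⟨g', e', h', r', hr, hp⟩ := ih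
    refine ⟨-e' / g', -1 / g', rot r'.hg h', ?_, ?_, ?_⟩
    · have := r'.step (I_of hI L)
      have e1' : algebraMap F L w * (algebraMap F L w ^ c * g1) = algebraMap F L w ^ (c + 1) * g1 := by ring
      have e2' : algebraMap F L w ^ 2 * (algebraMap F L w ^ (2 * c) * e1) =
        algebraMap F L w ^ (2 * (c + 1)) * e1 := by ring
      rwa [e1', e2'] at this
    · rw [rho_step (I_of hI L) r'.hg r'.he, hr]
      ring
    · rw [succ_nsmul, ← add_assoc, hp, pt_T1 hI h' r'.hg r'.he]

theorem prim_of {L : Type} [Field L] [CharZero L] {W : L} (hW : W ^ 2 + W + 1 = 0) : IsPrimitiveRoot W 3 := by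
  have hW3 : W ^ 3 = 1 := by linear_combination (W - 1) * hW
  have hWne : W ≠ 1 := by
    intro h
    rw [h] at hW
    norm_num at hW
  refine IsPrimitiveRoot.mk_of_lt W (by norm_num) hW3 ?_
  intro l hl0 hl h
  have h12 : l = 1 ∨ l = 2 := by omega
  rcases h12 with rfl | rfl
  · exact hWne (by rw [← h, pow_one])
  · apply hWne
    calc W = W ^ 3 := by
          rw [show W ^ 3 = W ^ 2 * W by ring, h, one_mul]
      _ = 1 := hW3

theorem T0_three (hI : w ^ 2 + w + 1 = 0) {L : Type} [Field L] [Algebra F L] {m : ℕ}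
    (hm : (algebraMap F L w) ^ m = 1) : m • T0 F L = 0 := by
  have : CharZero L := charZero_of_injective_algebraMap (algebraMap F L).injective
  obtain ⟨k, rfl⟩ := ((prim_of (I_of hI L)).pow_eq_one_iff_dvd m).1 hm
  have h3 : (3 : ℕ) • T0 F L = 0 := by
    rw [← th'_th hI L]
    have : th hI L (T0 F L) = 0 := th_T hI L _
    rw [this, map_zero]
  rw [mul_nsmul, h3, nsmul_zero]

/-- points with a prescribed Galois action: the first flex -/
theorem exists_S {K L : Type} [Field K] [Algebra F K] [Field L] [Algebra F L] [Algebra K L]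
    [IsScalarTower F K L] (hI : w ^ 2 + w + 1 = 0) {b : K} {s : L} (hs0 : s ≠ 0)
    (hs3 : s ^ 3 = algebraMap K L b)
    (hsol : ∃ u z t : K, (u ≠ 0 ∨ z ≠ 0 ∨ t ≠ 0) ∧ z ^ 3 = b ^ 2 * u ^ 3 + b * t ^ 3) :
    ∃ P : Pt (ED (1 : F)) L, ∀ (τ : L →ₐ[K] L) (m : ℕ), τ s = (algebraMap F L w) ^ m * s →
      act (ED (1 : F)) (τ.restrictScalars F) P = P + m • T0 F L := by
  have hW := I_of hI L
  have hc0 : CharZero L := charZero_of_injective_algebraMap (algebraMap F L).injective
  have hτW : ∀ τ : L →ₐ[K] L, τ (algebraMap F L w) = algebraMap F L w := by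
    intro τ
    rw [IsScalarTower.algebraMap_apply F K L, τ.commutes]
  have hW3 : (algebraMap F L w) ^ 3 = 1 := by linear_combination (algebraMap F L w - 1) * hW
  have hb : b ≠ 0 := by
    rintro rfl
    rw [map_zero] at hs3
    exact hs0 (pow_eq_zero_iff three_ne_zero |>.1 hs3)
  have hbL : algebraMap K L b ≠ 0 := (map_ne_zero _).2 hb
  obtain ⟨u, z, t, hne, hsol⟩ := hsol
  by_cases ht : t = 0
  · have hu : u ≠ 0 := by
      intro hu
      rw [ht, hu] at hsol
      have : z = 0 := by
        have h1 : z ^ 3 = 0 := by rw [hsol]; ring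
        exact pow_eq_zero_iff (three_ne_zero) |>.1 h1
      rcases hne with h1 | h1 | h1
      · exact h1 hu
      · exact h1 this
      · exact h1 ht
    have hz0 : z ≠ 0 := by
      intro h0
      rw [ht, h0] at hsol
      have h1 : b ^ 2 * u ^ 3 = 0 := by linear_combination -hsol
      exact mul_ne_zero (pow_ne_zero 2 hb) (pow_ne_zero 3 hu) h1
    have hcube : (b * u / z) ^ 3 = b := by
      rw [div_pow, div_eq_iff (pow_ne_zero 3 hz0), hsol, ht]
      ring
    have hc2 : s ^ 3 = (algebraMap K L (b * u / z)) ^ 3 := by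
      rw [hs3, ← map_pow, hcube]
    obtain ⟨i, hi⟩ := cube_eq hW hc2
    refine ⟨0, fun τ m hm => ?_⟩
    have h2 : τ s = s := by
      rw [hi, map_mul, map_pow, hτW, τ.commutes]
    have h4 : (algebraMap F L w) ^ m = 1 := by
      apply mul_right_cancel₀ hs0
      rw [one_mul, ← hm, h2]
    rw [map_zero, zero_add, T0_three hI h4]
  · set g : L := algebraMap K L (u / t) * s with hg
    set e : L := algebraMap K L (z / t) / s with he
    have heg : e ^ 3 - g ^ 3 = 1 := by
      have h1 : (z / t) ^ 3 = b ^ 2 * (u / t) ^ 3 + b := by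
        rw [div_pow, div_pow, hsol]
        field_simp
      have h2 := congrArg (algebraMap K L) h1
      rw [map_pow, map_add, map_mul, map_pow, map_pow, ← hs3] at h2
      rw [he, hg, div_pow, h2]
      field_simp
      ring
    refine ⟨pt hI L g e heg, fun τ m hm => ?_⟩
    obtain ⟨h', hp⟩ := pt_nT0 hI heg m
    have hWm : (algebraMap F L w) ^ m ≠ 0 := pow_ne_zero _ (neI hW)
    have hτg : τ g = (algebraMap F L w) ^ m * g := by
      rw [hg, map_mul, hm, τ.commutes]
      ring
    have hWW : (algebraMap F L w) ^ (2 * m) * (algebraMap F L w) ^ m = 1 := by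
      rw [← pow_add, show 2 * m + m = 3 * m by ring, pow_mul, hW3, one_pow]
    have hτe : τ e = (algebraMap F L w) ^ (2 * m) * e := by
      rw [he, map_div₀, hm, τ.commutes]
      rw [div_eq_iff (mul_ne_zero hWm hs0)]
      have : (algebraMap F L w) ^ (2 * m) * (algebraMap K L (z / t) / s) * ((algebraMap F L w) ^ m * s) =
        ((algebraMap F L w) ^ (2 * m) * (algebraMap F L w) ^ m) * (algebraMap K L (z / t) / s * s) := by ring
      rw [this, hWW, div_mul_cancel₀ _ hs0, one_mul]
    have h'' : ((τ.restrictScalars F) e) ^ 3 - ((τ.restrictScalars F) g) ^ 3 = 1 := by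
      rw [← map_pow, ← map_pow, ← map_sub, heg, map_one]
    rw [act_pt hI (τ.restrictScalars F) heg h'', hp]
    exact pt_congr hτg hτe

/-- points with a prescribed Galois action: the second flex -/
theorem exists_S' {K L : Type} [Field K] [Algebra F K] [Field L] [Algebra F L] [Algebra K L]
    [IsScalarTower F K L] [IsAlgClosed L] (hI : w ^ 2 + w + 1 = 0) {a U V : K} (ha : a ≠ 0)
    (hUV : V ^ 3 = a ^ 2 * U ^ 3 + a)
    (hb0 : tl (algebraMap F K w) (algebraMap F K w ^ 2 * (U * V)) (-(V ^ 3 / a)) ≠ 0)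
    (hsol : ∃ u z t : K, (u ≠ 0 ∨ z ≠ 0 ∨ t ≠ 0) ∧
      z ^ 3 = ((1 - algebraMap F K w) ^ 3 *
          tl (algebraMap F K w) (algebraMap F K w ^ 2 * (U * V)) (-(V ^ 3 / a)) * a) ^ 2 * u ^ 3 +
        ((1 - algebraMap F K w) ^ 3 *
          tl (algebraMap F K w) (algebraMap F K w ^ 2 * (U * V)) (-(V ^ 3 / a)) * a) * t ^ 3)
    {s : L} (hs3 : s ^ 3 = algebraMap K L a) :
    ∃ P : Pt (ED (1 : F)) L, ∀ (τ : L →ₐ[K] L) (c : ℕ), τ s = (algebraMap F L w) ^ c * s →
      act (ED (1 : F)) (τ.restrictScalars F) P = P + c • T' hI L := by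
  have hW := I_of hI L
  have hWK := I_of hI K
  have hc0 : CharZero L := charZero_of_injective_algebraMap (algebraMap F L).injective
  have hcK : CharZero K := charZero_of_injective_algebraMap (algebraMap F K).injective
  have hτW : ∀ τ : L →ₐ[K] L, τ (algebraMap F L w) = algebraMap F L w := by
    intro τ
    rw [IsScalarTower.algebraMap_apply F K L, τ.commutes]
  set W := algebraMap F L w with hWdef
  set WK := algebraMap F K w with hWKdef
  have hWW' : algebraMap K L WK = W := by
    rw [hWdef, hWKdef, IsScalarTower.algebraMap_apply F K L]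
  have hW3 : W ^ 3 = 1 := by linear_combination (W - 1) * hW
  have hW0 : W ≠ 0 := neI hW
  have haL : algebraMap K L a ≠ 0 := (map_ne_zero _).2 ha
  have hs0 : s ≠ 0 := by
    rintro rfl
    rw [zero_pow three_ne_zero] at hs3
    exact haL hs3.symm
  obtain ⟨g1, hg1⟩ : ∃ g1, g1 = algebraMap K L U * s := ⟨_, rfl⟩
  obtain ⟨e1, he1⟩ : ∃ e1, e1 = algebraMap K L V / s := ⟨_, rfl⟩
  have h1 : e1 ^ 3 - g1 ^ 3 = 1 := by
    have h2 := congrArg (algebraMap K L) hUV
    rw [map_pow, map_add, map_mul, map_pow, map_pow, ← hs3] at h2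
    rw [he1, hg1, div_pow, h2]
    field_simp
    ring
  have hx1 := px_ne h1
  have hy1 := py_ne hW h1
  obtain ⟨e, he3⟩ := IsAlgClosed.exists_pow_nat_eq (-py W g1 e1) (n := 3) (by norm_num)
  have he : e ≠ 0 := by
    rintro rfl
    rw [zero_pow three_ne_zero] at he3
    exact hy1 (neg_eq_zero.1 he3.symm)
  set g : L := W * px g1 e1 / e with hg
  have hge : W ^ 2 * g * e = px g1 e1 := by
    rw [hg]
    field_simp
    linear_combination hW3
  have hg0 : g ≠ 0 := by
    intro h0
    rw [h0] at hge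
    exact hx1 (by rw [← hge]; ring)
  have h : e ^ 3 - g ^ 3 = 1 := by
    have hcurve := p_curve hW h1
    have hW6 : (W ^ 2) ^ 3 = 1 := by rw [← pow_mul, mul_comm 2 3, pow_mul, hW3, one_pow]
    apply mul_left_cancel₀ (pow_ne_zero 3 he)
    have h5 : e ^ 3 * g ^ 3 = px g1 e1 ^ 3 := by
      rw [← hge]
      linear_combination (-(g * e) ^ 3) * hW6
    rw [mul_sub, h5, ← hcurve, he3]
    ring
  have r : Rel W g1 e1 g e := ⟨h1, h, hg0, he, hge, by rw [he3, neg_neg]⟩
  set b0 : K := (1 - WK) ^ 3 * tl WK (WK ^ 2 * (U * V)) (-(V ^ 3 / a)) with hb0def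
  have hrho : rho W g e ^ 3 = algebraMap K L b0 := by
    rw [rho_cube hW r, hb0def, map_mul, map_pow, map_sub, map_one, hWW']
    congr 1
    have k1 : g1 * e1 = algebraMap K L (U * V) := by
      rw [hg1, he1, map_mul]
      field_simp
    have k2 : -e1 ^ 3 = algebraMap K L (-(V ^ 3 / a)) := by
      rw [he1, div_pow, hs3, map_neg, map_div₀, map_pow]
    rw [mul_assoc, k1, k2]
    unfold tl
    simp only [map_sub, map_mul, map_add, map_one, map_pow, map_ofNat, hWW']
  have hb00 : b0 ≠ 0 := mul_ne_zero (pow_ne_zero 3 (subI hWK)) hb0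
  have hrho0 : rho W g e ≠ 0 := by
    intro h0
    rw [h0, zero_pow three_ne_zero] at hrho
    exact hb00 ((map_eq_zero (algebraMap K L)).1 hrho.symm)
  obtain ⟨S2, hS2⟩ := exists_S (F := F) (K := K) (L := L) hI (b := b0 * a) (s := rho W g e * s)
    (mul_ne_zero hrho0 hs0) (by rw [mul_pow, hrho, hs3, ← map_mul]) hsol
  refine ⟨pt hI L g e h - S2, fun τ c hc => ?_⟩
  -- the action on the coordinates
  have hτg1 : τ g1 = W ^ c * g1 := by
    rw [hg1, map_mul, hc, τ.commutes]
    ring
  have hWc : W ^ c ≠ 0 := pow_ne_zero _ hW0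
  have hWWc : W ^ (2 * c) * W ^ c = 1 := by
    rw [← pow_add, show 2 * c + c = 3 * c by ring, pow_mul, hW3, one_pow]
  have hτe1 : τ e1 = W ^ (2 * c) * e1 := by
    rw [he1, map_div₀, hc, τ.commutes]
    rw [div_eq_iff (mul_ne_zero hWc hs0)]
    have : W ^ (2 * c) * (algebraMap K L V / s) * (W ^ c * s) =
      (W ^ (2 * c) * W ^ c) * (algebraMap K L V / s * s) := by ring
    rw [this, hWWc, div_mul_cancel₀ _ hs0, one_mul]
  obtain ⟨g', e', h', r', hr', hp'⟩ := iter1 hI r c
  have hτpx : τ (px g1 e1) = px (τ g1) (τ e1) := by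
    unfold px
    simp only [map_neg, map_add, map_mul, map_pow]
  have hτpy : τ (py W g1 e1) = py W (τ g1) (τ e1) := by
    unfold py
    rw [map_mul, hτpx, map_sub, map_mul, map_mul, map_pow, hτW]
  have hxx : W ^ 2 * (τ g * τ e) = W ^ 2 * (g' * e') := by
    have e1' := congrArg τ hge
    rw [map_mul, map_mul, map_pow, hτW, hτpx, hτg1, hτe1, ← r'.hx] at e1'
    linear_combination e1'
  have hyy : (τ e) ^ 3 = e' ^ 3 := by
    have e1' := congrArg τ r.hy
    rw [map_neg, map_pow, hτpy, hτg1, hτe1, ← r'.hy] at e1'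
    exact neg_injective e1'
  obtain ⟨i, hi⟩ := cube_eq hW hyy
  have hτg : τ g = W ^ (2 * i) * g' := by
    have e2 := mul_left_cancel₀ (pow_ne_zero 2 hW0) hxx
    have hi3 : W ^ (2 * i) * W ^ i = 1 := by
      rw [← pow_add, show 2 * i + i = 3 * i by ring, pow_mul, hW3, one_pow]
    rw [hi] at e2
    apply mul_right_cancel₀ (mul_ne_zero (pow_ne_zero i hW0) r'.he)
    rw [e2]
    linear_combination (-(g' * e')) * hi3
  have hτe : τ e = W ^ (2 * (2 * i)) * e' := by
    rw [hi]
    congr 1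
    rw [show 2 * (2 * i) = 3 * i + i by ring, pow_add, pow_mul, hW3, one_pow, one_mul]
  have hτ3 : (τ e) ^ 3 - (τ g) ^ 3 = 1 := by
    rw [← map_pow, ← map_pow, ← map_sub, h, map_one]
  have a1 : act (ED (1 : F)) (τ.restrictScalars F) (pt hI L g e h) =
      pt hI L g e h + c • T' hI L + (2 * i) • T0 F L := by
    obtain ⟨h'', hp''⟩ := pt_nT0 hI h' (2 * i)
    rw [hp', hp'', act_pt hI (τ.restrictScalars F) h hτ3]
    exact pt_congr hτg hτe
  have a2 : τ (rho W g e * s) = W ^ (2 * i) * (rho W g e * s) := by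
    have hτrho : τ (rho W g e) = rho W (τ g) (τ e) := by
      unfold rho
      simp only [map_div₀, map_add, map_mul, map_neg, map_pow, hτW]
    rw [map_mul, hτrho, hτg, hτe, rho_T hW, hr', hc]
    linear_combination (W ^ (2 * i) * rho W g e * s) * hWWc
  rw [map_sub, a1, hS2 τ (2 * i) a2]
  abel

end Pool.Agent.H81.HS
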