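import Mathlib
import Pool.Agent.H81.Hes2
import Pool.Agent.H62.Mul

/-!
# Locally trivial cocycles with values in the group of the second flex
-/

set_option autoImplicit false
set_option linter.unusedSectionVars false

namespace Pool.Agent.H81.HS

open WeierstrassCurve NumberField IsDedekindDomain WithZero
open Pool.Agent.Q285.CE Pool.Agent.Q123.CE Pool.Agent.H81.SG
open Pool.Agent.Q7.CE Pool.Agent.H62 Pool.Agent.Y682 Pool.Agent.Q285.LK
open Pool.Agent.Q190.CE (cube_eq)
open Pool.Agent.Q121.EN (cube_inf)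
open Pool.Agent.Y696 (exp_rep)
open Pool.Agent.TH841.SH.D (Coch Pt act Gal IsCoc IsCob LocTriv cob)
open Pool.Agent.TH841.NF.D (Sha IsShaCoc shaCoc)

section loc

variable {K : Type} [Field K] [NumberField K] {ω : K}

/-- elements near one are cubes away from three -/
theorem cube_of_near {v : HeightOneSpectrum (𝓞 K)} (hv : (3 : 𝓞 K) ∉ v.asIdeal)
    {x : v.adicCompletion K} (hx : vv v (x - 1) < 1) : ∃ c : v.adicCompletion K, c ≠ 0 ∧ c ^ 3 = x := by
  have h3 : vv v (3 : v.adicCompletion K) = 1 := by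
    have e : (3 : v.adicCompletion K) = algebraMap K (v.adicCompletion K) (algebraMap (𝓞 K) K 3) := by
      rw [map_ofNat, map_ofNat]
    rw [e, vv_coe, HeightOneSpectrum.valuation_of_algebraMap]
    refine le_antisymm (v.intValuation_le_one _) ?_
    rw [← not_lt, HeightOneSpectrum.intValuation_lt_one_iff_mem]
    exact hv
  obtain ⟨t, ht⟩ := hensel_cubic v (g₀ := 1 - x) (g₁ := 3) (g₂ := 3) (g₃ := 1)
    (by rw [← Valuation.map_neg, neg_sub]; exact hx) h3 h3.le (by rw [map_one])
  have hc : (1 + t) ^ 3 = x := by linear_combination ht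
  refine ⟨1 + t, ?_, hc⟩
  intro h0
  rw [h0, zero_pow three_ne_zero] at hc
  rw [← hc, zero_sub, Valuation.map_neg, map_one] at hx
  exact lt_irrefl _ hx

/-- local points with a given unramified class -/
theorem loc_sol (hω : IsPrimitiveRoot ω 3) {v : HeightOneSpectrum (𝓞 K)} (hv : (3 : 𝓞 K) ∉ v.asIdeal)
    {b : v.adicCompletion K} (hb : b ≠ 0) (h : C3 (vv v b)) :
    ∃ u z t : v.adicCompletion K, (u ≠ 0 ∨ z ≠ 0 ∨ t ≠ 0) ∧ z ^ 3 = b ^ 2 * u ^ 3 + b * t ^ 3 := by
  have hvb : vv v b ≠ 0 := (Valuation.ne_zero_iff _).2 hb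
  obtain ⟨k, hk⟩ := exists_approx v b (vv v b) hvb
  set κ := algebraMap K (v.adicCompletion K) k with hκ
  have hκb : vv v κ = vv v b := by
    have e : κ = (κ - b) + b := by ring
    rw [e]
    exact Valuation.map_add_eq_of_lt_right _ hk
  have hκ0 : κ ≠ 0 := by
    intro h0
    rw [h0, map_zero] at hκb
    exact hvb hκb.symm
  have hk0 : k ≠ 0 := by
    rintro rfl
    exact hκ0 (map_zero _)
  obtain ⟨c, hc0, hc⟩ := cube_of_near (x := κ / b) hv (by
    have e : κ / b - 1 = (κ - b) / b := by field_simp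
    rw [e, map_div₀]
    rw [div_lt_iff₀ (zero_lt_iff.2 hvb), one_mul]
    exact hk)
  have hkc : C3 (v.valuation K k) := by
    rw [← vv_coe, ← hκ, hκb]
    exact h
  obtain ⟨-, u, z, t, hne, hsol⟩ := ae_away hω hv hk0 hkc
  rw [cpl_coe, cpl_coe, map_one, mul_one, ← hκ] at hsol
  have hκc : κ = b * c ^ 3 := by rw [hc]; field_simp
  rw [hκc] at hsol
  refine ⟨u * c ^ 2, z, t * c, ?_, ?_⟩
  · rcases hne with h1 | h1 | h1
    · exact Or.inl (mul_ne_zero h1 (pow_ne_zero 2 hc0))
    · exact Or.inr (Or.inl h1)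
    · exact Or.inr (Or.inr (mul_ne_zero h1 hc0))
  · linear_combination hsol

/-- the local statement, for a cube -/
theorem loc_cube {L : Type} [Field L] [Algebra K L] {Kv : Type} [Field Kv] [Algebra K Kv] [Algebra Kv L]
    [IsScalarTower K Kv L] (hI : ω ^ 2 + ω + 1 = 0) {a : Kv} (ha : a ≠ 0) {z : Kv} (hz : z ^ 3 = a) {s : L}
    (hs3 : s ^ 3 = algebraMap Kv L a) :
    ∃ P : Pt (ED (1 : K)) L, ∀ (τ : L →ₐ[Kv] L) (c : ℕ), τ s = (algebraMap K L ω) ^ c * s →
      act (ED (1 : K)) (τ.restrictScalars K) P = P + c • T' hI L := by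
  have hW := I_of hI L
  have hc0 : CharZero L := charZero_of_injective_algebraMap (algebraMap K L).injective
  have haL : algebraMap Kv L a ≠ 0 := (map_ne_zero _).2 ha
  have hs0 : s ≠ 0 := by
    rintro rfl
    rw [zero_pow three_ne_zero] at hs3
    exact haL hs3.symm
  obtain ⟨i, hi⟩ := cube_eq hW (x := s) (y := algebraMap Kv L z) (by rw [hs3, ← map_pow, hz])
  refine ⟨0, fun τ c hc => ?_⟩
  have h2 : τ s = s := by
    rw [hi, map_mul, map_pow, τ.commutes]
    congr 2
    rw [IsScalarTower.algebraMap_apply K Kv L, τ.commutes]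
  have h4 : (algebraMap K L ω) ^ c = 1 := by
    apply mul_right_cancel₀ hs0
    rw [one_mul, ← hc, h2]
  obtain ⟨k, rfl⟩ := ((prim_of hW).pow_eq_one_iff_dvd c).1 h4
  rw [map_zero, zero_add, mul_nsmul, T'_three, nsmul_zero]

/-- the local statement, away from three -/
theorem loc_away (hω : IsPrimitiveRoot ω 3) (hI : ω ^ 2 + ω + 1 = 0) {v : HeightOneSpectrum (𝓞 K)}
    (hv : (3 : 𝓞 K) ∉ v.asIdeal) {a : v.adicCompletion K} (ha : a ≠ 0) (h : C3 (vv v a))
    {s : AlgebraicClosure (v.adicCompletion K)} (hs3 : s ^ 3 = algebraMap _ _ a) :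
    ∃ P : Pt (ED (1 : K)) (AlgebraicClosure (v.adicCompletion K)),
      ∀ (τ : AlgebraicClosure (v.adicCompletion K) →ₐ[v.adicCompletion K] AlgebraicClosure (v.adicCompletion K))
        (c : ℕ), τ s = (algebraMap K _ ω) ^ c * s →
      act (ED (1 : K)) (τ.restrictScalars K) P = P + c • T' hI _ := by
  have hKv : CharZero (v.adicCompletion K) := charZero_of_injective_algebraMap (algebraMap K _).injective
  have hWv := I_of hI (v.adicCompletion K)
  set W := algebraMap K (v.adicCompletion K) ω with hWdef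
  have hW3 : W ^ 3 = 1 := by linear_combination (W - 1) * hWv
  have hW0 : W ≠ 0 := neI hWv
  obtain ⟨u, z, t, hne, hsol⟩ := loc_sol hω hv ha h
  by_cases ht : t = 0
  · have hu : u ≠ 0 := by
      intro hu
      rw [ht, hu] at hsol
      have : z = 0 := by
        have h1 : z ^ 3 = 0 := by rw [hsol]; ring
        exact pow_eq_zero_iff (three_ne_zero) |>.1 h1
      rcases hne with h1 | h1 | h1
      · exact h1 hu
      · exact h1 this
      · exact h1 ht
    have hz0 : z ≠ 0 := by
      intro h0
      rw [ht, h0] at hsol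
      have h1 : a ^ 2 * u ^ 3 = 0 := by linear_combination -hsol
      exact mul_ne_zero (pow_ne_zero 2 ha) (pow_ne_zero 3 hu) h1
    have hcube : (a * u / z) ^ 3 = a := by
      rw [div_pow, div_eq_iff (pow_ne_zero 3 hz0), hsol, ht]
      ring
    exact loc_cube hI ha hcube hs3
  · -- the condition on the second class
    have main : ∀ U V : v.adicCompletion K, V ^ 3 = a ^ 2 * U ^ 3 + a →
        tl W (W ^ 2 * (U * V)) (-(V ^ 3 / a)) ≠ 0 →
        ∃ P : Pt (ED (1 : K)) (AlgebraicClosure (v.adicCompletion K)),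
          ∀ (τ : AlgebraicClosure (v.adicCompletion K) →ₐ[v.adicCompletion K]
            AlgebraicClosure (v.adicCompletion K)) (c : ℕ), τ s = (algebraMap K _ ω) ^ c * s →
          act (ED (1 : K)) (τ.restrictScalars K) P = P + c • T' hI _ := by
      intro U V hUV hb0
      have hb : (1 - W) ^ 3 * tl W (W ^ 2 * (U * V)) (-(V ^ 3 / a)) * a ≠ 0 :=
        mul_ne_zero (mul_ne_zero (pow_ne_zero 3 (subI hWv)) hb0) ha
      refine exists_S' hI ha hUV hb0 (loc_sol hω hv hb ?_) hs3
      rw [map_mul, map_mul]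
      refine (C3.mul ?_ ?_).mul h
      · rw [map_pow]
        exact C3.cube ((Valuation.ne_zero_iff _).2 (subI hWv))
      · have h3 : vv v (3 : v.adicCompletion K) = 1 := by
          have e : (3 : v.adicCompletion K) = algebraMap K (v.adicCompletion K) (algebraMap (𝓞 K) K 3) := by
            rw [map_ofNat, map_ofNat]
          rw [e, vv_coe, HeightOneSpectrum.valuation_of_algebraMap]
          refine le_antisymm (v.intValuation_le_one _) ?_
          rw [← not_lt, HeightOneSpectrum.intValuation_lt_one_iff_mem]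
          exact hv
        have hl : vv v (1 + 2 * W) = 1 := by
          have h1 : (1 + 2 * W) ^ 2 = -3 := by linear_combination 4 * hWv
          have h2 : vv v (1 + 2 * W) ^ 2 = 1 := by rw [← map_pow, h1, Valuation.map_neg, h3]
          have h4 := pow_eq_one_iff (a := vv v (1 + 2 * W)) (n := 2)
          exact (h4.1 h2).resolve_right two_ne_zero
        have hl' : vv v (-(1 + 2 * W)) = 1 := by rw [Valuation.map_neg, hl]
        have h2 : vv v (2 : v.adicCompletion K) ≤ 1 := by
          have : (2 : v.adicCompletion K) = 1 + 1 := by norm_num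
          rw [this]
          refine (Valuation.map_add _ _ _).trans (max_le ?_ ?_) <;> rw [map_one]
        have hl2 : vv v (2 * (1 + 2 * W)) ≤ 1 := by
          rw [map_mul, hl, mul_one]; exact h2
        refine c3_gen hl2 hl' (curve hWv ?_) hb0
        have hW6 : (W ^ 2) ^ 3 = 1 := by rw [← pow_mul, mul_comm 2 3, pow_mul, hW3, one_pow]
        have hV : V ^ 3 / a = a * U ^ 3 + 1 := by
          rw [div_eq_iff ha, hUV]; ring
        have e1 : (W ^ 2 * (U * V)) ^ 3 = U ^ 3 * (a * (a * U ^ 3 + 1)) := by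
          have : (W ^ 2 * (U * V)) ^ 3 = (W ^ 2) ^ 3 * (U ^ 3 * V ^ 3) := by ring
          rw [this, hW6, hUV]; ring
        rw [e1, hV]
        ring
    have hUV : (z / t) ^ 3 = a ^ 2 * (u / t) ^ 3 + a := by
      rw [div_pow, div_pow, hsol]
      field_simp
    by_cases hb0 : tl W (W ^ 2 * ((u / t) * (z / t))) (-((z / t) ^ 3 / a)) = 0
    · refine main (W ^ 2 * (u / t)) (z / t) ?_ ?_
      · have hW6 : (W ^ 2) ^ 3 = 1 := by rw [← pow_mul, mul_comm 2 3, pow_mul, hW3, one_pow]
        rw [mul_pow, hW6, one_mul]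
        exact hUV
      · intro hb1
        -- the product of the coordinates vanishes
        set U := u / t with hUdef
        set V := z / t with hVdef
        have hp : U * V = 0 := by
          have e : (1 + 2 * W) * (1 - W ^ 2) * (W ^ 2 * (U * V)) = 0 := by
            unfold tl at hb0 hb1
            linear_combination hb1 - hb0
          have h1 : (1 + 2 * W) * (1 - W ^ 2) ≠ 0 := by
            refine mul_ne_zero (lamI hWv) ?_
            intro h0
            apply subI hWv
            linear_combination (-W) * h0 - hW3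
          have h2 := (mul_eq_zero.1 e).resolve_left h1
          exact (mul_eq_zero.1 h2).resolve_left (pow_ne_zero 2 hW0)
        rw [hp] at hb0
        unfold tl at hb0
        have hV : V ^ 3 / a = a * U ^ 3 + 1 := by
          rw [div_eq_iff ha, hUV]; ring
        rcases mul_eq_zero.1 hp with h1 | h1
        · rw [hV, h1] at hb0
          have : (1 + 2 * W) + (W ^ 2 + 1) = 0 := by linear_combination -hb0
          have h5 : W + 1 = 0 := by linear_combination this - hWv
          have h6 : W ^ 2 = 0 := by linear_combination hWv - h5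
          exact hW0 (pow_eq_zero_iff two_ne_zero |>.1 h6)
        · rw [h1] at hb0
          have h5 : W = 0 := by
            have e0 : (0 : v.adicCompletion K) ^ 3 / a = 0 := by rw [zero_pow three_ne_zero, zero_div]
            rw [e0] at hb0
            linear_combination -hb0 - hWv
          exact hW0 h5
    · exact main (u / t) (z / t) hUV hb0

end loc

section glob

variable {K : Type} [Field K] [NumberField K] {ω : K}

theorem act_T' (hI : ω ^ 2 + ω + 1 = 0) {L L' : Type} [Field L] [Algebra K L] [Field L'] [Algebra K L']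
    (φ : L →ₐ[K] L') : act (ED (1 : K)) φ (T' hI L) = T' hI L' := by
  show (Affine.Point.some (φ (-1)) (φ (algebraMap K L ω ^ 2)) _ :
    ((ED (1 : K)).baseChange L').toAffine.Point) = Affine.Point.some (-1) (algebraMap K L' ω ^ 2) _
  rw [Affine.Point.some.injEq]
  refine ⟨by rw [map_neg, map_one], ?_⟩
  rw [map_pow, AlgHom.commutes]

/-- the cocycle of a class, with values in the group of the second flex -/
noncomputable def fT' (hI : ω ^ 2 + ω + 1 = 0) (h : Gal K → ZMod 3) : Coch (ED (1 : K)) :=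
  fun σ => (h σ).val • T' hI (AlgebraicClosure K)

theorem sha_T' (hω : IsPrimitiveRoot ω 3) (hI : ω ^ 2 + ω + 1 = 0) {a : K} {h : Gal K → ZMod 3}
    {s : AlgebraicClosure K} (hc : CocOf ω (1 : K) a one_ne_zero h s)
    (hA3 : ∀ v : HeightOneSpectrum (𝓞 K), (3 : 𝓞 K) ∈ v.asIdeal →
      ∃ z : v.adicCompletion K, z ^ 3 = algebraMap K (v.adicCompletion K) a)
    (hA : ∀ v : HeightOneSpectrum (𝓞 K), (3 : 𝓞 K) ∉ v.asIdeal → C3 (v.valuation K a)) :
    IsShaCoc (ED (1 : K)) (fT' hI h) := by
  obtain ⟨hs0, hs3, hs⟩ := hc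
  have hI' := I_of hI (AlgebraicClosure K)
  have hprim := prim_of hI'
  have hI3 := hprim.pow_eq_one
  have hfixI : ∀ σ : Gal K, σ (algebraMap K (AlgebraicClosure K) ω) = algebraMap K (AlgebraicClosure K) ω :=
    fun σ => σ.commutes ω
  have ha : a ≠ 0 := by
    rintro rfl
    rw [map_zero] at hs3
    exact hs0 (pow_eq_zero_iff three_ne_zero |>.1 hs3)
  have hinj : ∀ c c' : ZMod 3, (algebraMap K (AlgebraicClosure K) ω) ^ c.val * s =
      (algebraMap K (AlgebraicClosure K) ω) ^ c'.val * s → c = c' := by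
    intro c c' e
    have e1 := mul_right_cancel₀ hs0 e
    exact ZMod.val_injective 3 (hprim.pow_inj (ZMod.val_lt c) (ZMod.val_lt c') e1)
  have hmul : ∀ σ τ, h (σ * τ) = h σ + h τ := by
    intro σ τ
    apply hinj
    rw [← hs, AlgEquiv.mul_apply, hs τ, map_mul, map_pow, hfixI, hs σ, ZMod.val_add]
    have : (algebraMap K (AlgebraicClosure K) ω) ^ (((h σ).val + (h τ).val) % 3) =
        (algebraMap K (AlgebraicClosure K) ω) ^ ((h σ).val + (h τ).val) := by
      conv_rhs => rw [← Nat.div_add_mod ((h σ).val + (h τ).val) 3, pow_add, pow_mul, hI3, one_pow, one_mul]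
    rw [this, pow_add]
    ring
  have hcont : IsLocallyConstant h := by
    rw [IsLocallyConstant.iff_exists_open]
    intro σ
    have hx : IsIntegral K s := Algebra.IsIntegral.isIntegral s
    have : FiniteDimensional K (IntermediateField.adjoin K {s}) :=
      IntermediateField.adjoin.finiteDimensional hx
    refine ⟨(fun τ => σ⁻¹ * τ) ⁻¹'
      ((IntermediateField.adjoin K {s}).fixingSubgroup : Set (Gal K)),
      (IntermediateField.fixingSubgroup_isOpen _).preimage (continuous_const_mul _), ?_, ?_⟩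
    · show σ⁻¹ * σ ∈ (IntermediateField.adjoin K {s}).fixingSubgroup
      rw [inv_mul_cancel]
      exact one_mem _
    · intro τ hτ
      have h1 : σ⁻¹ * τ ∈ (IntermediateField.adjoin K {s}).fixingSubgroup := hτ
      rw [IntermediateField.mem_fixingSubgroup_iff] at h1
      have h2 := h1 s (IntermediateField.mem_adjoin_simple_self K s)
      rw [AlgEquiv.mul_apply] at h2
      have h4 := congrArg σ h2
      rw [← AlgEquiv.mul_apply, mul_inv_cancel, AlgEquiv.one_apply] at h4
      apply hinj
      rw [← hs, ← hs, h4]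
  have hadd : ∀ c d : ZMod 3, (c + d).val • T' hI (AlgebraicClosure K) =
      c.val • T' hI (AlgebraicClosure K) + d.val • T' hI (AlgebraicClosure K) := by
    intro c d
    rw [ZMod.val_add, ← add_nsmul]
    conv_rhs => rw [← Nat.div_add_mod (c.val + d.val) 3, add_nsmul, mul_nsmul, T'_three, nsmul_zero, zero_add]
  -- the local statement
  have key : ∀ (Kv : Type) [Field Kv] [Algebra K Kv],
      (∀ s' : AlgebraicClosure Kv, s' ^ 3 = algebraMap Kv (AlgebraicClosure Kv) (algebraMap K Kv a) →
        ∃ P : Pt (ED (1 : K)) (AlgebraicClosure Kv), ∀ (τ : AlgebraicClosure Kv →ₐ[Kv] AlgebraicClosure Kv)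
          (c : ℕ), τ s' = (algebraMap K (AlgebraicClosure Kv) ω) ^ c * s' →
          act (ED (1 : K)) (τ.restrictScalars K) P = P + c • T' hI (AlgebraicClosure Kv)) →
      LocTriv (ED (1 : K)) Kv (fT' hI h) := by
    intro Kv _ _ hloc ι
    obtain ⟨P, hP⟩ := hloc (ι s) (by
      rw [← map_pow, hs3, ι.commutes, IsScalarTower.algebraMap_apply K Kv (AlgebraicClosure Kv)])
    refine ⟨P, fun τ σ hσ => ?_⟩
    have h1 := hP τ.toAlgHom (h σ).val (by
      show τ (ι s) = _
      rw [hσ s, hs σ, map_mul, map_pow, ι.commutes])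
    rw [h1, add_sub_cancel_left]
    show act (ED (1 : K)) ι ((h σ).val • T' hI (AlgebraicClosure K)) = _
    rw [map_nsmul, act_T']
  refine ⟨⟨?_, ?_⟩, ?_, ?_⟩
  · exact hcont.comp (fun c => (c.val • T' hI (AlgebraicClosure K) : Pt (ED (1 : K)) (AlgebraicClosure K)))
  · intro σ τ
    show (h (σ * τ)).val • T' hI (AlgebraicClosure K) = (h σ).val • T' hI (AlgebraicClosure K) +
      act (ED (1 : K)) σ.toAlgHom ((h τ).val • T' hI (AlgebraicClosure K))
    rw [hmul, hadd, map_nsmul, act_T']
  · intro v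
    apply key
    intro s' hs'
    have ha' : algebraMap K (v.adicCompletion K) a ≠ 0 := (map_ne_zero _).2 ha
    by_cases hv : (3 : 𝓞 K) ∈ v.asIdeal
    · obtain ⟨z, hz⟩ := hA3 v hv
      exact loc_cube hI ha' hz hs'
    · exact loc_away hω hI hv ha' (by rw [vv_coe]; exact hA v hv) hs'
  · intro v
    apply key
    intro s' hs'
    have ha' : algebraMap K v.Completion a ≠ 0 := (map_ne_zero _).2 ha
    obtain ⟨z, hz⟩ := cube_inf hI v (algebraMap K v.Completion a)
    exact loc_cube hI ha' hz hs'

end glob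

end Pool.Agent.H81.HS
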