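import Mathlib

/-!
# Torsion from the norm

A finitely generated abelian group with an endomorphism `s` which is the identity modulo `3` and
torsion, and whose norm `1 + s + ... + s^(3^n - 1)` is torsion, is torsion.
-/

set_option autoImplicit false

namespace Pool.Agent.H81.NT

open Polynomial

/-- the norm polynomial at `1 + 3 X` -/
theorem norm_poly (n : ℕ) : ∃ a b : ℤ[X],
    (1 + 3 * X : ℤ[X]) ^ (3 ^ n) = 1 + 3 ^ (n + 1) * a ∧
    ∑ i ∈ Finset.range (3 ^ n), (1 + 3 * X : ℤ[X]) ^ i = 3 ^ n * (1 + 3 * b) := by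
  induction n with
  | zero =>
    refine ⟨X, 0, by simp, by simp⟩
  | succ n ih =>
    obtain ⟨a, b, ha, hb⟩ := ih
    refine ⟨a + 3 ^ (n + 1) * a ^ 2 + 3 ^ (2 * n + 1) * a ^ 3,
      b + (3 ^ n * a + 3 ^ (2 * n) * a ^ 2) + 3 * b * (3 ^ n * a + 3 ^ (2 * n) * a ^ 2), ?_, ?_⟩
    · rw [pow_succ, pow_mul, ha]
      ring
    · have h3 : 3 ^ (n + 1) = 3 ^ n + 3 ^ n + 3 ^ n := by ring
      rw [h3, Finset.sum_range_add, Finset.sum_range_add]
      simp only [pow_add]
      rw [← Finset.mul_sum, ← Finset.mul_sum, hb, ha]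
      ring

theorem tors_of_norm {M : Type} [AddCommGroup M] (hfg : AddGroup.FG M) (s : M →+ M) (n : ℕ)
    (h1 : ∀ x, ∃ y t : M, (∃ m : ℕ, 0 < m ∧ m • t = 0) ∧ s x = x + (3 : ℕ) • y + t)
    (h2 : ∀ x, ∃ m : ℕ, 0 < m ∧ m • (∑ i ∈ Finset.range (3 ^ n), (s^[i]) x) = 0) :
    ∀ x : M, ∃ m : ℕ, 0 < m ∧ m • x = 0 := by
  classical
  have hM : Module.Finite ℤ M := Module.Finite.iff_addGroup_fg.2 hfg
  let T := Submodule.torsion ℤ M
  let N := M ⧸ T
  have hT : ∀ x : M, (∃ m : ℕ, 0 < m ∧ m • x = 0) ↔ x ∈ T := by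
    intro x
    constructor
    · rintro ⟨m, hm, hx⟩
      refine (Submodule.mem_torsion_iff x).2 ⟨⟨(m : ℤ), ?_⟩, ?_⟩
      · exact mem_nonZeroDivisors_of_ne_zero (by exact_mod_cast hm.ne')
      · show (m : ℤ) • x = 0
        rw [natCast_zsmul]; exact hx
    · intro h
      obtain ⟨⟨a, ha⟩, hx⟩ := (Submodule.mem_torsion_iff x).1 h
      have ha0 : a ≠ 0 := nonZeroDivisors.ne_zero ha
      have hx' : a • x = 0 := hx
      refine ⟨a.natAbs, Int.natAbs_pos.2 ha0, ?_⟩
      rcases Int.natAbs_eq a with h | h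
      · rw [h, natCast_zsmul] at hx'
        exact hx'
      · rw [h, neg_smul, natCast_zsmul, neg_eq_zero] at hx'
        exact hx'
  let sl : M →ₗ[ℤ] M := s.toIntLinearMap
  have hsT : T ≤ T.comap sl := by
    intro x hx
    obtain ⟨m, hm, h⟩ := (hT x).2 hx
    refine (hT _).1 ⟨m, hm, ?_⟩
    show m • s x = 0
    rw [← map_nsmul, h, map_zero]
  let σ : N →ₗ[ℤ] N := T.mapQ T sl hsT
  have hσ : ∀ x : M, σ (T.mkQ x) = T.mkQ (s x) := fun x => rfl
  have hTF : ∀ (a : ℤ) (x : N), a ≠ 0 → a • x = 0 → x = 0 := by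
    intro a x ha hx
    obtain ⟨y, rfl⟩ := T.mkQ_surjective x
    have h : a • y ∈ T := by
      rw [← T.ker_mkQ, LinearMap.mem_ker, map_smul]
      exact hx
    obtain ⟨m, hm, h⟩ := (hT _).2 h
    have h' : y ∈ T := by
      refine (Submodule.mem_torsion_iff y).2 ⟨⟨(m : ℤ) * a, ?_⟩, ?_⟩
      · exact mem_nonZeroDivisors_of_ne_zero (mul_ne_zero (by exact_mod_cast hm.ne') ha)
      · show ((m : ℤ) * a) • y = 0
        rw [mul_smul, natCast_zsmul]; exact h
    rwa [← T.ker_mkQ, LinearMap.mem_ker] at h'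
  -- the map `δ` with `σ = 1 + 3 δ`
  have hex : ∀ x : N, ∃ y : N, σ x = x + (3 : ℤ) • y := by
    intro x
    obtain ⟨z, rfl⟩ := T.mkQ_surjective x
    obtain ⟨y, t, ht, h⟩ := h1 z
    refine ⟨T.mkQ y, ?_⟩
    have ht' : T.mkQ t = 0 := by
      have := (hT t).1 ht
      rwa [← T.ker_mkQ, LinearMap.mem_ker] at this
    rw [hσ, h, map_add, map_add, ht', add_zero, ← natCast_zsmul, map_smul]
    rfl
  choose δ0 hδ0 using hex
  have hinj : ∀ x y : N, (3 : ℤ) • x = (3 : ℤ) • y → x = y := by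
    intro x y h
    have : (3 : ℤ) • (x - y) = 0 := by rw [smul_sub, h, sub_self]
    exact sub_eq_zero.1 (hTF 3 _ (by norm_num) this)
  let δ : N →ₗ[ℤ] N :=
    { toFun := δ0
      map_add' := by
        intro x y
        apply hinj
        have e1 := hδ0 (x + y)
        rw [map_add, hδ0 x, hδ0 y] at e1
        rw [smul_add]
        have : x + y + ((3 : ℤ) • δ0 x + (3 : ℤ) • δ0 y) = x + y + (3 : ℤ) • δ0 (x + y) := by
          rw [← e1]; abel
        exact (add_left_cancel this).symm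
      map_smul' := by
        intro a x
        apply hinj
        have e1 := hδ0 (a • x)
        rw [map_smul, hδ0 x, smul_add] at e1
        have := add_left_cancel e1
        rw [← this, smul_comm]
        rfl }
  have h3e : ∀ f : Module.End ℤ N, (3 * f : Module.End ℤ N) = (3 : ℤ) • f := by
    intro f
    rw [zsmul_eq_mul, Int.cast_ofNat]
  have hσδ : σ = aeval δ (1 + 3 * X : ℤ[X]) := by
    ext x
    have e : aeval δ (1 + 3 * X : ℤ[X]) = 1 + (3 : ℤ) • δ := by
      rw [map_add, map_one, map_mul, aeval_X, map_ofNat, h3e]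
    rw [e]
    have : (1 + (3 : ℤ) • δ : Module.End ℤ N) (T.mkQ x) = T.mkQ x + (3 : ℤ) • δ (T.mkQ x) := by
      rw [LinearMap.add_apply]
      rfl
    show σ (T.mkQ x) = (1 + (3 : ℤ) • δ : Module.End ℤ N) (T.mkQ x)
    rw [this]
    exact hδ0 _
  obtain ⟨a, b, -, hb⟩ := norm_poly n
  have hsum : (∑ i ∈ Finset.range (3 ^ n), σ ^ i : Module.End ℤ N) =
      3 ^ n * (1 + 3 * aeval δ b) := by
    have := congrArg (aeval δ) hb
    rw [map_sum] at this
    simp only [map_pow, ← hσδ, map_mul, map_add, map_one, map_ofNat] at this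
    exact this
  have hit : ∀ (i : ℕ) (x : M), (σ ^ i) (T.mkQ x) = T.mkQ ((s^[i]) x) := by
    intro i
    induction i with
    | zero => intro x; rfl
    | succ i ih =>
      intro x
      rw [pow_succ, Function.iterate_succ_apply]
      exact ih (s x)
  have hz : ∀ x : N, (∑ i ∈ Finset.range (3 ^ n), σ ^ i : Module.End ℤ N) x = 0 := by
    intro x
    obtain ⟨z, rfl⟩ := T.mkQ_surjective x
    rw [LinearMap.sum_apply]
    simp only [hit]
    rw [← map_sum]
    have := (hT _).1 (h2 z)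
    rwa [← T.ker_mkQ, LinearMap.mem_ker] at this
  have h3 : ∀ x : N, x = (3 : ℤ) • (-(aeval δ b) x) := by
    intro x
    have e := hz x
    rw [hsum] at e
    have e1 : (3 ^ n * (1 + 3 * aeval δ b) : Module.End ℤ N) x =
        ((3 : ℤ) ^ n) • (x + (3 : ℤ) • (aeval δ b) x) := by
      have e2 : (3 ^ n : Module.End ℤ N) = ((3 : ℤ) ^ n) • (1 : Module.End ℤ N) := by
        rw [← Algebra.algebraMap_eq_smul_one]
        simp
      rw [e2, smul_mul_assoc, one_mul, LinearMap.smul_apply, LinearMap.add_apply, h3e]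
      rfl
    rw [e1] at e
    have e3 := hTF _ _ (pow_ne_zero n (by norm_num)) e
    rw [smul_neg]
    exact eq_neg_of_add_eq_zero_left e3
  -- Nakayama
  have hNf : Module.Finite ℤ N := inferInstance
  have hle : (⊤ : Submodule ℤ N) ≤ (Ideal.span {(3 : ℤ)}) • (⊤ : Submodule ℤ N) := by
    intro x _
    rw [h3 x]
    exact Submodule.smul_mem_smul (Ideal.mem_span_singleton_self _) trivial
  obtain ⟨r, hr, hrN⟩ := Submodule.exists_sub_one_mem_and_smul_eq_zero_of_fg_of_le_smul _ _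
    (Module.Finite.fg_top (R := ℤ) (M := N)) hle
  have hr0 : r ≠ 0 := by
    rintro rfl
    rw [zero_sub, Ideal.neg_mem_iff, Ideal.mem_span_singleton] at hr
    norm_num at hr
  intro x
  refine (hT x).2 ?_
  have := hTF r (T.mkQ x) hr0 (hrN _ trivial)
  rwa [← LinearMap.mem_ker, T.ker_mkQ] at this

end Pool.Agent.H81.NT
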