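import Mathlib
import Pool.Agent.H81.Hes3

/-!
# Cubes at the primes above three, and the number of locally trivial cocycles
-/

set_option autoImplicit false
set_option linter.unusedSectionVars false

namespace Pool.Agent.H81.HS

open WeierstrassCurve NumberField IsDedekindDomain WithZero
open Pool.Agent.Q285.CE Pool.Agent.Q123.CE Pool.Agent.H81.SG
open Pool.Agent.Q7.CE Pool.Agent.H62 Pool.Agent.Y682 Pool.Agent.Q285.LK
open Pool.Agent.Q190.CE
open Pool.Agent.Q7.LK (IsPow)
open Pool.Agent.TH841.SH.D (Coch Pt act Gal IsCoc IsCob LocTriv cob)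
open Pool.Agent.TH841.NF.D (Sha IsShaCoc shaCoc)

section cube

variable {K : Type} [Field K] [NumberField K] (w : HeightOneSpectrum (𝓞 K))

/-- the elements that are one modulo `3 √-3` are cubes, if the residue field contains the field of
27 elements -/
theorem cube_three {ω : K} (hI : ω ^ 2 + ω + 1 = 0) (h3 : w.valuation K 3 < 1) {ρ : K}
    (hρ1 : w.valuation K ρ ≤ 1) (hρ : w.valuation K (ρ ^ 3 - ρ + 1) < 1) {α : K}
    (hα : ∃ t : ℤ, w.valuation K (α - t) < 1) :
    ∃ z : w.adicCompletion K, z ^ 3 = algebraMap K (w.adicCompletion K) (1 + 3 * (1 + 2 * ω) * α) := by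
  obtain ⟨t, ht⟩ := hα
  have hKw : CharZero (w.adicCompletion K) := charZero_of_injective_algebraMap (algebraMap K _).injective
  set v : w.adicCompletion K := algebraMap K _ ρ with hv
  set A : w.adicCompletion K := algebraMap K _ α with hA
  set l : w.adicCompletion K := algebraMap K _ (1 + 2 * ω) with hl
  have h3' : vv w (3 : w.adicCompletion K) < 1 := by
    have : (3 : w.adicCompletion K) = algebraMap K (w.adicCompletion K) 3 := by rw [map_ofNat]
    rw [this, vv_coe]
    exact h3
  have hl2 : l ^ 2 = -3 := by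
    have h1 : (1 + 2 * ω) ^ 2 = -3 := by linear_combination 4 * hI
    rw [hl, ← map_pow, h1, map_neg, map_ofNat]
  have hv1 : vv w v ≤ 1 := by rw [hv, vv_coe]; exact hρ1
  have hvr : vv w (v ^ 3 - v + 1) < 1 := by
    have : v ^ 3 - v + 1 = algebraMap K (w.adicCompletion K) (ρ ^ 3 - ρ + 1) := by
      rw [map_add, map_sub, map_pow, map_one]
    rw [this, vv_coe]
    exact hρ
  have hAt : vv w (A - t) < 1 := by
    have : A - t = algebraMap K (w.adicCompletion K) (α - t) := by rw [map_sub, map_intCast]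
    rw [this, vv_coe]
    exact ht
  have hlv : vv w l < 1 := by
    have h1 : vv w l ^ 2 < 1 := by rw [← map_pow, hl2, Valuation.map_neg]; exact h3'
    by_contra h2
    exact absurd h1 (not_lt.2 (one_le_pow₀ (not_lt.1 h2)))
  have mI : ∀ {x : w.adicCompletion K}, vv w x ≤ 1 → ∀ {y : w.adicCompletion K}, vv w y < 1 →
      vv w (x * y) < 1 := by
    intro x hx y hy
    rw [map_mul]
    exact lt_of_le_of_lt (mul_le_of_le_one_left' hx) hy
  have aI : ∀ {x y : w.adicCompletion K}, vv w x < 1 → vv w y < 1 → vv w (x + y) < 1 :=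
    fun hx hy => lt_of_le_of_lt (Valuation.map_add _ _ _) (max_lt hx hy)
  have aR : ∀ {x y : w.adicCompletion K}, vv w x ≤ 1 → vv w y ≤ 1 → vv w (x + y) ≤ 1 :=
    fun hx hy => (Valuation.map_add _ _ _).trans (max_le hx hy)
  have mR : ∀ {x y : w.adicCompletion K}, vv w x ≤ 1 → vv w y ≤ 1 → vv w (x * y) ≤ 1 := by
    intro x y hx hy
    rw [map_mul]
    exact mul_le_one' hx hy
  have pR : ∀ {x : w.adicCompletion K} (k : ℕ), vv w x ≤ 1 → vv w (x ^ k) ≤ 1 := by
    intro x k hx
    rw [map_pow]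
    exact pow_le_one' hx k
  have zR : ∀ m : ℤ, vv w (m : w.adicCompletion K) ≤ 1 := by
    intro m
    have h1 : (m : w.adicCompletion K) = algebraMap K (w.adicCompletion K) (m : K) := by
      rw [map_intCast]
    rw [h1, vv_coe]
    have e : (m : K) = algebraMap (𝓞 K) K (m : 𝓞 K) := (map_intCast _ _).symm
    rw [e]
    exact w.valuation_le_one _
  -- `t³ - t` is divisible by three
  obtain ⟨c, hc⟩ : ∃ c : ℤ, t ^ 3 - t = 3 * c := by
    have : (3 : ℤ) ∣ t ^ 3 - t := by
      have h1 : t % 3 = 0 ∨ t % 3 = 1 ∨ t % 3 = 2 := by omega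
      have h2 : t = 3 * (t / 3) + t % 3 := by omega
      rcases h1 with h | h | h <;> rw [h] at h2 <;> rw [h2]
      · exact ⟨9 * (t / 3) ^ 3 - (t / 3), by ring⟩
      · exact ⟨9 * (t / 3) ^ 3 + 9 * (t / 3) ^ 2 + 2 * (t / 3), by ring⟩
      · exact ⟨9 * (t / 3) ^ 3 + 18 * (t / 3) ^ 2 + 11 * (t / 3) + 2, by ring⟩
    exact this
  have hcK : (t : w.adicCompletion K) ^ 3 = t + 3 * c := by
    have : ((t ^ 3 - t : ℤ) : w.adicCompletion K) = ((3 * c : ℤ) : w.adicCompletion K) := by rw [hc]
    push_cast at this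
    linear_combination this
  set x0 : w.adicCompletion K := t * v with hx0
  have hx01 : vv w x0 ≤ 1 := mR (zR t) hv1
  obtain ⟨y, hy⟩ := hensel_cubic w (g₀ := x0 - x0 ^ 3 + l * x0 ^ 2 - A)
    (g₁ := 1 - 3 * x0 ^ 2 + 2 * l * x0) (g₂ := l - 3 * x0) (g₃ := -1)
    (by
      have e : x0 - x0 ^ 3 + l * x0 ^ 2 - A = ((-t : ℤ) : w.adicCompletion K) * (v ^ 3 - v + 1) +
          (((-1 : ℤ) : w.adicCompletion K) * (A - t) + ((((-c : ℤ) : w.adicCompletion K) * v ^ 3) * 3 +
            x0 ^ 2 * l)) := by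
        rw [hx0]
        push_cast
        linear_combination (-v ^ 3) * hcK
      rw [e]
      exact aI (mI (zR _) hvr) (aI (mI (zR _) hAt) (aI (mI (mR (zR _) (pR 3 hv1)) h3')
        (mI (pR 2 hx01) hlv))))
    (by
      have e : 1 - 3 * x0 ^ 2 + 2 * l * x0 = 1 + ((((-1 : ℤ) : w.adicCompletion K) * x0 ^ 2) * 3 +
          (((2 : ℤ) : w.adicCompletion K) * x0) * l) := by
        push_cast
        ring
      rw [e, Valuation.map_add_eq_of_lt_left, map_one]
      rw [map_one]
      exact aI (mI (mR (zR _) (pR 2 hx01)) h3') (mI (mR (zR _) hx01) hlv))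
    (by
      have e : l - 3 * x0 = l + ((-3 : ℤ) : w.adicCompletion K) * x0 := by
        push_cast
        ring
      rw [e]
      exact aR hlv.le (mR (zR _) hx01))
    (by rw [Valuation.map_neg, map_one])
  refine ⟨1 + l * (x0 + y), ?_⟩
  have e : algebraMap K (w.adicCompletion K) (1 + 3 * (1 + 2 * ω) * α) = 1 + 3 * l * A := by
    rw [map_add, map_one, map_mul, map_mul, map_ofNat]
  rw [e]
  linear_combination (3 * l) * hy + (l * (x0 + y) ^ 3) * hl2

end cube

section count

variable {K : Type} [Field K] [NumberField K] {ω : K}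

theorem th_T'_val (hI : ω ^ 2 + ω + 1 = 0) {L : Type} [Field L] [Algebra K L] :
    th hI L (T' hI L) = T0 K L := by
  have hI' : algebraMap K L ω ^ 2 + algebraMap K L ω + 1 = 0 := I_of hI L
  have : CharZero L := charZero_of_injective_algebraMap (algebraMap K L).injective
  have hone : algebraMap K L (1 : K) = 1 := map_one _
  have e0 : algebraMap K L ω ^ 2 = algebraMap K L (1 : K) * algebraMap K L ω ^ 2 +
      (1 + 2 * algebraMap K L ω) * (-1) * 0 := by rw [hone]; ring
  have hn : ((ED (1 : K)).baseChange L).toAffine.Nonsingular (-1)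
      (algebraMap K L (1 : K) * algebraMap K L ω ^ 2 + (1 + 2 * algebraMap K L ω) * (-1) * 0) := by
    rw [← e0]
    exact nons_T' hI L
  obtain ⟨X, hX, h4⟩ : ∃ (X : L) (hX : ((ED (1 : K)).baseChange L).toAffine.Nonsingular X (0 ^ 3)),
      th hI L (Affine.Point.some (-1) _ hn) = Affine.Point.some X (0 ^ 3) hX :=
    @one_sub_im L _ (Classical.decEq L) ((ED (1 : K)).baseChange L) (algebraMap K L (1 : K))
      (charZero_of_injective_algebraMap (algebraMap K L).injective) (algebraMap K L ω)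
      (isD_base (1 : K) L) ((map_ne_zero _).2 one_ne_zero) hI' (-1) 0 hn (by norm_num)
  have h5 : T' hI L = (Affine.Point.some (-1) _ hn : Pt (ED (1 : K)) L) := some_cg rfl e0
  have he := ((isD_base (1 : K) L).eqn _ _).1 hX.1
  have hX0 : X = 0 := by
    have h6 : X ^ 3 = 0 := by rw [← he]; ring
    exact pow_eq_zero_iff three_ne_zero |>.1 h6
  rw [h5, h4]
  exact some_cg hX0 (by norm_num)

end count

end Pool.Agent.H81.HS
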