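import Mathlib
import Pool.Agent.H81.Hes2

/-!
# The Kummer elements of a point whose Galois orbit is a coset of the points of order three
-/

set_option autoImplicit false
set_option linter.unusedSectionVars false

namespace Pool.Agent.H81.HS

open WeierstrassCurve Pool.Agent.Q285.CE Pool.Agent.Q123.CE Pool.Agent.H81.SG
open Pool.Agent.Q7.CE Pool.Agent.H62
open Pool.Agent.Q190.CE (cube_eq)
open Pool.Agent.TH841.SH.D (Pt act)

section alg

variable {L : Type*} [Field L]

theorem p_inj {W g e g' e' : L} (hW : W ^ 2 + W + 1 = 0) (h3 : (1 + 2 * W) ≠ 0) (h : e ^ 3 - g ^ 3 = 1)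
    (h' : e' ^ 3 - g' ^ 3 = 1) (hx : px g e = px g' e') (hy : py W g e = py W g' e') : g = g' ∧ e = e' := by
  have hx0 := px_ne h
  have e1 := px_id h
  have e2 := px_id h'
  rw [← hx] at e2
  have e3 : e - g = e' - g' := mul_right_cancel₀ hx0 (e1.trans e2.symm)
  have e4 : W ^ 2 * g - W * e = W ^ 2 * g' - W * e' := by
    apply mul_right_cancel₀ hx0
    unfold py at hy
    rw [← hx] at hy
    exact hy
  have e5 : (1 + 2 * W) * (g - g') = 0 := by
    linear_combination (-1 : L) * e4 + (-W) * e3 + (g - g') * hW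
  have e6 : g = g' := sub_eq_zero.1 ((mul_eq_zero.1 e5).resolve_left h3)
  refine ⟨e6, ?_⟩
  rw [e6] at e3
  linear_combination e3

/-- every pair of coordinates with `x ≠ 0` has the form `(g, e)` -/
theorem p_surj {W x y : L} (hW : W ^ 2 + W + 1 = 0) (h3 : (1 + 2 * W) ≠ 0) (h : y ^ 2 + 1 * y = x ^ 3)
    (hx : x ≠ 0) : ∃ g e : L, e ^ 3 - g ^ 3 = 1 ∧ px g e = x ∧ py W g e = y := by
  have hl : (W ^ 2 - W) ≠ 0 := by
    intro h0
    apply h3
    linear_combination -h0 + hW
  have hl2 : (W ^ 2 - W) ^ 2 = -3 := by linear_combination (W ^ 2 - 3 * W + 3) * hW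
  have h30 : (3 : L) ≠ 0 := by
    intro h0
    apply hl
    have : (W ^ 2 - W) ^ 2 = 0 := by rw [hl2, h0, neg_zero]
    exact pow_eq_zero_iff two_ne_zero |>.1 this
  refine ⟨(y - W) / ((W ^ 2 - W) * x), (y - W ^ 2) / ((W ^ 2 - W) * x), ?_⟩
  obtain ⟨g, hg⟩ : ∃ g, g = (y - W) / ((W ^ 2 - W) * x) := ⟨_, rfl⟩
  obtain ⟨e, he⟩ : ∃ e, e = (y - W ^ 2) / ((W ^ 2 - W) * x) := ⟨_, rfl⟩
  rw [← hg, ← he]
  have hlx := mul_ne_zero hl hx
  have hg' : g * ((W ^ 2 - W) * x) = y - W := by rw [hg, div_mul_cancel₀ _ hlx]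
  have he' : e * ((W ^ 2 - W) * x) = y - W ^ 2 := by rw [he, div_mul_cancel₀ _ hlx]
  have k1 : (e - g) * x = -1 := by
    apply mul_left_cancel₀ hl
    linear_combination he' - hg'
  have k2 : px g e = x := by
    apply mul_left_cancel₀ h30
    apply mul_right_cancel₀ (pow_ne_zero 2 hx)
    unfold px
    have a1 : (e * ((W ^ 2 - W) * x)) ^ 2 + (e * ((W ^ 2 - W) * x)) * (g * ((W ^ 2 - W) * x)) +
        (g * ((W ^ 2 - W) * x)) ^ 2 = (W ^ 2 - W) ^ 2 * ((e ^ 2 + e * g + g ^ 2) * x ^ 2) := by ring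
    rw [he', hg', hl2] at a1
    linear_combination (-1 : L) * a1 + 3 * h + (W ^ 2 - 3 * y) * hW
  have k3 : e ^ 3 - g ^ 3 = 1 := by
    have : e ^ 3 - g ^ 3 = -(e - g) * px g e := by unfold px; ring
    rw [this, k2]
    linear_combination -k1
  refine ⟨k3, k2, ?_⟩
  unfold py
  rw [k2]
  apply mul_left_cancel₀ hl
  linear_combination W ^ 2 * hg' - W * he'

theorem Rel.neg {W g1 e1 g e : L} (hW : W ^ 2 + W + 1 = 0) (r : Rel W g1 e1 g e) :
    Rel W (-e1) (-g1) (-e) (-g) := by
  obtain ⟨h1, h, hg, he, hx, hy⟩ := r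
  have hid := px_id h1
  refine ⟨by linear_combination h1, by linear_combination h, neg_ne_zero.2 he, neg_ne_zero.2 hg, ?_, ?_⟩
  · unfold px at hx ⊢
    linear_combination hx
  · have e2 : px (-e1) (-g1) = px g1 e1 := by unfold px; ring
    have e3 : -(-g) ^ 3 = -py W g1 e1 - 1 := by linear_combination -h - hy
    rw [e3]
    unfold py
    rw [e2]
    linear_combination (-1 : L) * hid + (-(g1 * px g1 e1) + e1 * px g1 e1) * hW

end alg

variable {F : Type} [Field F] [CharZero F] {w : F}

theorem pt_neg (hI : w ^ 2 + w + 1 = 0) {L : Type} [Field L] [Algebra F L] {g e : L}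
    (h : e ^ 3 - g ^ 3 = 1) (h' : (-g) ^ 3 - (-e) ^ 3 = 1) : -pt hI L g e h = pt hI L (-e) (-g) h' := by
  have hW := I_of hI L
  have hc : CharZero L := charZero_of_injective_algebraMap (algebraMap F L).injective
  have e2 : px (-e) (-g) = px g e := by unfold px; ring
  have hid := px_id h
  have e1 : -py (algebraMap F L w) g e - 1 = py (algebraMap F L w) (-e) (-g) := by
    unfold py
    rw [e2]
    linear_combination (-1 : L) * hid + (e * px g e - g * px g e) * hW
  have hn : ((ED (1 : F)).baseChange L).toAffine.Nonsingular (px g e) (-py (algebraMap F L w) g e - 1) := by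
    rw [← e2, e1]
    exact nons_of (p_curve hW h')
  have := (isD1 (F := F) L).neg_eq (nons_of (p_curve (I_of hI L) h)) hn
  refine this.trans ?_
  exact some_cg (W := (ED (1 : F)).baseChange L) e2.symm e1

/-- the general case -/
theorem c3_case {K : Type} [Field K] [Algebra F K] (hI : w ^ 2 + w + 1 = 0)
    {g e g1 e1 : AlgebraicClosure K} (r : Rel (algebraMap F (AlgebraicClosure K) w) g1 e1 g e)
    (ht : tl (algebraMap F (AlgebraicClosure K) w)
      (algebraMap F (AlgebraicClosure K) w ^ 2 * g1 * e1) (-e1 ^ 3) ≠ 0)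
    {s1 s2 : AlgebraicClosure K} (h10 : s1 ≠ 0) (h20 : s2 ≠ 0) {a1 a2 : K}
    (h13 : s1 ^ 3 = algebraMap K _ a1) (h23 : s2 ^ 3 = algebraMap K _ a2)
    (hP : ∀ τ : AlgebraicClosure K ≃ₐ[K] AlgebraicClosure K, ∃ c m : ℕ,
      act (ED (1 : F)) (τ.toAlgHom.restrictScalars F) (pt hI _ g e r.h) =
        pt hI _ g e r.h + c • T' hI _ + m • T0 F _ ∧
      τ s1 = (algebraMap F (AlgebraicClosure K) w) ^ c * s1 ∧
      τ s2 = (algebraMap F (AlgebraicClosure K) w) ^ m * s2) :
    ∃ R : Pt (ED (1 : F)) K, IsC (a2 * a1 ^ 2 / scP w R) := by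
  have hW := I_of hI (AlgebraicClosure K)
  have hWK := I_of hI K
  have hc0 : CharZero (AlgebraicClosure K) := charZero_of_injective_algebraMap (algebraMap F _).injective
  have hcK : CharZero K := charZero_of_injective_algebraMap (algebraMap F K).injective
  set W := algebraMap F (AlgebraicClosure K) w with hWdef
  set WK := algebraMap F K w with hWKdef
  have hWW' : algebraMap K (AlgebraicClosure K) WK = W := by
    rw [hWdef, hWKdef, IsScalarTower.algebraMap_apply F K (AlgebraicClosure K)]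
  have hτW : ∀ τ : AlgebraicClosure K ≃ₐ[K] AlgebraicClosure K, τ W = W := by
    intro τ
    rw [← hWW', τ.commutes]
  have hW3 : W ^ 3 = 1 := by linear_combination (W - 1) * hW
  have hW0 : W ≠ 0 := neI hW
  have hl := lamI hW
  -- the action on the coordinates
  have key : ∀ τ : AlgebraicClosure K ≃ₐ[K] AlgebraicClosure K, ∃ c m : ℕ,
      τ g1 = W ^ c * g1 ∧ τ e1 = W ^ (2 * c) * e1 ∧ τ (rho W g e) = W ^ (m + 2 * c) * rho W g e ∧
      τ s1 = W ^ c * s1 ∧ τ s2 = W ^ m * s2 := by
    intro τ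
    obtain ⟨c, m, hp, hs1, hs2⟩ := hP τ
    refine ⟨c, m, ?_⟩
    obtain ⟨g', e', h', r', hr', hp'⟩ := iter1 hI r c
    obtain ⟨h'', hp''⟩ := pt_nT0 hI h' m
    have hτ3 : ((τ.toAlgHom.restrictScalars F) e) ^ 3 - ((τ.toAlgHom.restrictScalars F) g) ^ 3 = 1 := by
      rw [← map_pow, ← map_pow, ← map_sub, r.h, map_one]
    rw [hp', hp'', act_pt hI (τ.toAlgHom.restrictScalars F) r.h hτ3] at hp
    obtain ⟨q1, q2⟩ := some_in (W := (ED (1 : F)).baseChange (AlgebraicClosure K)) hp
    obtain ⟨t1, t2⟩ := p_inj hW hl hτ3 h'' q1 q2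
    have t1' : τ g = W ^ m * g' := t1
    have t2' : τ e = W ^ (2 * m) * e' := t2
    have hτpx : τ (px g1 e1) = px (τ g1) (τ e1) := by
      unfold px
      simp only [map_neg, map_add, map_mul, map_pow]
    have hτpy : τ (py W g1 e1) = py W (τ g1) (τ e1) := by
      unfold py
      simp only [map_sub, map_mul, map_pow, hτW, hτpx]
    have hτ13 : (τ e1) ^ 3 - (τ g1) ^ 3 = 1 := by
      rw [← map_pow, ← map_pow, ← map_sub, r.h1, map_one]
    have hm3 : W ^ m * W ^ (2 * m) = 1 := by
      rw [← pow_add, show m + 2 * m = 3 * m by ring, pow_mul, hW3, one_pow]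
    have hxx : px (τ g1) (τ e1) = px (W ^ c * g1) (W ^ (2 * c) * e1) := by
      rw [← hτpx, ← r.hx, ← r'.hx, map_mul, map_mul, map_pow, hτW, t1', t2']
      linear_combination (W ^ 2 * g' * e') * hm3
    have hyy : py W (τ g1) (τ e1) = py W (W ^ c * g1) (W ^ (2 * c) * e1) := by
      rw [← hτpy, ← r.hy, ← r'.hy, map_neg, map_pow, t2']
      have : (W ^ (2 * m)) ^ 3 = 1 := by rw [← pow_mul, mul_comm _ 3, pow_mul, hW3, one_pow]
      linear_combination (-e' ^ 3) * this
    obtain ⟨u1, u2⟩ := p_inj hW hl hτ13 r'.h1 hxx hyy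
    refine ⟨u1, u2, ?_, hs1, hs2⟩
    have hτrho : τ (rho W g e) = rho W (τ g) (τ e) := by
      unfold rho
      simp only [map_div₀, map_add, map_mul, map_neg, map_pow, hτW]
    rw [hτrho, t1', t2', rho_T hW, hr', pow_add]
    ring
  -- the coordinates of the third point
  have hxR : W ^ 2 * g1 * e1 ∈ Set.range (algebraMap K (AlgebraicClosure K)) := by
    rw [InfiniteGalois.mem_range_algebraMap_iff_fixed]
    intro τ
    obtain ⟨c, m, h1, h2, -⟩ := key τ
    have hc3 : W ^ c * W ^ (2 * c) = 1 := by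
      rw [← pow_add, show c + 2 * c = 3 * c by ring, pow_mul, hW3, one_pow]
    rw [map_mul, map_mul, map_pow, hτW, h1, h2]
    linear_combination (W ^ 2 * g1 * e1) * hc3
  have hyR : -e1 ^ 3 ∈ Set.range (algebraMap K (AlgebraicClosure K)) := by
    rw [InfiniteGalois.mem_range_algebraMap_iff_fixed]
    intro τ
    obtain ⟨c, m, h1, h2, -⟩ := key τ
    have : (W ^ (2 * c)) ^ 3 = 1 := by rw [← pow_mul, mul_comm _ 3, pow_mul, hW3, one_pow]
    rw [map_neg, map_pow, h2]
    linear_combination (-e1 ^ 3) * this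
  obtain ⟨x, hx⟩ := hxR
  obtain ⟨y, hy⟩ := hyR
  have hcur : y ^ 2 + 1 * y = x ^ 3 := by
    apply (algebraMap K (AlgebraicClosure K)).injective
    rw [map_add, map_pow, map_mul, map_one, map_pow, hx, hy]
    have hW6 : (W ^ 2) ^ 3 = 1 := by rw [← pow_mul, mul_comm 2 3, pow_mul, hW3, one_pow]
    linear_combination (-(g1 * e1) ^ 3) * hW6 + e1 ^ 3 * r.h1
  have htl : algebraMap K (AlgebraicClosure K) (tl WK x y) = tl W (W ^ 2 * g1 * e1) (-e1 ^ 3) := by
    rw [← hx, ← hy]
    unfold tl
    simp only [map_sub, map_mul, map_add, map_one, map_pow, map_ofNat, hWW']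
  have ht' : tl WK x y ≠ 0 := by
    intro h0
    rw [h0, map_zero] at htl
    exact ht htl.symm
  refine ⟨Affine.Point.some x y (nons_of hcur), ?_⟩
  have hsc : scP w (Affine.Point.some x y (nons_of hcur) : Pt (ED (1 : F)) K) = tl WK x y := cy_of ht'
  rw [hsc]
  have hrho := rho_cube hW r
  rw [← htl] at hrho
  have h1W := subI hW
  have h1WK := subI hWK
  have hrho0 : rho W g e ≠ 0 := by
    intro h0
    rw [h0, zero_pow three_ne_zero] at hrho
    exact mul_ne_zero (pow_ne_zero 3 h1W) ((map_ne_zero _).2 ht') hrho.symm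
  have hz : s2 * s1 ^ 2 * (1 - W) / rho W g e ∈ Set.range (algebraMap K (AlgebraicClosure K)) := by
    rw [InfiniteGalois.mem_range_algebraMap_iff_fixed]
    intro τ
    obtain ⟨c, m, -, -, h3, h1, h2⟩ := key τ
    rw [map_div₀, map_mul, map_mul, map_pow, map_sub, map_one, hτW, h3, h1, h2]
    have hne : W ^ (m + 2 * c) ≠ 0 := pow_ne_zero _ hW0
    rw [div_eq_div_iff (mul_ne_zero hne hrho0) hrho0, pow_add]
    ring
  obtain ⟨z, hz⟩ := hz
  refine ⟨z, ?_, ?_⟩
  · rintro rfl
    rw [map_zero] at hz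
    exact div_ne_zero (mul_ne_zero (mul_ne_zero h20 (pow_ne_zero 2 h10)) h1W) hrho0 hz.symm
  · apply (algebraMap K (AlgebraicClosure K)).injective
    rw [map_pow, hz, map_div₀, map_mul, map_pow, ← h13, ← h23, div_pow, hrho]
    have := (map_ne_zero (algebraMap K (AlgebraicClosure K))).2 ht'
    field_simp

theorem T0_of {L : Type} [Field L] [Algebra F L] (hI : w ^ 2 + w + 1 = 0) {m : ℕ} (h : m • T0 F L = 0) :
    3 ∣ m := by
  have hc0 : CharZero L := charZero_of_injective_algebraMap (algebraMap F L).injective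
  have hT : T0 F L ≠ 0 := Affine.Point.some_ne_zero _
  have h3 : (3 : ℕ) • T0 F L = 0 := T0_three hI (by
    have hW := I_of hI L
    linear_combination (algebraMap F L w - 1) * hW)
  have h4 : (m % 3) • T0 F L = 0 := by
    have h5 : m • T0 F L = (m % 3) • T0 F L := by
      conv_lhs => rw [← Nat.mod_add_div m 3, add_nsmul, mul_nsmul, h3, nsmul_zero, add_zero]
    rw [← h5, h]
  have h5 : m % 3 = 0 ∨ m % 3 = 1 ∨ m % 3 = 2 := by omega
  rcases h5 with h5 | h5 | h5
  · exact Nat.dvd_of_mod_eq_zero h5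
  · rw [h5, one_nsmul] at h4
    exact absurd h4 hT
  · exfalso
    rw [h5] at h4
    apply hT
    have h6 : T0 F L = (3 : ℕ) • T0 F L - (2 : ℕ) • T0 F L := by
      rw [succ_nsmul' (T0 F L) 2]
      abel
    rw [h6, h3, h4, sub_zero]

theorem th_T'_T0 (hI : w ^ 2 + w + 1 = 0) {L : Type} [Field L] [Algebra F L] :
    th hI L (T' hI L) = T0 F L := by
  have hI' : algebraMap F L w ^ 2 + algebraMap F L w + 1 = 0 := I_of hI L
  have : CharZero L := charZero_of_injective_algebraMap (algebraMap F L).injective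
  have hone : algebraMap F L (1 : F) = 1 := map_one _
  have e0 : algebraMap F L w ^ 2 = algebraMap F L (1 : F) * algebraMap F L w ^ 2 +
      (1 + 2 * algebraMap F L w) * (-1) * 0 := by rw [hone]; ring
  have hn : ((ED (1 : F)).baseChange L).toAffine.Nonsingular (-1)
      (algebraMap F L (1 : F) * algebraMap F L w ^ 2 + (1 + 2 * algebraMap F L w) * (-1) * 0) := by
    rw [← e0]
    exact nons_T' hI L
  obtain ⟨X, hX, h4⟩ : ∃ (X : L) (hX : ((ED (1 : F)).baseChange L).toAffine.Nonsingular X (0 ^ 3)),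
      th hI L (Affine.Point.some (-1) _ hn) = Affine.Point.some X (0 ^ 3) hX :=
    @one_sub_im L _ (Classical.decEq L) ((ED (1 : F)).baseChange L) (algebraMap F L (1 : F))
      (charZero_of_injective_algebraMap (algebraMap F L).injective) (algebraMap F L w)
      (isD_base (1 : F) L) ((map_ne_zero _).2 one_ne_zero) hI' (-1) 0 hn (by norm_num)
  have h5 : T' hI L = (Affine.Point.some (-1) _ hn : Pt (ED (1 : F)) L) := some_cg rfl e0
  have he := ((isD_base (1 : F) L).eqn _ _).1 hX.1
  have hX0 : X = 0 := by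
    have h6 : X ^ 3 = 0 := by rw [← he]; ring
    exact pow_eq_zero_iff three_ne_zero |>.1 h6
  rw [h5, h4]
  exact some_cg (W := (ED (1 : F)).baseChange L) hX0 (by norm_num)

theorem T'_T0_of (hI : w ^ 2 + w + 1 = 0) {L : Type} [Field L] [Algebra F L] {c m : ℕ}
    (h : c • T' hI L + m • T0 F L = 0) : 3 ∣ c ∧ 3 ∣ m := by
  have h1 := congrArg (th hI L) h
  rw [map_add, map_nsmul, map_nsmul, map_zero, th_T'_T0] at h1
  have h2 : th hI L (T0 F L) = 0 := th_T hI L _
  rw [h2, nsmul_zero, add_zero] at h1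
  have h3 := T0_of hI h1
  refine ⟨h3, ?_⟩
  obtain ⟨k, rfl⟩ := h3
  rw [mul_nsmul, T'_three, nsmul_zero, zero_add] at h
  exact T0_of hI h

/-- **the Kummer elements of a point whose Galois orbit lies in a coset of `E[3]`** -/
theorem c3_of_pt {K : Type} [Field K] [Algebra F K] (hI : w ^ 2 + w + 1 = 0)
    {P : Pt (ED (1 : F)) (AlgebraicClosure K)}
    {s1 s2 : AlgebraicClosure K} (h10 : s1 ≠ 0) (h20 : s2 ≠ 0) {a1 a2 : K}
    (h13 : s1 ^ 3 = algebraMap K _ a1) (h23 : s2 ^ 3 = algebraMap K _ a2)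
    (hP : ∀ τ : AlgebraicClosure K ≃ₐ[K] AlgebraicClosure K, ∃ c m : ℕ,
      act (ED (1 : F)) (τ.toAlgHom.restrictScalars F) P = P + c • T' hI _ + m • T0 F _ ∧
      τ s1 = (algebraMap F (AlgebraicClosure K) w) ^ c * s1 ∧
      τ s2 = (algebraMap F (AlgebraicClosure K) w) ^ m * s2) :
    ∃ R : Pt (ED (1 : F)) K, IsC (a2 * a1 ^ 2 / scP w R) := by
  have hW := I_of hI (AlgebraicClosure K)
  have hc0 : CharZero (AlgebraicClosure K) := charZero_of_injective_algebraMap (algebraMap F _).injective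
  have hcK : CharZero K := charZero_of_injective_algebraMap (algebraMap F K).injective
  have hl := lamI hW
  have hW3 : (algebraMap F (AlgebraicClosure K) w) ^ 3 = 1 := by
    linear_combination (algebraMap F (AlgebraicClosure K) w - 1) * hW
  have hτW : ∀ τ : AlgebraicClosure K ≃ₐ[K] AlgebraicClosure K,
      τ (algebraMap F (AlgebraicClosure K) w) = algebraMap F (AlgebraicClosure K) w := by
    intro τ
    rw [IsScalarTower.algebraMap_apply F K (AlgebraicClosure K), τ.commutes]
  -- fixed points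
  have fixed : (∀ τ : AlgebraicClosure K ≃ₐ[K] AlgebraicClosure K,
      act (ED (1 : F)) (τ.toAlgHom.restrictScalars F) P = P) → ∃ R : Pt (ED (1 : F)) K,
      IsC (a2 * a1 ^ 2 / scP w R) := by
    intro hfix
    have hs : ∀ τ : AlgebraicClosure K ≃ₐ[K] AlgebraicClosure K, τ s1 = s1 ∧ τ s2 = s2 := by
      intro τ
      obtain ⟨c, m, hp, h1, h2⟩ := hP τ
      rw [hfix τ, add_assoc, left_eq_add] at hp
      obtain ⟨⟨k, rfl⟩, ⟨l, rfl⟩⟩ := T'_T0_of hI hp
      rw [h1, h2, pow_mul, pow_mul, hW3, one_pow, one_pow, one_mul, one_mul]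
      exact ⟨rfl, rfl⟩
    have r1 : s1 ∈ Set.range (algebraMap K (AlgebraicClosure K)) := by
      rw [InfiniteGalois.mem_range_algebraMap_iff_fixed]
      exact fun τ => (hs τ).1
    have r2 : s2 ∈ Set.range (algebraMap K (AlgebraicClosure K)) := by
      rw [InfiniteGalois.mem_range_algebraMap_iff_fixed]
      exact fun τ => (hs τ).2
    obtain ⟨z1, rfl⟩ := r1
    obtain ⟨z2, rfl⟩ := r2
    refine ⟨0, z2 * z1 ^ 2, ?_, ?_⟩
    · have u1 : z1 ≠ 0 := by rintro rfl; exact h10 (map_zero _)
      have u2 : z2 ≠ 0 := by rintro rfl; exact h20 (map_zero _)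
      exact mul_ne_zero u2 (pow_ne_zero 2 u1)
    · rw [scP_zero, div_one]
      apply (algebraMap K (AlgebraicClosure K)).injective
      rw [map_mul, map_pow, ← h13, ← h23, map_pow, map_mul, map_pow]
      ring
  rcases P with _ | ⟨x, y, hn⟩
  · exact fixed (fun τ => map_zero _)
  · have he : y ^ 2 + 1 * y = x ^ 3 := ((isD1 (F := F) (AlgebraicClosure K)).eqn _ _).1 hn.1
    by_cases hx : x = 0
    · subst hx
      apply fixed
      intro τ
      have h0 : y * (y + 1) = 0 := by linear_combination he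
      refine some_cg (W := (ED (1 : F)).baseChange (AlgebraicClosure K)) (map_zero _) ?_
      rcases mul_eq_zero.1 h0 with h1 | h1
      · rw [h1, map_zero]
      · rw [eq_neg_of_add_eq_zero_left h1, map_neg, map_one]
    · obtain ⟨g, e, h, rfl, rfl⟩ := p_surj hW hl he hx
      have hPpt : (Affine.Point.some _ _ hn : Pt (ED (1 : F)) (AlgebraicClosure K)) = pt hI _ g e h := rfl
      by_cases hg : g = 0
      · subst hg
        apply fixed
        intro τ
        obtain ⟨i, hi⟩ := cube_eq hW (x := e) (y := 1) (by linear_combination h)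
        have hτe : τ e = e := by rw [hi, map_mul, map_pow, hτW, map_one]
        have hτ3 : ((τ.toAlgHom.restrictScalars F) e) ^ 3 - ((τ.toAlgHom.restrictScalars F) 0) ^ 3 = 1 := by
          rw [← map_pow, ← map_pow, ← map_sub, h, map_one]
        rw [hPpt, act_pt hI (τ.toAlgHom.restrictScalars F) h hτ3]
        exact pt_congr (map_zero _) hτe
      by_cases he0 : e = 0
      · subst he0
        apply fixed
        intro τ
        obtain ⟨i, hi⟩ := cube_eq hW (x := g) (y := -1) (by linear_combination -h)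
        have hτg : τ g = g := by rw [hi, map_mul, map_pow, hτW, map_neg, map_one]
        have hτ3 : ((τ.toAlgHom.restrictScalars F) 0) ^ 3 - ((τ.toAlgHom.restrictScalars F) g) ^ 3 = 1 := by
          rw [← map_pow, ← map_pow, ← map_sub, h, map_one]
        rw [hPpt, act_pt hI (τ.toAlgHom.restrictScalars F) h hτ3]
        exact pt_congr hτg (map_zero _)
      -- the general case
      have hW6 : ((algebraMap F (AlgebraicClosure K) w) ^ 2) ^ 3 = 1 := by
        rw [← pow_mul, mul_comm 2 3, pow_mul, hW3, one_pow]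
      obtain ⟨g1, e1, h1, hx1, hy1⟩ := p_surj hW hl
        (x := algebraMap F (AlgebraicClosure K) w ^ 2 * g * e) (y := -e ^ 3) (by
          linear_combination (-(g * e) ^ 3) * hW6 + e ^ 3 * h)
        (mul_ne_zero (mul_ne_zero (pow_ne_zero 2 (neI hW)) hg) he0)
      have r : Rel (algebraMap F (AlgebraicClosure K) w) g1 e1 g e := ⟨h1, h, hg, he0, hx1.symm, hy1.symm⟩
      by_cases ht : tl (algebraMap F (AlgebraicClosure K) w)
        (algebraMap F (AlgebraicClosure K) w ^ 2 * g1 * e1) (-e1 ^ 3) = 0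
      · -- the opposite point
        have r' := r.neg hW
        have hcur : (-e1 ^ 3) ^ 2 + (-e1 ^ 3) = (algebraMap F (AlgebraicClosure K) w ^ 2 * g1 * e1) ^ 3 := by
          linear_combination (-(g1 * e1) ^ 3) * hW6 + e1 ^ 3 * h1
        have hc := curve hW hcur
        rw [ht] at hc
        have hx1' : algebraMap F (AlgebraicClosure K) w ^ 2 * g1 * e1 + 1 = 0 := by
          have h3 : (algebraMap F (AlgebraicClosure K) w ^ 2 * g1 * e1 + 1) ^ 3 = 0 := by rw [← hc]; ring
          exact pow_eq_zero_iff three_ne_zero |>.1 h3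
        have ht' : tl (algebraMap F (AlgebraicClosure K) w)
            (algebraMap F (AlgebraicClosure K) w ^ 2 * -e1 * -g1) (-(-g1) ^ 3) ≠ 0 := by
          have e1' : algebraMap F (AlgebraicClosure K) w ^ 2 * -e1 * -g1 =
            algebraMap F (AlgebraicClosure K) w ^ 2 * g1 * e1 := by ring
          have e2' : -(-g1) ^ 3 = -(-e1 ^ 3) - 1 := by linear_combination -h1
          rw [e1', e2', tl_neg hW, ht, hx1']
          have : -0 - 2 * (1 + 2 * algebraMap F (AlgebraicClosure K) w) * 0 -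
            -(1 + 2 * algebraMap F (AlgebraicClosure K) w) = 1 + 2 * algebraMap F (AlgebraicClosure K) w := by
            ring
          rw [this]
          exact hl
        have h3T0 : (3 : ℕ) • T0 F (AlgebraicClosure K) = 0 := T0_three hI hW3
        obtain ⟨R, hR⟩ := c3_case hI r' ht' (pow_ne_zero 2 h10) (pow_ne_zero 2 h20)
          (a1 := a1 ^ 2) (a2 := a2 ^ 2) (by rw [map_pow, ← h13]; ring) (by rw [map_pow, ← h23]; ring)
          (fun τ => by
            obtain ⟨c, m, hp, hs1, hs2⟩ := hP τ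
            refine ⟨2 * c, 2 * m, ?_, ?_, ?_⟩
            · rw [← pt_neg hI h r'.h, map_neg]
              rw [hPpt] at hp
              rw [hp]
              have q1 : (2 * c) • T' hI (AlgebraicClosure K) = -(c • T' hI (AlgebraicClosure K)) := by
                rw [eq_neg_iff_add_eq_zero, ← add_nsmul, show 2 * c + c = 3 * c by ring, mul_nsmul,
                  T'_three, nsmul_zero]
              have q2 : (2 * m) • T0 F (AlgebraicClosure K) = -(m • T0 F (AlgebraicClosure K)) := by
                rw [eq_neg_iff_add_eq_zero, ← add_nsmul, show 2 * m + m = 3 * m by ring, mul_nsmul,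
                  h3T0, nsmul_zero]
              rw [q1, q2]
              abel
            · rw [map_pow, hs1]; ring
            · rw [map_pow, hs2]; ring)
        refine ⟨R + R, ?_⟩
        have hadd := scP_add hI K R R
        have a10 : a1 ≠ 0 := by
          rintro rfl
          rw [map_zero] at h13
          exact h10 (pow_eq_zero_iff three_ne_zero |>.1 h13)
        have a20 : a2 ≠ 0 := by
          rintro rfl
          rw [map_zero] at h23
          exact h20 (pow_eq_zero_iff three_ne_zero |>.1 h23)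
        have m1 := (hR.mul hR).mul hadd
        have m2 := m1.mul (IsC.of (inv_ne_zero (mul_ne_zero a20 (pow_ne_zero 2 a10))))
        have n1 := scP_ne hI R
        have n2 := scP_ne hI (R + R)
        have e3 : a2 ^ 2 * (a1 ^ 2) ^ 2 / scP w R * (a2 ^ 2 * (a1 ^ 2) ^ 2 / scP w R) *
            (scP w R * scP w R / scP w (R + R)) * (a2 * a1 ^ 2)⁻¹ ^ 3 = a2 * a1 ^ 2 / scP w (R + R) := by
          field_simp
        rwa [e3] at m2
      · exact c3_case hI r ht h10 h20 h13 h23 hP

end Pool.Agent.H81.HS
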