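import Mathlib
import Pool.Agent.H81.Hes4
import Pool.Agent.H81.Hes5

/-!
# The number of elements of order three of the Tate-Shafarevich group
-/

set_option autoImplicit false
set_option linter.unusedSectionVars false

namespace Pool.Agent.H81.HS

open WeierstrassCurve NumberField IsDedekindDomain WithZero
open Pool.Agent.Q285.CE Pool.Agent.Q123.CE Pool.Agent.H81.SG
open Pool.Agent.Q7.CE Pool.Agent.H62 Pool.Agent.Y682 Pool.Agent.Q285.LK
open Pool.Agent.Q190.CE
open Pool.Agent.Q7.LK (IsPow)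
open Pool.Agent.TH841.SH.D (Coch Pt act Gal IsCoc IsCob LocTriv cob)
open Pool.Agent.TH841.NF.D (Sha IsShaCoc shaCoc)

variable {K : Type} [Field K] [NumberField K] {ω : K}

theorem tt_T0 (hD : (1 : K) ≠ 0) {L : Type} [Field L] [Algebra K L] (h3 : (3 : L) ≠ 0) (c : ZMod 3) :
    tt (1 : K) h3 hD c = (c.val • T0 K L : Pt (ED (1 : K)) L) := rfl

/-- the classes of the points, if the rank is zero -/
theorem cl_all (hI : ω ^ 2 + ω + 1 = 0) (hn : ¬ IsPow 3 ω)
    (hr : ∀ x : Pt (ED (1 : K)) K, ∃ m : ℕ, 0 < m ∧ m • x = 0) (P : Pt (ED (1 : K)) K) :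
    ∃ j : ℕ, IsC (clP (1 : K) P * ω ^ j) := by
  have hω3 : ω ^ 3 = 1 := cubI hI
  have hω0 : ω ≠ 0 := neI hI
  have hr0 : Module.finrank ℤ (Pt (ED (1 : K)) K) = 0 := by
    have : Module.Finite ℤ (Pt (ED (1 : K)) K) := Module.Finite.iff_addGroup_fg.2 fg_pts
    rw [Module.finrank_eq_zero_iff]
    intro x
    obtain ⟨m, hm, h⟩ := hr x
    exact ⟨(m : ℤ), by exact_mod_cast hm.ne', by rw [natCast_zsmul]; exact h⟩
  obtain ⟨h0, h1⟩ := idx_bound (K := K) hI
  rw [hr0, pow_zero, one_mul] at h1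
  have hidx : (th hI K).range.index ≤ 3 := by nlinarith
  let Q := Pt (ED (1 : K)) K ⧸ (th hI K).range
  have hcard : Nat.card Q ≤ 3 := hidx
  have hfin : Finite Q := Nat.finite_of_card_ne_zero h0
  let x : Q := QuotientAddGroup.mk (T' hI K)
  have hx3 : (3 : ℕ) • x = 0 := by
    show ((3 : ℕ) • (QuotientAddGroup.mk (T' hI K) : Q)) = 0
    rw [← QuotientAddGroup.mk_nsmul, T'_three, QuotientAddGroup.mk_zero]
  have hx0 : x ≠ 0 := by
    intro h
    have h2 := (QuotientAddGroup.eq_zero_iff (T' hI K)).1 h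
    obtain ⟨R, hR⟩ := h2
    exact no_lift hI hn (P := T' hI K) (Q := R) (Or.inr (clP_T' hI K)) hR.symm
  have hord : addOrderOf x = 3 := by
    have hp : Fact (Nat.Prime 3) := ⟨Nat.prime_three⟩
    exact addOrderOf_eq_prime hx3 hx0
  have hz : Nat.card (AddSubgroup.zmultiples x) = 3 := by rw [Nat.card_zmultiples, hord]
  have htop : AddSubgroup.zmultiples x = ⊤ := by
    apply AddSubgroup.eq_top_of_le_card
    rw [hz]
    exact hcard
  have hP : (QuotientAddGroup.mk P : Q) ∈ AddSubgroup.zmultiples x := by rw [htop]; trivial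
  obtain ⟨k, hk⟩ := AddSubgroup.mem_zmultiples_iff.1 hP
  -- a natural number
  obtain ⟨j, hj⟩ : ∃ j : ℕ, (QuotientAddGroup.mk P : Q) = j • x := by
    refine ⟨(k % 3).toNat, ?_⟩
    rw [← hk, ← natCast_zsmul, Int.toNat_of_nonneg (Int.emod_nonneg _ (by norm_num))]
    conv_lhs => rw [← Int.emod_add_mul_ediv k 3, add_zsmul]
    have : (3 * (k / 3)) • x = 0 := by
      rw [mul_comm, mul_zsmul]
      have h3 : (3 : ℤ) • x = 0 := by
        rw [← hx3, ← natCast_zsmul]
        rfl
      rw [h3, zsmul_zero]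
    rw [this, add_zero]
  have hj' : P - j • T' hI K ∈ (th hI K).range := by
    rw [← QuotientAddGroup.eq_zero_iff]
    show (QuotientAddGroup.mk (P - j • T' hI K) : Q) = 0
    rw [QuotientAddGroup.mk_sub, hj, QuotientAddGroup.mk_nsmul, sub_self]
  obtain ⟨R, hR⟩ := hj'
  have c1 : IsC (clP (1 : K) (P - j • T' hI K)) := by
    rw [← hR]
    exact clP_theta one_ne_zero hI K R
  have c2 : ∀ j : ℕ, IsC (clP (1 : K) (j • T' hI K) * ω ^ j) := by
    intro j
    induction j with
    | zero =>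
      rw [zero_nsmul, pow_zero, mul_one]
      exact IsC.one
    | succ j ih =>
      have h5 := clP_add (D := (1 : K)) one_ne_zero K (j • T' hI K) (T' hI K)
      rw [succ_nsmul]
      have h6 : IsC (clP (1 : K) (T' hI K) * ω) := by
        rw [clP_T']
        have : algebraMap K K ω ^ 2 * ω = 1 := by
          show ω ^ 2 * ω = 1
          linear_combination hω3
        rw [this]
        exact IsC.one
      have h7 := (ih.mul h6).div h5
      have n1 := clP_ne (D := (1 : K)) one_ne_zero (j • T' hI K)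
      have n2 := clP_ne (D := (1 : K)) one_ne_zero (T' hI K)
      have n3 := clP_ne (D := (1 : K)) one_ne_zero (j • T' hI K + T' hI K)
      have e : clP (1 : K) (j • T' hI K) * ω ^ j * (clP (1 : K) (T' hI K) * ω) /
          (clP (1 : K) (j • T' hI K) * clP (1 : K) (T' hI K) / clP (1 : K) (j • T' hI K + T' hI K)) =
          clP (1 : K) (j • T' hI K + T' hI K) * ω ^ (j + 1) := by
        rw [pow_succ]
        field_simp
      rwa [e] at h7
  refine ⟨j, ?_⟩
  have h5 := clP_add (D := (1 : K)) one_ne_zero K (P - j • T' hI K) (j • T' hI K)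
  rw [sub_add_cancel] at h5
  have h7 := (c1.mul (c2 j)).div h5
  have n1 := clP_ne (D := (1 : K)) one_ne_zero (j • T' hI K)
  have n2 := clP_ne (D := (1 : K)) one_ne_zero (P - j • T' hI K)
  have n3 := clP_ne (D := (1 : K)) one_ne_zero P
  have e : clP (1 : K) (P - j • T' hI K) * (clP (1 : K) (j • T' hI K) * ω ^ j) /
      (clP (1 : K) (P - j • T' hI K) * clP (1 : K) (j • T' hI K) / clP (1 : K) P) =
      clP (1 : K) P * ω ^ j := by
    field_simp
  rwa [e] at h7

/-- **classes that are locally trivial give two independent families in the Tate-Shafarevich group** -/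
theorem count2 (hω : IsPrimitiveRoot ω 3) (hI : ω ^ 2 + ω + 1 = 0) {ι : Type} [Finite ι] {a : ι → K}
    (ha : ∀ i, a i ≠ 0) (hA : ∀ i (v : HeightOneSpectrum (𝓞 K)), AE v 1 (a i))
    (hA3 : ∀ i (v : HeightOneSpectrum (𝓞 K)), (3 : 𝓞 K) ∈ v.asIdeal →
      ∃ z : v.adicCompletion K, z ^ 3 = algebraMap K (v.adicCompletion K) (a i))
    (hcl : ∀ P : Pt (ED (1 : K)) K, ∃ j : ℕ, IsC (clP (1 : K) P * ω ^ j))
    (hinj : ∀ i j (l : ℕ), IsC (a i / a j * ω ^ l) → i = j) :
    ((Nat.card ι * Nat.card ι : ℕ) : ℕ∞) ≤ Set.encard {x : Sha (ED (1 : K)) | (3 : ℕ) • x = 0} := by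
  classical
  have hD : (1 : K) ≠ 0 := one_ne_zero
  have h3 : (3 : AlgebraicClosure K) ≠ 0 := three_ne_zero
  have hexc := fun i => exists_coc hω hD (ha i) (hA i)
  choose h s hC hSc using hexc
  have hSc' : ∀ i, IsShaCoc (ED (1 : K)) (fT' hI (h i)) := fun i =>
    sha_T' hω hI (hC i) (hA3 i) (fun v _ => ae_c3 v (hA i v))
  let q : shaCoc (ED (1 : K)) →+ Sha (ED (1 : K)) :=
    QuotientAddGroup.mk' ((cob (ED (1 : K))).addSubgroupOf (shaCoc (ED (1 : K))))
  have hq : ∀ f : shaCoc (ED (1 : K)), q f = 0 ↔ f.1 ∈ cob (ED (1 : K)) := fun f =>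
    QuotientAddGroup.eq_zero_iff (N := (cob (ED (1 : K))).addSubgroupOf (shaCoc (ED (1 : K)))) f
  let f1 : ι → shaCoc (ED (1 : K)) := fun i => ⟨fc hD (h i), hSc i⟩
  let f2 : ι → shaCoc (ED (1 : K)) := fun i => ⟨fT' hI (h i), hSc' i⟩
  let X : ι × ι → Sha (ED (1 : K)) := fun p => q (f1 p.1 + f2 p.2)
  have hX3 : ∀ p, (3 : ℕ) • X p = 0 := by
    intro p
    show (3 : ℕ) • q _ = 0
    rw [← map_nsmul]
    have h1 : (3 : ℕ) • (f1 p.1 + f2 p.2) = 0 := by
      apply Subtype.ext
      funext σ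
      show (3 : ℕ) • (tt (1 : K) h3 hD (h p.1 σ) + (h p.2 σ).val • T' hI (AlgebraicClosure K)) = 0
      rw [smul_add, tt, smul_comm, three_T, smul_zero, zero_add, smul_comm, T'_three, smul_zero]
    rw [h1, map_zero]
  -- the classes of the coboundaries
  have hcob : ∀ i j, fc hD (h i) - fc hD (h j) ∈ cob (ED (1 : K)) → i = j := by
    intro i j hij
    rw [← fc_sub] at hij
    obtain ⟨P, hP⟩ := cls_of_cob hω ((hC i).sub hω (hC j)) hij
    obtain ⟨l, hl⟩ := hcl P
    have h6 := (cls_iff one_ne_zero P _).1 hP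
    apply hinj i j l
    have h7 := h6.mul hl
    have n3 := clP_ne (D := (1 : K)) one_ne_zero P
    have e : a i / a j / clP (1 : K) P * (clP (1 : K) P * ω ^ l) = a i / a j * ω ^ l := by
      field_simp
    rwa [e] at h7
  have hX : Function.Injective X := by
    rintro ⟨i, j⟩ ⟨i', j'⟩ hij
    have h1 : q ((f1 i + f2 j) - (f1 i' + f2 j')) = 0 := by
      rw [map_sub]
      exact sub_eq_zero.2 hij
    rw [hq] at h1
    obtain ⟨R, hR⟩ := h1
    have hR' : ∀ σ : Gal K, (tt (1 : K) h3 hD (h i σ) + (h j σ).val • T' hI (AlgebraicClosure K)) -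
        (tt (1 : K) h3 hD (h i' σ) + (h j' σ).val • T' hI (AlgebraicClosure K)) =
        act (ED (1 : K)) σ.toAlgHom R - R := hR
    have hth : ∀ c : ZMod 3, th hI (AlgebraicClosure K) (tt (1 : K) h3 hD c) = 0 := by
      intro c
      rw [tt_T0, map_nsmul]
      have h2 : th hI (AlgebraicClosure K) (T0 K (AlgebraicClosure K)) = 0 := th_T hI _ _
      rw [h2, nsmul_zero]
    have hj : j = j' := by
      apply hcob
      refine ⟨th hI (AlgebraicClosure K) R, fun σ => ?_⟩
      have h4 := congrArg (th hI (AlgebraicClosure K)) (hR' σ)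
      rw [map_sub, map_add, map_add, hth, hth, zero_add, zero_add, map_nsmul, map_nsmul, th_T'_T0,
        map_sub] at h4
      have h5 : act (ED (1 : K)) σ.toAlgHom (th hI (AlgebraicClosure K) R) =
          th hI (AlgebraicClosure K) (act (ED (1 : K)) σ.toAlgHom R) :=
        (endG_th hI).nat (AlgebraicClosure K) (AlgebraicClosure K) σ.toAlgHom R
      rw [h5, ← h4]
      rfl
    subst hj
    have hi : i = i' := by
      apply hcob
      refine ⟨R, fun σ => ?_⟩
      rw [← hR' σ]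
      show tt (1 : K) h3 hD (h i σ) - tt (1 : K) h3 hD (h i' σ) = _
      abel
    rw [hi]
  have hsub : Set.range X ⊆ {x : Sha (ED (1 : K)) | (3 : ℕ) • x = 0} := by
    rintro _ ⟨p, rfl⟩
    exact hX3 p
  have h9 : (Set.range X).encard = ((Nat.card ι * Nat.card ι : ℕ) : ℕ∞) := by
    rw [← Set.image_univ, hX.encard_image, Set.encard_univ, ENat.card_eq_coe_natCard, Nat.card_prod]
  rw [← h9]
  exact Set.encard_le_encard hsub

end Pool.Agent.H81.HS
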