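import Mathlib
import Pool.Agent.H81.Cnt

/-!
# The lower bound for the Tate-Shafarevich group of an extension ramified at several primes
-/

set_option autoImplicit false
set_option linter.unusedSectionVars false

namespace Pool.Agent.H81.HS

open WeierstrassCurve NumberField IsDedekindDomain WithZero
open Pool.Agent.Q285.CE Pool.Agent.Q123.CE Pool.Agent.H81.SG
open Pool.Agent.Q7.CE Pool.Agent.H62 Pool.Agent.Y682 Pool.Agent.Q285.LK
open Pool.Agent.Q7.LK (IsPow)
open Pool.Agent.TH841.SH.D (Pt)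
open Pool.Agent.TH841.NF.D (Sha)
open Pool.Agent.N883.T (Un3 exists_three val_theta3)
open Pool.Agent.Y696 (exp_rep exists_above)
open Pool.Agent.Y688 (dn val_rel)

variable {F K : Type} [Field F] [NumberField F] [IsCyclotomicExtension {3} ℚ F] [Field K]
  [NumberField K] [Algebra F K] [IsGalois F K] {ζ : F} {n : ℕ} {S : Finset (𝓞 F)}

/-- the elements that are one modulo `3 √-3` are cubes above three -/
theorem cube_Ms (T : Ms F K ζ n S) {w : HeightOneSpectrum (𝓞 K)} (hw : (3 : 𝓞 K) ∈ w.asIdeal)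
    {f x : 𝓞 F} (hf : f - 1 = 3 * (2 * T.zeta.toInteger + 1) * x) :
    ∃ z : w.adicCompletion K, z ^ 3 = algebraMap K (w.adicCompletion K) (algebraMap F K (f : F)) := by
  obtain ⟨ρ, hρ⟩ := exists_rho T.card T.npos hw (fun v hv => T.uniq v w hv hw) (T.un3 w hw)
  have h1 : w.valuation K (((ρ : K)) ^ 3 - (ρ : K) + 1) < 1 := by
    have := (mem_iff_val w _).1 hρ
    have e : ((ρ ^ 3 - ρ + 1 : 𝓞 K) : K) = (ρ : K) ^ 3 - (ρ : K) + 1 := by
      show algebraMap (𝓞 K) K (ρ ^ 3 - ρ + 1) = _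
      rw [map_add, map_sub, map_pow, map_one]
    rwa [e] at this
  have hfx : algebraMap F K (f : F) = 1 + 3 * (1 + 2 * algebraMap F K ζ) * algebraMap F K (x : F) := by
    have e1 : (f : F) = 1 + 3 * (1 + 2 * ζ) * (x : F) := by
      have h2 : f = 1 + 3 * (1 + 2 * T.zeta.toInteger) * x := by linear_combination hf
      have := congrArg (algebraMap (𝓞 F) F) h2
      rw [map_add, map_mul, map_mul, map_add, map_mul, map_one, map_ofNat, map_ofNat] at this
      exact this
    rw [e1, map_add, map_mul, map_mul, map_add, map_mul, map_one, map_ofNat, map_ofNat]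
  rw [hfx]
  exact cube_three w T.quad (Ms.v3 w hw) (w.valuation_le_one ρ) h1 (exists_int T.zeta (Ms.v3 w hw) x)

theorem cube_fS (T : Ms F K ζ n S) (hp : ∀ p ∈ S, 3 * (2 * T.zeta.toInteger + 1) ∣ p - 1)
    {S' : Finset (𝓞 F)} (hS : S' ⊆ S) (d : S' → Fin 3) {w : HeightOneSpectrum (𝓞 K)}
    (hw : (3 : 𝓞 K) ∈ w.asIdeal) : ∃ z : w.adicCompletion K,
      z ^ 3 = algebraMap K (w.adicCompletion K) (algebraMap F K ((fS S' d : 𝓞 F) : F)) := by
  rw [fS_coe, map_prod]
  have hex : ∀ p : S', ∃ z : w.adicCompletion K,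
      z ^ 3 = algebraMap K (w.adicCompletion K) ((algebraMap F K ((p : 𝓞 F) : F)) ^ (d p : ℕ)) := by
    intro p
    obtain ⟨x, hx⟩ := hp p (hS p.2)
    obtain ⟨z, hz⟩ := cube_Ms T hw hx
    refine ⟨z ^ (d p : ℕ), ?_⟩
    rw [map_pow, ← hz, ← pow_mul, ← pow_mul, mul_comm]
  choose z hz using hex
  refine ⟨∏ p : S', z p, ?_⟩
  rw [← Finset.prod_pow]
  exact Finset.prod_congr rfl fun p _ => hz p

/-- **the lower bound for the Tate-Shafarevich group, if the rank is zero** -/
theorem Ms.lower (T : Ms F K ζ n S) (hp : ∀ p ∈ S, 3 * (2 * T.zeta.toInteger + 1) ∣ p - 1)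
    (hfin : ∀ x : Pt (ED (1 : K)) K, ∃ m : ℕ, 0 < m ∧ m • x = 0) {k : ℕ} (hk : S.card = k + 1) :
    (9 : ℕ∞) ^ k ≤ Set.encard {x : Sha (ED (1 : K)) | (3 : ℕ) • x = 0} := by
  classical
  have hne : S.Nonempty := Finset.card_pos.1 (by omega)
  obtain ⟨p, hpS⟩ := hne
  have hsub : S.erase p ⊆ S := Finset.erase_subset _ _
  have hI := T.quad
  have hω3 : (algebraMap F K ζ) ^ 3 = 1 := cubI hI
  have hne0 : ∀ d : ↥(S.erase p) → Fin 3, algebraMap F K ((fS (S.erase p) d : 𝓞 F) : F) ≠ 0 := by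
    intro d
    rw [Ne, map_eq_zero]
    exact fun h => T.fS_ne hsub d (by exact_mod_cast h)
  -- the root of unity is not a cube
  have hn : ¬ IsPow 3 (algebraMap F K ζ) := by
    rintro ⟨c, hc⟩
    have hc0 : c ≠ 0 := by
      rintro rfl
      rw [zero_pow three_ne_zero] at hc
      exact T.zetaK.ne_zero (by norm_num) hc
    have h1 := (Ms.indep T hpS (i := 1) (i' := 0) (d := fun _ => 0) (d' := fun _ => 0) (by
      refine ⟨c, hc0, ?_⟩
      have := hne0 (fun _ => 0)
      rw [← hc]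
      simp only [Fin.val_one, Fin.val_zero, pow_one, pow_zero, one_mul]
      field_simp)).1
    exact absurd h1 (by decide)
  have hcl := cl_all hI hn hfin
  have h1 := count2 T.zetaK hI (ι := ↥(S.erase p) → Fin 3)
    (a := fun d => algebraMap F K ((fS (S.erase p) d : 𝓞 F) : F)) hne0 (fun d v => T.ae hsub d v)
    (fun d v hv => cube_fS T hp hsub d hv) hcl (by
      intro d d' l h
      refine (Ms.indep T hpS (i := ⟨l % 3, Nat.mod_lt _ (by norm_num)⟩) (i' := 0) (d := d) (d' := d') ?_).2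
      have e : (algebraMap F K ζ ^ ((⟨l % 3, Nat.mod_lt _ (by norm_num)⟩ : Fin 3) : ℕ) *
          algebraMap F K ((fS (S.erase p) d : 𝓞 F) : F)) /
          (algebraMap F K ζ ^ ((0 : Fin 3) : ℕ) * algebraMap F K ((fS (S.erase p) d' : 𝓞 F) : F)) =
          algebraMap F K ((fS (S.erase p) d : 𝓞 F) : F) / algebraMap F K ((fS (S.erase p) d' : 𝓞 F) : F) *
            algebraMap F K ζ ^ l := by
        have e1 : algebraMap F K ζ ^ l = algebraMap F K ζ ^ (l % 3) := by
          conv_lhs => rw [← Nat.div_add_mod l 3, pow_add, pow_mul, hω3, one_pow, one_mul]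
        rw [e1]
        simp only [Fin.val_zero, pow_zero, one_mul]
        ring
      rw [e]
      exact h)
  have hcard : Nat.card (↥(S.erase p) → Fin 3) = 3 ^ k := by
    rw [Nat.card_fun, Nat.card_eq_fintype_card, Nat.card_eq_fintype_card,
      Fintype.card_coe, Fintype.card_fin, Finset.card_erase_of_mem hpS, hk, Nat.add_sub_cancel]
  rw [hcard] at h1
  have e9 : ((3 ^ k * 3 ^ k : ℕ) : ℕ∞) = (9 : ℕ∞) ^ k := by
    have : 3 ^ k * 3 ^ k = 9 ^ k := by rw [← mul_pow]; norm_num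
    rw [this]
    push_cast
    rfl
  rwa [e9] at h1

end Pool.Agent.H81.HS
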