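import Mathlib
import Pool.Agent.H81.CntMs
import Pool.Graph.R_pool_sql_team_seeded_3997aac3.Q193.CE.Ekum2

/-!
# Kummer elements of the cocycles of order three
-/

set_option autoImplicit false
set_option linter.unusedSectionVars false

namespace Pool.Agent.H81.UP

open WeierstrassCurve NumberField IsDedekindDomain WithZero
open Pool.Agent.Q285.CE Pool.Agent.Q123.CE Pool.Agent.H81.SG Pool.Agent.H81.HS
open Pool.Agent.Q7.CE Pool.Agent.H62 Pool.Agent.Y682 Pool.Agent.Q285.LK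
open Pool.Agent.Q190.CE
open Pool.Agent.Q121.EN (loc_of)
open Pool.Agent.Q193.CE (kum_data)
open Pool.Agent.Q7.LK (IsPow)
open Pool.Agent.TH841.SH.D (Coch Pt act Gal IsCoc IsCob LocTriv cob)
open Pool.Agent.TH841.NF.D (Sha IsShaCoc shaCoc)

variable {K : Type} [Field K] [NumberField K] {ω : K}

theorem act_one' {W : WeierstrassCurve K} {L : Type} [Field L] [Algebra K L] (P : Pt W L) :
    act W (AlgHom.id K L) P = P := by
  rcases P with _ | ⟨x, y, h⟩
  · rfl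
  · rfl

/-- a class that is a root of unity times a cube gives a coboundary -/
theorem cob_om (hω : IsPrimitiveRoot ω 3) {a : K} {h : Gal K → ZMod 3} {s : AlgebraicClosure K}
    (hc : CocOf ω (1 : K) a one_ne_zero h s) (i : ℕ) {c : K} (hc0 : c ≠ 0) (ha : a = ω ^ i * c ^ 3) :
    IsCob (ED (1 : K)) (fc (one_ne_zero : (1 : K) ≠ 0) h) := by
  have hI := quad_of hω
  have hω3 : ω ^ 3 = 1 := hω.pow_eq_one
  have hω0 : ω ≠ 0 := hω.ne_zero (by norm_num)
  obtain ⟨u, w', t, hne, hsol⟩ : ∃ u w' t : K, (u ≠ 0 ∨ w' ≠ 0 ∨ t ≠ 0) ∧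
      w' ^ 3 = (algebraMap K K a) ^ 2 * u ^ 3 + algebraMap K K a * algebraMap K K 1 * t ^ 3 := by
    show ∃ u w' t : K, (u ≠ 0 ∨ w' ≠ 0 ∨ t ≠ 0) ∧ w' ^ 3 = a ^ 2 * u ^ 3 + a * 1 * t ^ 3
    have h3 : ω ^ i = ω ^ (i % 3) := by
      conv_lhs => rw [← Nat.div_add_mod i 3, pow_add, pow_mul, hω3, one_pow, one_mul]
    rw [ha, h3]
    have hlt := Nat.mod_lt i (show 0 < 3 by norm_num)
    interval_cases (i % 3)
    · exact ⟨c⁻¹ ^ 2, 1, 0, Or.inr (Or.inl one_ne_zero), by field_simp; ring⟩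
    · refine ⟨c⁻¹ ^ 2, -1, c⁻¹, Or.inr (Or.inl (neg_ne_zero.2 one_ne_zero)), ?_⟩
      field_simp
      linear_combination -hI
    · refine ⟨c⁻¹ ^ 2, -1, c⁻¹, Or.inr (Or.inl (neg_ne_zero.2 one_ne_zero)), ?_⟩
      field_simp
      linear_combination -(1 + ω * (ω - 1)) * hI
  have hloc : LocTriv (ED (1 : K)) K (fc (one_ne_zero : (1 : K) ≠ 0) h) :=
    loc_of one_ne_zero K _ three_ne_zero h (fun _ => rfl) hω hI hc.s_ne hc.s_cube hc.hs hne hsol
  obtain ⟨P, hP⟩ := hloc (AlgHom.id K _)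
  refine ⟨P, fun σ => ?_⟩
  have h1 := hP σ σ (fun x => rfl)
  rw [act_one'] at h1
  exact h1

end Pool.Agent.H81.UP
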