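import Mathlib
import Pool.Agent.H81.Up

/-!
# Kummer elements of the cocycles of order three, II
-/

set_option autoImplicit false
set_option linter.unusedSectionVars false

namespace Pool.Agent.H81.UP

open WeierstrassCurve NumberField IsDedekindDomain WithZero
open Pool.Agent.Q285.CE Pool.Agent.Q123.CE Pool.Agent.H81.SG Pool.Agent.H81.HS
open Pool.Agent.Q7.CE Pool.Agent.H62 Pool.Agent.Y682 Pool.Agent.Q285.LK
open Pool.Agent.Q190.CE
open Pool.Agent.Q121.EN (loc_of)
open Pool.Agent.Q193.CE (kum_data)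
open Pool.Agent.Q7.LK (IsPow)
open Pool.Agent.TH841.SH.D (Coch Pt act Gal IsCoc IsCob LocTriv cob)
open Pool.Agent.TH841.NF.D (Sha IsShaCoc shaCoc)

theorem val_add {M : Type} [AddCommGroup M] {X : M} (hX : (3 : ℕ) • X = 0) (c d : ZMod 3) :
    (c + d).val • X = c.val • X + d.val • X := by
  rw [ZMod.val_add, ← add_nsmul]
  conv_rhs => rw [← Nat.div_add_mod (c.val + d.val) 3, add_nsmul, mul_nsmul, hX, nsmul_zero, zero_add]

section E3

variable {F : Type} [Field F] [CharZero F] {w : F}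

/-- the points of order three -/
noncomputable def E3 (hI : w ^ 2 + w + 1 = 0) (L : Type) [Field L] [Algebra F L] (x : ZMod 3 × ZMod 3) :
    Pt (ED (1 : F)) L := x.1.val • T' hI L + x.2.val • T0 F L

theorem T0_three' (hI : w ^ 2 + w + 1 = 0) {L : Type} [Field L] [Algebra F L] :
    (3 : ℕ) • T0 F L = 0 := by
  rw [← th_T'_T0 hI, ← map_nsmul, T'_three, map_zero]

theorem E3_add (hI : w ^ 2 + w + 1 = 0) {L : Type} [Field L] [Algebra F L] (x y : ZMod 3 × ZMod 3) :
    E3 hI L (x + y) = E3 hI L x + E3 hI L y := by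
  show (x.1 + y.1).val • T' hI L + (x.2 + y.2).val • T0 F L = (_ + _) + (_ + _)
  rw [val_add (T'_three hI L), val_add (T0_three' hI)]
  abel

theorem E3_inj (hI : w ^ 2 + w + 1 = 0) {L : Type} [Field L] [Algebra F L] {x y : ZMod 3 × ZMod 3}
    (h : E3 hI L x = E3 hI L y) : x = y := by
  have h1 : E3 hI L (x - y) = 0 := by
    have h2 := E3_add (L := L) hI (x - y) y
    rw [sub_add_cancel, h] at h2
    exact (left_eq_add.1 (h2.trans (add_comm _ _)))
  obtain ⟨h2, h3⟩ := T'_T0_of hI h1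
  have e1 : x.1 - y.1 = 0 := by
    rw [← ZMod.natCast_zmod_val (x.1 - y.1)]
    exact (ZMod.natCast_eq_zero_iff _ _).2 h2
  have e2 : x.2 - y.2 = 0 := by
    rw [← ZMod.natCast_zmod_val (x.2 - y.2)]
    exact (ZMod.natCast_eq_zero_iff _ _).2 h3
  exact Prod.ext (sub_eq_zero.1 e1) (sub_eq_zero.1 e2)

theorem ex_T0 {L : Type} [Field L] [Algebra F L] {P : Pt (ED (1 : F)) L}
    (h : P = 0 ∨ ∃ y h, P = Affine.Point.some 0 y h) : ∃ c : ZMod 3, P = c.val • T0 F L := by
  have : CharZero L := charZero_of_injective_algebraMap (algebraMap F L).injective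
  obtain ⟨c, hc⟩ := ker_tt (three_ne_zero : (3 : L) ≠ 0) (one_ne_zero : (1 : F) ≠ 0) P h
  exact ⟨c, hc⟩

theorem E3_surj (hI : w ^ 2 + w + 1 = 0) {L : Type} [Field L] [Algebra F L] {P : Pt (ED (1 : F)) L}
    (h : (3 : ℕ) • P = 0) : ∃ x, P = E3 hI L x := by
  rw [← th'_th hI] at h
  obtain ⟨c, hc⟩ := ex_T0 (th'_ker hI L h)
  have h1 : th hI L (P - c.val • T' hI L) = 0 := by
    rw [map_sub, map_nsmul, th_T'_T0, hc, sub_self]
  obtain ⟨m, hm⟩ := ex_T0 (th_ker hI L h1)
  refine ⟨(c, m), ?_⟩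
  show P = c.val • T' hI L + m.val • T0 F L
  rw [← hm]
  abel

theorem th_E3 (hI : w ^ 2 + w + 1 = 0) {L : Type} [Field L] [Algebra F L] (x : ZMod 3 × ZMod 3) :
    th hI L (E3 hI L x) = x.1.val • T0 F L := by
  have h : th hI L (T0 F L) = 0 := th_T hI L _
  show th hI L (x.1.val • T' hI L + x.2.val • T0 F L) = _
  rw [map_add, map_nsmul, map_nsmul, th_T'_T0, h, nsmul_zero, add_zero]

end E3

section kum

variable {K : Type} [Field K] [NumberField K] {ω : K}

theorem act_T0 {L L' : Type} [Field L] [Algebra K L] [Field L'] [Algebra K L'] (φ : L →ₐ[K] L') :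
    act (ED (1 : K)) φ (T0 K L) = T0 K L' := by
  have : CharZero L := charZero_of_injective_algebraMap (algebraMap K L).injective
  have : CharZero L' := charZero_of_injective_algebraMap (algebraMap K L').injective
  exact act_TT φ three_ne_zero three_ne_zero one_ne_zero

theorem act_E3 (hI : ω ^ 2 + ω + 1 = 0) {L L' : Type} [Field L] [Algebra K L] [Field L'] [Algebra K L']
    (φ : L →ₐ[K] L') (x : ZMod 3 × ZMod 3) : act (ED (1 : K)) φ (E3 hI L x) = E3 hI L' x := by
  show act (ED (1 : K)) φ (x.1.val • T' hI L + x.2.val • T0 K L) = _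
  rw [map_add, map_nsmul, map_nsmul, act_T', act_T0]
  rfl

/-- the Kummer data of a locally trivial cocycle of order three -/
theorem kum3 (hω : IsPrimitiveRoot ω 3) (hI : ω ^ 2 + ω + 1 = 0) {g : Coch (ED (1 : K))}
    (hg : IsShaCoc (ED (1 : K)) g) (h3 : ∀ σ, (3 : ℕ) • g σ = 0) :
    ∃ (h1 h2 : Gal K → ZMod 3) (s1 s2 : AlgebraicClosure K) (a1 a2 : K),
      CocOf ω (1 : K) a1 one_ne_zero h1 s1 ∧ CocOf ω (1 : K) a2 one_ne_zero h2 s2 ∧
      (∀ σ, g σ = E3 hI _ (h1 σ, h2 σ)) ∧ (∀ v : HeightOneSpectrum (𝓞 K), AE v 1 a1) ∧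
      ∀ v : HeightOneSpectrum (𝓞 K), (3 : 𝓞 K) ∉ v.asIdeal → C3 (v.valuation K a2) := by
  have hI' := I_of hI (AlgebraicClosure K)
  have k3 : (3 : AlgebraicClosure K) ≠ 0 := three_ne_zero
  have hinj : Function.Injective (E3 hI (AlgebraicClosure K)) := fun x y h => E3_inj hI h
  let h : Gal K → ZMod 3 × ZMod 3 := fun σ => Function.invFun (E3 hI (AlgebraicClosure K)) (g σ)
  have hh : ∀ σ, g σ = E3 hI (AlgebraicClosure K) (h σ) := by
    intro σ
    obtain ⟨x, hx⟩ := E3_surj hI (h3 σ)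
    have : h σ = x := by
      show Function.invFun (E3 hI (AlgebraicClosure K)) (g σ) = x
      rw [hx]
      exact Function.leftInverse_invFun hinj x
    rw [this, hx]
  have hcont : IsLocallyConstant h := hg.1.1.comp (Function.invFun (E3 hI (AlgebraicClosure K)))
  have hmul : ∀ σ τ, h (σ * τ) = h σ + h τ := by
    intro σ τ
    apply hinj
    rw [E3_add, ← hh, ← hh, hg.1.2, hh τ, act_E3]
  have hfix : ∀ σ : Gal K, σ (algebraMap K (AlgebraicClosure K) ω) = algebraMap K (AlgebraicClosure K) ω :=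
    fun σ => σ.commutes ω
  -- the first class
  have hT : TCoc (1 : K) (fun σ => th hI (AlgebraicClosure K) (g σ)) := by
    refine ⟨sha_theta (endG_th hI) hg, fun σ => ?_⟩
    apply th'_ker hI
    rw [th'_th, h3]
  obtain ⟨h1, s1, a1, hh1, hs10, hs13, hs1, hA1⟩ := kum_data hω one_ne_zero k3 _ hT
  have e1 : ∀ σ, h1 σ = (h σ).1 := by
    intro σ
    apply tt_inj (L := AlgebraicClosure K) k3 (one_ne_zero : (1 : K) ≠ 0)
    rw [← hh1 σ]
    show th hI (AlgebraicClosure K) (g σ) = (h σ).1.val • T0 K _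
    rw [hh σ, th_E3]
  -- the second class
  obtain ⟨s2, a2, hs20, hs23, hs2⟩ := Pool.Agent.Y715.T.Kum.exists_root (K := K) (Ω := AlgebraicClosure K)
    k3 hI' hfix (fun σ => (h σ).2) (fun σ τ => by rw [hmul]; rfl) (hcont.comp Prod.snd)
  have hg' : ∀ σ, g σ = E3 hI _ (h1 σ, (h σ).2) := by
    intro σ
    rw [hh σ, e1 σ]
  refine ⟨h1, fun σ => (h σ).2, s1, s2, a1, a2, ⟨hs10, hs13, hs1⟩, ⟨hs20, hs23, hs2⟩, hg', hA1, ?_⟩
  intro v hv
  have hcv : CharZero (v.adicCompletion K) := charZero_of_injective_algebraMap (algebraMap K _).injective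
  let ι : AlgebraicClosure K →ₐ[K] AlgebraicClosure (v.adicCompletion K) := IsAlgClosed.lift
  obtain ⟨P, hP⟩ := hg.2.1 v ι
  obtain ⟨R, hR⟩ := c3_of_pt (F := K) (K := v.adicCompletion K) hI (P := P) (s1 := ι s1) (s2 := ι s2)
    (a1 := algebraMap K _ a1) (a2 := algebraMap K _ a2)
    (by rwa [Ne, map_eq_zero]) (by rwa [Ne, map_eq_zero])
    (by rw [← map_pow, hs13, ι.commutes, IsScalarTower.algebraMap_apply K (v.adicCompletion K)])
    (by rw [← map_pow, hs23, ι.commutes, IsScalarTower.algebraMap_apply K (v.adicCompletion K)])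
    (fun τ => by
      obtain ⟨σ, hσ⟩ := exists_restr ι τ
      refine ⟨(h1 σ).val, (h σ).2.val, ?_, ?_, ?_⟩
      · have h5 := hP τ σ hσ
        rw [hg' σ, act_E3] at h5
        have h6 : act (ED (1 : K)) (τ.toAlgHom.restrictScalars K) P =
            P + E3 hI (AlgebraicClosure (v.adicCompletion K)) (h1 σ, (h σ).2) := by
          rw [h5]
          abel
        rw [h6, add_assoc]
        rfl
      · rw [hσ, hs1, map_mul, map_pow, ι.commutes]
      · rw [hσ, hs2, map_mul, map_pow, ι.commutes])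
  obtain ⟨z, hz0, hz⟩ := hR
  have h3v : vv v (3 : v.adicCompletion K) = 1 := by
    have e : (3 : v.adicCompletion K) = algebraMap K (v.adicCompletion K) (algebraMap (𝓞 K) K 3) := by
      rw [map_ofNat, map_ofNat]
    rw [e, vv_coe, HeightOneSpectrum.valuation_of_algebraMap]
    refine le_antisymm (v.intValuation_le_one _) ?_
    rw [← not_lt, HeightOneSpectrum.intValuation_lt_one_iff_mem]
    exact hv
  have c1 := scP_c3 hI (vv v) h3v R
  have c2 := ae_c3 v (hA1 v)
  have n1 : scP ω R ≠ 0 := scP_ne hI R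
  have n2 : algebraMap K (v.adicCompletion K) a1 ≠ 0 := (map_ne_zero _).2 (hA1 v).1
  have e3 : algebraMap K (v.adicCompletion K) a2 * (algebraMap K (v.adicCompletion K) a1) ^ 2 =
      scP ω R * z ^ 3 := by
    rw [← hz]
    field_simp
  have e4 := congrArg (vv v) e3
  rw [map_mul, map_mul, map_pow, map_pow, vv_coe, vv_coe] at e4
  have c3 : C3 (v.valuation K a2 * (v.valuation K a1) ^ 2) := by
    rw [e4]
    exact c1.mul (C3.cube ((Valuation.ne_zero_iff _).2 hz0))
  rw [mul_comm] at c3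
  refine C3.of_mul ?_ c3
  rw [sq]
  exact c2.mul c2

end kum

end Pool.Agent.H81.UP
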