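import Mathlib
import Pool.Agent.H81.Up2
import Pool.Agent.H40.SHN.Nrm

/-!
# The Galois group acts trivially on the elements of order three of the Tate-Shafarevich group
-/

set_option autoImplicit false
set_option linter.unusedSectionVars false

namespace Pool.Agent.H81.UP

open WeierstrassCurve NumberField IsDedekindDomain WithZero
open Pool.Agent.Q285.CE Pool.Agent.Q123.CE Pool.Agent.H81.SG Pool.Agent.H81.HS
open Pool.Agent.Q7.CE Pool.Agent.H62 Pool.Agent.Y682 Pool.Agent.Q285.LK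
open Pool.Agent.Q190.CE
open Pool.Agent.Q121.EN (loc_of)
open Pool.Agent.Q193.CE (kum_data)
open Pool.Agent.Q7.LK (IsPow)
open Pool.Agent.TH841.SH.D (Coch Pt act Gal IsCoc IsCob LocTriv cob)
open Pool.Agent.TH841.NF.D (Sha IsShaCoc shaCoc)
open Pool.Agent.H40.SHN (twC twC_apply sg sg_cl cl cl_eq cl_surj cl_eq_zero pm pm_mk cv cv_some mk
  mk_ext lift_ex twC_sha)

section gen

variable {K : Type} [Field K] [NumberField K] {ω : K}

/-- the elements of order three have representatives of order three -/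
theorem rep3 (hI : ω ^ 2 + ω + 1 = 0) {x : Sha (ED (1 : K))} (hx : (3 : ℕ) • x = 0) :
    ∃ (g : Coch (ED (1 : K))) (hg : IsShaCoc (ED (1 : K)) g), x = cl hg ∧ ∀ σ, (3 : ℕ) • g σ = 0 := by
  obtain ⟨f, hf, rfl⟩ := cl_surj x
  have h4 : IsShaCoc (ED (1 : K)) (3 • f) := (shaCoc (ED (1 : K))).nsmul_mem hf _
  obtain ⟨P0, hP0⟩ := (cl_eq_zero h4).1 hx
  obtain ⟨R, hR⟩ := (endG_th' hI).surj (AlgebraicClosure K) inferInstance P0
  obtain ⟨R', hR'⟩ := (endG_th hI).surj (AlgebraicClosure K) inferInstance R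
  have hg : IsShaCoc (ED (1 : K)) (f - cbd (ED (1 : K)) R') :=
    (shaCoc (ED (1 : K))).sub_mem hf (sha_cbd R')
  refine ⟨f - cbd (ED (1 : K)) R', hg, ?_, ?_⟩
  · rw [cl_eq]
    refine ⟨R', fun σ => ?_⟩
    show f σ - (f σ - (act (ED (1 : K)) σ.toAlgHom R' - R')) = _
    abel
  · intro σ
    show (3 : ℕ) • (f σ - (act (ED (1 : K)) σ.toAlgHom R' - R')) = 0
    have h1 : (3 : ℕ) • f σ = act (ED (1 : K)) σ.toAlgHom P0 - P0 := hP0 σ
    have h2 : (3 : ℕ) • R' = P0 := by
      rw [← th'_th hI]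
      have e1 : th hI (AlgebraicClosure K) R' = R := hR'
      rw [e1]
      exact hR
    rw [nsmul_sub, nsmul_sub, h1, ← map_nsmul, h2, sub_self]

/-- the points of order three are fixed by the automorphisms that fix `ω` -/
theorem pm_E3 (hI : ω ^ 2 + ω + 1 = 0) {s : RingAut (AlgebraicClosure K)}
    (hs : s (algebraMap K _ ω) = algebraMap K _ ω) (x : ZMod 3 × ZMod 3) :
    pm (RingEquiv.toRingHom s) (cv K (AlgebraicClosure K) (E3 hI _ x)) =
      cv K (AlgebraicClosure K) (E3 hI _ x) := by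
  have h1 : pm (RingEquiv.toRingHom s) (cv K (AlgebraicClosure K) (T' hI _)) =
      cv K (AlgebraicClosure K) (T' hI _) := by
    obtain ⟨h', e1⟩ := cv_some (k := K) (nons_T' hI (AlgebraicClosure K))
    obtain ⟨h'', e2⟩ := pm_mk (RingEquiv.toRingHom s) h'
    show pm (RingEquiv.toRingHom s) (cv K (AlgebraicClosure K) (Affine.Point.some _ _ _)) =
      cv K (AlgebraicClosure K) (Affine.Point.some _ _ _)
    rw [e1, e2, mk_ext]
    refine ⟨by rw [map_neg, map_one], ?_⟩
    rw [map_pow]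
    congr 1
  have h2 : pm (RingEquiv.toRingHom s) (cv K (AlgebraicClosure K) (T0 K _)) =
      cv K (AlgebraicClosure K) (T0 K _) := by
    obtain ⟨h', e1⟩ := cv_some (k := K) (nons_of (F := K) (L := AlgebraicClosure K) (x := 0) (y := 0) (by ring))
    obtain ⟨h'', e2⟩ := pm_mk (RingEquiv.toRingHom s) h'
    show pm (RingEquiv.toRingHom s) (cv K (AlgebraicClosure K) (Affine.Point.some _ _ _)) =
      cv K (AlgebraicClosure K) (Affine.Point.some _ _ _)
    rw [e1, e2, mk_ext]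
    exact ⟨map_zero _, map_zero _⟩
  show pm (RingEquiv.toRingHom s) (cv K (AlgebraicClosure K) (x.1.val • T' hI _ + x.2.val • T0 K _)) =
      cv K (AlgebraicClosure K) (x.1.val • T' hI _ + x.2.val • T0 K _)
  rw [map_add, map_add, map_nsmul, map_nsmul, map_nsmul, map_nsmul, h1, h2]

/-- conjugation -/
theorem conj_ex {s : RingAut (AlgebraicClosure K)} {γ : K ≃+* K}
    (hs : ∀ x : K, s (algebraMap K _ x) = algebraMap K _ (γ x)) (t : Gal K) :
    ∃ t' : Gal K, ∀ a, s (t' a) = t (s a) := by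
  have h1 : ∀ z, s (s.symm z) = z := fun z => RingEquiv.apply_symm_apply s z
  refine ⟨AlgEquiv.ofRingEquiv (f := (RingEquiv.trans (RingEquiv.trans s t.toRingEquiv) s.symm)) ?_, ?_⟩
  · intro a
    show s.symm (t (s (algebraMap K _ a))) = algebraMap K _ a
    apply (RingEquiv.injective s)
    rw [h1, hs, t.commutes]
  · intro a
    show s (s.symm (t (s a))) = t (s a)
    exact h1 _

theorem val_of_pow {I : AlgebraicClosure K} (hI : IsPrimitiveRoot I 3) {c d : ZMod 3}
    (h : I ^ c.val = I ^ d.val) : c = d :=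
  ZMod.val_injective 3 (hI.pow_inj (ZMod.val_lt c) (ZMod.val_lt d) h)

end gen

variable {F K : Type} [Field F] [NumberField F] [IsCyclotomicExtension {3} ℚ F] [Field K]
  [NumberField K] [IsTotallyComplex K] [Algebra F K] [IsGalois F K] {ζ : F} {n : ℕ} {S : Finset (𝓞 F)}

/-- **the Galois group acts trivially on the elements of order three of the Tate-Shafarevich group** -/
theorem fix3 (T : Ms F K ζ n S)
    (hB1 : ∀ a : K, (∀ v : HeightOneSpectrum (𝓞 K), AE v 1 a) → ∃ (i : ℕ) (m : 𝓞 F → ℕ) (c : K), c ≠ 0 ∧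
      a = algebraMap F K ζ ^ i * algebraMap F K ((∏ p ∈ S, p ^ m p : 𝓞 F) : F) * c ^ 3)
    (hloc : ∀ (σ : Gal(K/F)) (x c : K) (i : ℕ) (m : 𝓞 F → ℕ), x ≠ 0 → c ≠ 0 →
      (∀ v : HeightOneSpectrum (𝓞 K), (3 : 𝓞 K) ∉ v.asIdeal → C3 (v.valuation K x)) →
      σ x / x = algebraMap F K ζ ^ i * algebraMap F K ((∏ p ∈ S, p ^ m p : 𝓞 F) : F) * c ^ 3 →
      ∃ d : K, algebraMap F K ((∏ p ∈ S, p ^ m p : 𝓞 F) : F) = d ^ 3)
    (γ : K ≃ₐ[F] K) {x : Sha (ED (1 : K))} (hx : (3 : ℕ) • x = 0) : sg (γ : K ≃+* K) x = x := by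
  have hω := T.zetaK
  have hI := T.quad
  set ω := algebraMap F K ζ with hωdef
  have hI' := I_of hI (AlgebraicClosure K)
  have hprim := prim_of hI'
  have k3 : (3 : AlgebraicClosure K) ≠ 0 := three_ne_zero
  obtain ⟨g, hg, rfl, h3⟩ := rep3 hI hx
  obtain ⟨h1, h2, s1, s2, a1, a2, C1, C2, hgv, hA1, hA2⟩ := kum3 hω hI hg h3
  obtain ⟨s, hs'⟩ := lift_ex (γ : K ≃+* K)
  have hs : ∀ x : K, s (algebraMap K _ x) = algebraMap K _ (γ x) := hs'
  have hsω : s (algebraMap K _ ω) = algebraMap K _ ω := by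
    rw [hs, hωdef, γ.commutes]
  rw [sg_cl hs' hg, cl_eq]
  choose cj hcj using conj_ex hs'
  have ha20 : a2 ≠ 0 := by
    rintro rfl
    have := C2.s_cube
    rw [map_zero] at this
    exact C2.s_ne (pow_eq_zero_iff three_ne_zero |>.1 this)
  -- the first class
  have e1 : ∀ t, h1 (cj t) = h1 t := by
    intro t
    obtain ⟨i, m, c, hc, ha⟩ := hB1 a1 hA1
    have hc' : algebraMap K (AlgebraicClosure K) c ≠ 0 := (map_ne_zero _).2 hc
    set u := s1 / algebraMap K (AlgebraicClosure K) c with hu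
    have hu0 : u ≠ 0 := div_ne_zero C1.s_ne hc'
    have hu3 : u ^ 3 = algebraMap K (AlgebraicClosure K)
        (algebraMap F K (ζ ^ i * ((∏ p ∈ S, p ^ m p : 𝓞 F) : F))) := by
      rw [hu, div_pow, C1.s_cube, ha, map_mul, map_pow, mul_div_assoc,
        div_self (pow_ne_zero 3 hc'), mul_one, map_mul (algebraMap F K), map_pow]
    have hut : ∀ t : Gal K, t u = (algebraMap K (AlgebraicClosure K) ω) ^ (h1 t).val * u := by
      intro t
      rw [hu, map_div₀, C1.hs, t.commutes]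
      ring
    obtain ⟨j, hj⟩ := cube_eq hI' (x := s u) (y := u) (by
      rw [← map_pow, hu3, hs, γ.commutes])
    have h5 := hcj t u
    rw [hut (cj t), hj, map_mul, map_mul, map_pow, map_pow, hsω, hj, hut t, t.commutes] at h5
    apply val_of_pow hprim
    have h6 : (algebraMap K (AlgebraicClosure K) ω) ^ j * u ≠ 0 :=
      mul_ne_zero (pow_ne_zero _ (hprim.ne_zero (by norm_num))) hu0
    apply mul_right_cancel₀ h6
    linear_combination h5
  -- the difference
  have hd : ∀ t, (twC s g - g) t = tt (1 : K) k3 one_ne_zero (h2 (cj t) - h2 t) := by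
    intro t
    have e5 : twC s g t = E3 hI _ (h1 (cj t), h2 (cj t)) := by
      apply (cv K (AlgebraicClosure K)).injective
      rw [twC_apply s g t (cj t) (hcj t), hgv (cj t), pm_E3 hI hsω]
    show twC s g t - g t = _
    rw [e5, hgv t, e1 t]
    have e6 : (h1 t, h2 (cj t)) = (h1 t, h2 t) + (0, h2 (cj t) - h2 t) := by
      ext
      · simp
      · simp
    rw [e6, E3_add, add_sub_cancel_left]
    show (0 : ZMod 3).val • T' hI _ + (h2 (cj t) - h2 t).val • T0 K _ = _
    rw [ZMod.val_zero, zero_nsmul, zero_add]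
    rfl
  have hdS : IsShaCoc (ED (1 : K)) (twC s g - g) :=
    (shaCoc (ED (1 : K))).sub_mem (twC_sha hs' hg) hg
  have hT : TCoc (1 : K) (twC s g - g) := by
    refine ⟨hdS, fun σ => ?_⟩
    apply th_ker hI
    rw [hd σ]
    show th hI _ ((h2 (cj σ) - h2 σ).val • T0 K _) = 0
    have h : th hI (AlgebraicClosure K) (T0 K _) = 0 := th_T hI _ _
    rw [map_nsmul, h, nsmul_zero]
  obtain ⟨h', s', a', hh', hs0', hs3', hst', hA'⟩ := kum_data hω one_ne_zero k3 _ hT
  have e2 : ∀ t, h' t = h2 (cj t) - h2 t := by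
    intro t
    apply tt_inj (L := AlgebraicClosure K) k3 (one_ne_zero : (1 : K) ≠ 0)
    rw [← hh', hd]
  -- the Kummer element
  have hss0 : s s2 ≠ 0 := by
    intro h
    apply C2.s_ne
    exact (map_eq_zero_iff s (RingEquiv.injective s)).1 h
  set sd := s s2 / s2 with hsd
  have hsd0 : sd ≠ 0 := div_ne_zero hss0 C2.s_ne
  have hsd3 : sd ^ 3 = algebraMap K (AlgebraicClosure K) (γ a2 / a2) := by
    rw [hsd, div_pow, ← map_pow, C2.s_cube, hs, map_div₀]
  have hω3 : (algebraMap K (AlgebraicClosure K) ω) ^ 3 = 1 := hprim.pow_eq_one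
  have hω0 : algebraMap K (AlgebraicClosure K) ω ≠ 0 := hprim.ne_zero (by norm_num)
  have hsdt : ∀ t : Gal K, t sd = (algebraMap K (AlgebraicClosure K) ω) ^ (h' t).val * sd := by
    intro t
    rw [hsd, map_div₀, ← hcj t, C2.hs, C2.hs, map_mul, map_pow, hsω]
    have e3 : (algebraMap K (AlgebraicClosure K) ω) ^ (h2 (cj t)).val =
        (algebraMap K (AlgebraicClosure K) ω) ^ (h' t).val *
        (algebraMap K (AlgebraicClosure K) ω) ^ (h2 t).val := by
      rw [← pow_add]
      have e4 : h2 (cj t) = h' t + h2 t := by rw [e2]; ring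
      conv_lhs => rw [e4, ZMod.val_add]
      conv_rhs => rw [← Nat.div_add_mod ((h' t).val + (h2 t).val) 3, pow_add, pow_mul, hω3, one_pow,
        one_mul]
    rw [e3]
    have n1 := C2.s_ne
    have n2 := pow_ne_zero (h2 t).val hω0
    field_simp
  clear_value sd
  obtain ⟨k, hk⟩ : s' / sd ∈ Set.range (algebraMap K (AlgebraicClosure K)) := by
    rw [InfiniteGalois.mem_range_algebraMap_iff_fixed]
    intro t
    rw [map_div₀, hst', hsdt]
    have n2 := pow_ne_zero (h' t).val hω0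
    field_simp
  have hk0 : k ≠ 0 := by
    rintro rfl
    rw [map_zero] at hk
    exact div_ne_zero hs0' hsd0 hk.symm
  have ha' : a' = γ a2 / a2 * k ^ 3 := by
    apply (algebraMap K (AlgebraicClosure K)).injective
    rw [← hs3', map_mul, ← hsd3, map_pow, hk, div_pow]
    field_simp
  obtain ⟨i, m, c, hc, hac⟩ := hB1 a' hA'
  obtain ⟨d, hdm⟩ := hloc γ a2 (c / k) i m ha20 (div_ne_zero hc hk0) hA2 (by
    rw [div_pow, ← mul_div_assoc, ← hac, ha']
    field_simp)
  have hd0 : d ≠ 0 := by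
    rintro rfl
    rw [zero_pow three_ne_zero] at hdm
    rw [hdm, mul_zero, zero_mul] at hac
    exact (hA' (Classical.choice (by
      obtain ⟨w, hw⟩ := Pool.Agent.N883.T.exists_three K
      exact ⟨w⟩))).1 hac
  have hfin := cob_om hω (h := h') (s := s') (a := a') ⟨hs0', hs3', hst'⟩ i
    (mul_ne_zero hd0 hc) (by rw [hac, hdm]; ring)
  have e7 : twC s g - g = fc (one_ne_zero : (1 : K) ≠ 0) h' := by
    funext t
    exact hh' t
  rw [e7]
  exact hfin

end Pool.Agent.H81.UP
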