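import Mathlib
import Pool.Agent.H81.Up3
import Pool.Agent.H62.SelX
import Pool.Agent.H62.SelY

/-!
# The Galois group acts trivially on the elements of order three, II
-/

set_option autoImplicit false
set_option linter.unusedSectionVars false

namespace Pool.Agent.H81.UP

open WeierstrassCurve NumberField IsDedekindDomain WithZero
open Pool.Agent.Q7.CE Pool.Agent.H62
open Pool.Agent.TH841.NF.D (Sha)
open Pool.Agent.H40.SHN (sg)

variable {F K : Type} [Field F] [NumberField F] [IsCyclotomicExtension {3} ℚ F] [Field K]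
  [NumberField K] [IsTotallyComplex K] [Algebra F K] [IsGalois F K] {ζ : F} {n : ℕ} {S : Finset (𝓞 F)}

/-- **the Galois group acts trivially on the elements of order three of the Tate-Shafarevich group** -/
theorem Ms.fix3 [IsCyclic Gal(K/F)] (T : Ms F K ζ n S) (hunr : UnrS K S) {e : 𝓞 F → ℕ} {β : K}
    (D : TD T.zeta K n S e β) (hne : S.Nonempty) (γ : K ≃ₐ[F] K) {x : Sha (ED (1 : K))}
    (hx : (3 : ℕ) • x = 0) : sg (γ : K ≃+* K) x = x :=
  UP.fix3 T (fun _ h => T.hB1 hunr D hne h)
    (fun σ _ _ i m hx hc h3 h => T.hloc D σ i m hx hc h3 h) γ hx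

end Pool.Agent.H81.UP
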