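import Mathlib

/-!
# The tree sum

A sum over arborescences, defined by a recursion of inclusion and exclusion, is not zero when the weighted
Laplacian has a kernel of dimension one.
-/

set_option autoImplicit false

namespace Pool.Agent.H81.Tree

open Finset Matrix

section

variable {α : Type} [DecidableEq α] {K : Type} [Field K] (P : Finset α) (l : α → α → K)

/-- the unit vector -/
def e (p : α) : P → K := fun j => if (j : α) = p then 1 else 0

/-- the row of the Laplacian of the set `S` -/
def row (S : Finset α) (i : P) : P → K := ∑ p ∈ S, l i p • (e P (i : α) - e P p)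

/-- the matrix with the rows of the Laplacian of `S` for the elements of `T` -/
def M (T S : Finset α) : Matrix P P K := fun i => if (i : α) ∈ T then row P l S i else e P i

lemma M_in {T S : Finset α} {i : P} (h : (i : α) ∈ T) : M P l T S i = row P l S i := by
  unfold M
  exact if_pos h

lemma M_out {T S : Finset α} {i : P} (h : (i : α) ∉ T) : M P l T S i = e P i := by
  unfold M
  exact if_neg h

/-- the determinant as a linear map of one row -/
noncomputable def dl (A : Matrix P P K) (q : P) : (P → K) →ₗ[K] K :=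
  (Matrix.detRowAlternating (n := P) (R := K)).toMultilinearMap.toLinearMap A q

lemma dl_apply (A : Matrix P P K) (q : P) (x : P → K) : dl P A q x = (A.updateRow q x).det := rfl

lemma e_self (q : P) : e (K := K) P (q : α) q = 1 := if_pos rfl

lemma e_ne {p : α} {q : P} (h : (q : α) ≠ p) : e (K := K) P p q = 0 := if_neg h

lemma row_col {S : Finset α} {i q : P} (hiq : i ≠ q) (hq : (q : α) ∉ S) : row P l S i q = 0 := by
  unfold row
  rw [Finset.sum_apply]
  refine Finset.sum_eq_zero fun p hp => ?_
  rw [Pi.smul_apply, Pi.sub_apply, e_ne P (fun h => hiq (Subtype.ext h).symm),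
    e_ne P (fun h => hq (h ▸ hp)), sub_zero, smul_zero]

lemma M_col {T S : Finset α} {i q : P} (hiq : i ≠ q) (hq : (q : α) ∉ S) : M P l T S i q = 0 := by
  by_cases h : (i : α) ∈ T
  · rw [M_in P l h]
    exact row_col P l hiq hq
  · rw [M_out P l h]
    exact e_ne P (fun h => hiq (Subtype.ext h).symm)

lemma det_step {T S : Finset α} {q : P} (hT : (q : α) ∈ T) (hS : (q : α) ∉ S) :
    (M P l T S).det = (M P l (T.erase q) S).det * ∑ p ∈ S, l q p := by
  have h1 : M P l T S = (M P l (T.erase q) S).updateRow q (row P l S q) := by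
    funext i
    by_cases hi : i = q
    · subst hi
      rw [Matrix.updateRow_self, M_in P l hT]
    · rw [Matrix.updateRow_ne hi]
      by_cases h : (i : α) ∈ T
      · rw [M_in P l h, M_in P l (Finset.mem_erase.2 ⟨fun h => hi (Subtype.ext h), h⟩)]
      · rw [M_out P l h, M_out P l (fun h' => h (Finset.mem_of_mem_erase h'))]
  have h2 : ((M P l (T.erase q) S).updateRow q (e P q)) = M P l (T.erase q) S := by
    have : e (K := K) P q = M P l (T.erase q) S q :=
      (M_out P l (fun h => (Finset.mem_erase.1 h).1 rfl)).symm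
    rw [this]
    exact Matrix.updateRow_eq_self _ _
  have h3 : ∀ p ∈ S, ((M P l (T.erase q) S).updateRow q (e P p)).det = 0 := by
    intro p hp
    refine Matrix.det_eq_zero_of_column_eq_zero q fun i => ?_
    by_cases hi : i = q
    · subst hi
      rw [Matrix.updateRow_self]
      exact e_ne P (fun h => hS (h ▸ hp))
    · rw [Matrix.updateRow_ne hi]
      exact M_col P l hi hS
  rw [h1, ← dl_apply]
  unfold row
  rw [map_sum, Finset.mul_sum]
  refine Finset.sum_congr rfl fun p hp => ?_
  rw [map_smul, map_sub, dl_apply, dl_apply, h2, h3 p hp, sub_zero, smul_eq_mul, mul_comm]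

lemma det_steps {T S : Finset α} (J : Finset α) (hJT : J ⊆ T) (hJP : J ⊆ P) (hJS : Disjoint J S) :
    (M P l T S).det = (M P l (T \ J) S).det * ∏ q ∈ J, ∑ p ∈ S, l q p := by
  induction J using Finset.induction_on with
  | empty => simp
  | insert q J hq ih =>
    have h1 := ih ((Finset.subset_insert _ _).trans hJT) ((Finset.subset_insert _ _).trans hJP)
      (Finset.disjoint_of_subset_left (Finset.subset_insert _ _) hJS)
    have hqT : q ∈ T := hJT (Finset.mem_insert_self _ _)
    have hqP : q ∈ P := hJP (Finset.mem_insert_self _ _)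
    have hqS : q ∉ S := Finset.disjoint_left.1 hJS (Finset.mem_insert_self _ _)
    have h2 := det_step P l (T := T \ J) (S := S) (q := ⟨q, hqP⟩)
      (Finset.mem_sdiff.2 ⟨hqT, hq⟩) hqS
    rw [h1, h2, Finset.prod_insert hq]
    have h3 : (T \ J).erase q = T \ insert q J := by
      ext x
      simp only [Finset.mem_erase, Finset.mem_sdiff, Finset.mem_insert, not_or]
      tauto
    rw [h3]
    ring

/-- the rows for a function -/
def N (T : Finset α) (f : P → α) : Matrix P P K :=
  fun i => if (i : α) ∈ T then l i (f i) • (e P (i : α) - e P (f i)) else e P i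

/-- the values of the functions -/
def A (T S : Finset α) (i : P) : Finset α := if (i : α) ∈ T then S else {(i : α)}

lemma det_expand (T S : Finset α) :
    (M P l T S).det = ∑ f ∈ Fintype.piFinset (A P T S), (N P l T f).det := by
  have h1 : M P l T S = fun i => ∑ p ∈ A P T S i,
      (if (i : α) ∈ T then l i p • (e (K := K) P (i : α) - e P p) else e P i) := by
    funext i
    by_cases h : (i : α) ∈ T
    · rw [M_in P l h]
      unfold A row
      rw [if_pos h]
      exact Finset.sum_congr rfl fun p _ => (if_pos h).symm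
    · rw [M_out P l h]
      unfold A
      rw [if_neg h, Finset.sum_singleton, if_neg h]
  have h2 := MultilinearMap.map_sum_finset
    (Matrix.detRowAlternating (n := P) (R := K)).toMultilinearMap
    (fun (i : P) (p : α) => (if (i : α) ∈ T then l i p • (e (K := K) P (i : α) - e P p) else e P i))
    (A P T S)
  rw [h1]
  exact h2

lemma mem_A {T S : Finset α} {f : P → α} : f ∈ Fintype.piFinset (A P T S) ↔
    ∀ i : P, ((i : α) ∈ T → f i ∈ S) ∧ ((i : α) ∉ T → f i = i) := by
  rw [Fintype.mem_piFinset]
  refine forall_congr' fun i => ?_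
  unfold A
  by_cases h : (i : α) ∈ T
  · simp [h]
  · simp [h]

lemma e_dot {p : α} (hp : p ∈ P) (v : P → K) : e P p ⬝ᵥ v = v ⟨p, hp⟩ := by
  unfold dotProduct
  rw [Finset.sum_eq_single (⟨p, hp⟩ : P)]
  · rw [e_self P ⟨p, hp⟩, one_mul]
  · intro b _ hb
    rw [e_ne P (fun h => hb (Subtype.ext h)), zero_mul]
  · intro h
    exact absurd (Finset.mem_univ _) h

/-- a function which permutes `T` has determinant zero -/
lemma N_zero {T : Finset α} (hTP : T ⊆ P) (hT : T.Nonempty) {f : P → α}
    (hU : ∀ q ∈ T, ∃ i : P, (i : α) ∈ T ∧ f i = q) : (N P l T f).det = 0 := by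
  have himg : ∀ i : P, (i : α) ∈ T → f i ∈ T := by
    have h1 : T ⊆ ((Finset.univ : Finset P).filter fun i : P => (i : α) ∈ T).image f := by
      intro q hq
      obtain ⟨i, hi, h⟩ := hU q hq
      exact Finset.mem_image.2 ⟨i, Finset.mem_filter.2 ⟨Finset.mem_univ _, hi⟩, h⟩
    have h2 : (((Finset.univ : Finset P).filter fun i : P => (i : α) ∈ T).image f).card ≤ T.card := by
      refine Finset.card_image_le.trans ?_
      refine Finset.card_le_card_of_injOn (fun i => (i : α)) (fun i hi => ?_)
        (fun i _ j _ h => Subtype.ext h)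
      exact (Finset.mem_filter.1 hi).2
    have h3 := Finset.eq_of_subset_of_card_le h1 h2
    intro i hi
    rw [h3]
    exact Finset.mem_image.2 ⟨i, Finset.mem_filter.2 ⟨Finset.mem_univ _, hi⟩, rfl⟩
  refine Matrix.exists_mulVec_eq_zero_iff.1 ⟨fun j => if (j : α) ∈ T then 1 else 0, ?_, ?_⟩
  · obtain ⟨q, hq⟩ := hT
    intro h
    have := congrFun h ⟨q, hTP hq⟩
    simp [hq] at this
  · funext i
    change (N P l T f) i ⬝ᵥ _ = 0
    unfold N
    by_cases h : (i : α) ∈ T
    · rw [if_pos h, smul_dotProduct, sub_dotProduct, e_dot P i.2, e_dot P (hTP (himg i h))]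
      simp [h, himg i h]
    · rw [if_neg h, e_dot P i.2]
      simp [h]

lemma neg_sum {T : Finset α} : ∑ J ∈ T.powerset, (-1 : K) ^ J.card = if T = ∅ then 1 else 0 := by
  have h := Finset.sum_powerset_neg_one_pow_card (x := T)
  have h2 := congrArg (fun x : ℤ => (x : K)) h
  push_cast at h2
  exact h2

/-- inclusion and exclusion -/
theorem incl_excl {T : Finset α} {r : α} (hTP : T ⊆ P) (hT : T.Nonempty) :
    ∑ J ∈ T.powerset, (-1 : K) ^ J.card * (M P l T (insert r T \ J)).det = 0 := by
  have h1 : ∀ J ∈ T.powerset, (-1 : K) ^ J.card * (M P l T (insert r T \ J)).det =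
      ∑ f ∈ Fintype.piFinset (A P T (insert r T)),
        (if (∀ i : P, (i : α) ∈ T → f i ∉ J) then (-1 : K) ^ J.card * (N P l T f).det else 0) := by
    intro J hJ
    rw [det_expand, Finset.mul_sum, ← Finset.sum_filter]
    refine Finset.sum_congr ?_ fun _ _ => rfl
    ext f
    rw [Finset.mem_filter, mem_A, mem_A]
    constructor
    · intro h
      exact ⟨fun i => ⟨fun hi => (Finset.mem_sdiff.1 ((h i).1 hi)).1, (h i).2⟩,
        fun i hi => (Finset.mem_sdiff.1 ((h i).1 hi)).2⟩
    · rintro ⟨h, h'⟩ i
      exact ⟨fun hi => Finset.mem_sdiff.2 ⟨(h i).1 hi, h' i hi⟩, (h i).2⟩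
  rw [Finset.sum_congr rfl h1, Finset.sum_comm]
  refine Finset.sum_eq_zero fun f hf => ?_
  classical
  have h2 : ∑ J ∈ T.powerset, (if (∀ i : P, (i : α) ∈ T → f i ∉ J) then
      (-1 : K) ^ J.card * (N P l T f).det else 0) =
      (∑ J ∈ (T.filter fun q => ∀ i : P, (i : α) ∈ T → f i ≠ q).powerset, (-1 : K) ^ J.card) *
        (N P l T f).det := by
    rw [Finset.sum_mul, ← Finset.sum_filter]
    refine Finset.sum_congr ?_ fun _ _ => rfl
    ext J
    rw [Finset.mem_filter, Finset.mem_powerset, Finset.mem_powerset]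
    constructor
    · rintro ⟨h, h'⟩ q hq
      exact Finset.mem_filter.2 ⟨h hq, fun i hi e => h' i hi (e ▸ hq)⟩
    · intro h
      exact ⟨fun q hq => (Finset.mem_filter.1 (h hq)).1,
        fun i hi hq => (Finset.mem_filter.1 (h hq)).2 i hi rfl⟩
  rw [h2, neg_sum]
  split_ifs with hU
  · rw [one_mul]
    refine N_zero P l hTP hT fun q hq => ?_
    by_contra hcon
    push Not at hcon
    have : q ∈ (T.filter fun q => ∀ i : P, (i : α) ∈ T → f i ≠ q) :=
      Finset.mem_filter.2 ⟨hq, hcon⟩
    rw [hU] at this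
    exact absurd this (Finset.notMem_empty _)
  · rw [zero_mul]

/-- the cofactor of the Laplacian of `R` at `r` -/
noncomputable def D (R : Finset α) (r : α) : K := (M P l (R.erase r) R).det

lemma D_single (r : α) : D P l {r} r = 1 := by
  unfold D
  have : M P l (({r} : Finset α).erase r) {r} = 1 := by
    funext i
    rw [M_out P l (by simp)]
    funext j
    unfold e
    rw [Matrix.one_apply]
    by_cases h : i = j
    · subst h
      simp
    · rw [if_neg (fun h' => h (Subtype.ext h').symm), if_neg h]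
  rw [this, Matrix.det_one]

/-- the recursion of the cofactors -/
theorem D_rec {R : Finset α} {r : α} (hR : R ⊆ P) (hr : r ∈ R) (h2 : 2 ≤ R.card) :
    ∑ J ∈ (R.erase r).powerset, (-1 : K) ^ J.card * D P l (R \ J) r *
      ∏ q ∈ J, ∑ p ∈ R \ J, l q p = 0 := by
  have hT : (R.erase r).Nonempty := by
    rw [← Finset.card_pos, Finset.card_erase_of_mem hr]
    omega
  have hins : insert r (R.erase r) = R := Finset.insert_erase hr
  have h := incl_excl P l (T := R.erase r) (r := r) ((Finset.erase_subset _ _).trans hR) hT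
  rw [hins] at h
  rw [← h]
  refine Finset.sum_congr rfl fun J hJ => ?_
  rw [Finset.mem_powerset] at hJ
  have hJR : J ⊆ R := hJ.trans (Finset.erase_subset _ _)
  rw [det_steps P l J hJ (hJR.trans hR) Finset.disjoint_sdiff, mul_assoc]
  unfold D
  have : (R \ J).erase r = R.erase r \ J := by
    ext x
    simp only [Finset.mem_erase, Finset.mem_sdiff]
    tauto
  rw [this]

/-- the solution of the recursion -/
theorem s_eq (a : α → K) (s : Finset α → K) (hs1 : ∀ p ∈ P, s {p} = a p)
    (hs : ∀ R ⊆ P, 2 ≤ R.card → ∑ J ∈ R.powerset.erase R,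
      (-1 : K) ^ J.card * s (R \ J) * ∏ q ∈ J, (∑ p ∈ R \ J, l q p) = 0) :
    ∀ (n : ℕ) (R : Finset α), R.card = n → R ⊆ P → R.Nonempty → s R = ∑ r ∈ R, a r * D P l R r := by
  intro n
  induction n using Nat.strong_induction_on with
  | _ n ih =>
    intro R hn hRP hne
    by_cases h1 : R.card = 1
    · obtain ⟨p, rfl⟩ := Finset.card_eq_one.1 h1
      rw [Finset.sum_singleton, D_single, mul_one]
      exact hs1 p (hRP (Finset.mem_singleton_self _))
    · have h2 : 2 ≤ R.card := by
        have := Finset.card_pos.2 hne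
        omega
      have h3 := hs R hRP h2
      have hmem : (∅ : Finset α) ∈ R.powerset.erase R :=
        Finset.mem_erase.2 ⟨hne.ne_empty.symm, Finset.empty_mem_powerset _⟩
      rw [← Finset.add_sum_erase _ _ hmem] at h3
      simp only [Finset.card_empty, pow_zero, one_mul, Finset.sdiff_empty, Finset.prod_empty,
        mul_one] at h3
      have h4 : ∑ J ∈ (R.powerset.erase R).erase ∅,
          (-1 : K) ^ J.card * s (R \ J) * ∏ q ∈ J, (∑ p ∈ R \ J, l q p) =
          ∑ J ∈ (R.powerset.erase R).erase ∅, ∑ r ∈ R \ J, a r *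
            ((-1 : K) ^ J.card * D P l (R \ J) r * ∏ q ∈ J, (∑ p ∈ R \ J, l q p)) := by
        refine Finset.sum_congr rfl fun J hJ => ?_
        obtain ⟨hJ0, hJ⟩ := Finset.mem_erase.1 hJ
        obtain ⟨hJR, hJ⟩ := Finset.mem_erase.1 hJ
        rw [Finset.mem_powerset] at hJ
        have hlt : (R \ J).card < n := by
          rw [← hn]
          refine Finset.card_lt_card ⟨Finset.sdiff_subset, fun h => hJ0 ?_⟩
          obtain ⟨x, hx⟩ | hx := J.eq_empty_or_nonempty.symm
          · exact absurd hx (Finset.mem_sdiff.1 (h (hJ hx))).2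
          · exact hx
        have hne' : (R \ J).Nonempty := by
          rw [Finset.sdiff_nonempty]
          exact fun h => hJR (Finset.Subset.antisymm hJ h)
        rw [ih _ hlt (R \ J) rfl (Finset.sdiff_subset.trans hRP) hne', Finset.mul_sum, Finset.sum_mul]
        refine Finset.sum_congr rfl fun r _ => ?_
        ring
      have h5 : ∑ J ∈ (R.powerset.erase R).erase ∅, ∑ r ∈ R \ J, a r *
            ((-1 : K) ^ J.card * D P l (R \ J) r * ∏ q ∈ J, (∑ p ∈ R \ J, l q p)) =
          ∑ r ∈ R, ∑ J ∈ (R.erase r).powerset.erase ∅, a r *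
            ((-1 : K) ^ J.card * D P l (R \ J) r * ∏ q ∈ J, (∑ p ∈ R \ J, l q p)) := by
        refine Finset.sum_comm' fun J r => ?_
        simp only [Finset.mem_erase, Finset.mem_powerset, Finset.mem_sdiff, ne_eq]
        constructor
        · rintro ⟨⟨h0, -, hJ⟩, hr, hrJ⟩
          exact ⟨⟨h0, fun x hx => Finset.mem_erase.2 ⟨fun e => hrJ (e ▸ hx), hJ hx⟩⟩, hr⟩
        · rintro ⟨⟨h0, hJ⟩, hr⟩
          have hrJ : r ∉ J := fun h => (Finset.mem_erase.1 (hJ h)).1 rfl
          exact ⟨⟨h0, fun e => hrJ (e ▸ hr), hJ.trans (Finset.erase_subset _ _)⟩, hr, hrJ⟩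
      have h6 : ∀ r ∈ R, ∑ J ∈ (R.erase r).powerset.erase ∅, a r *
            ((-1 : K) ^ J.card * D P l (R \ J) r * ∏ q ∈ J, (∑ p ∈ R \ J, l q p)) =
            - (a r * D P l R r) := by
        intro r hr
        have h7 := D_rec P l hRP hr h2
        rw [← Finset.add_sum_erase _ _ (Finset.empty_mem_powerset _)] at h7
        simp only [Finset.card_empty, pow_zero, one_mul, Finset.sdiff_empty, Finset.prod_empty,
          mul_one] at h7
        rw [← Finset.mul_sum]
        linear_combination (a r) * h7
      rw [h4, h5, Finset.sum_congr rfl h6, Finset.sum_neg_distrib] at h3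
      linear_combination h3

/-- the Laplacian -/
noncomputable def L : Matrix P P K := fun i => row P l P i

lemma L_apply (v : P → K) (i : P) : ((L P l).mulVec v) i = ∑ p : P, l i p * (v i - v p) := by
  change row P l P i ⬝ᵥ v = _
  unfold row
  rw [sum_dotProduct, ← Finset.sum_coe_sort P]
  refine Finset.sum_congr rfl fun p _ => ?_
  rw [smul_dotProduct, sub_dotProduct, e_dot P i.2, e_dot P p.2, smul_eq_mul]

lemma D_adj (r : P) : D P l P r = (L P l).adjugate r r := by
  rw [Matrix.adjugate_apply]
  unfold D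
  congr 1
  funext i
  by_cases h : i = r
  · subst h
    rw [Matrix.updateRow_self, M_out P l (by simp)]
    funext j
    unfold e
    rw [Pi.single_apply]
    by_cases h : j = i
    · subst h
      simp
    · rw [if_neg (fun h' => h (Subtype.ext h')), if_neg h]
  · rw [Matrix.updateRow_ne h,
      M_in P l (Finset.mem_erase.2 ⟨fun h' => h (Subtype.ext h'), i.2⟩)]
    rfl

lemma L_one : (L P l).mulVec (fun _ => 1) = 0 := by
  funext i
  rw [L_apply]
  simp

lemma det_L (hne : P.Nonempty) : (L P l).det = 0 := by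
  obtain ⟨p, hp⟩ := hne
  refine Matrix.exists_mulVec_eq_zero_iff.1 ⟨fun _ => 1, fun h => ?_, L_one P l⟩
  have := congrFun h ⟨p, hp⟩
  simp at this

end

/-- the tree sum is not zero -/
theorem tree_ne_field {α : Type} [DecidableEq α] {K : Type} [Field K] (P : Finset α) (z a : α → K)
    (d : α → α → K)
    (hz : ∀ p ∈ P, z p ≠ 0) (hd : ∀ p ∈ P, ∀ q ∈ P, d p q = d q p)
    (hR : ∀ e : α → K, (∀ t ∈ P, ∑ q ∈ P.erase t, (z t * e q - z q * e t) * d q t = 0) →
      ∃ c, ∀ q ∈ P, e q = c * z q)
    (ha : ∑ p ∈ P, z p * a p ≠ 0)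
    (s : Finset α → K) (hs1 : ∀ p ∈ P, s {p} = a p)
    (hs : ∀ R ⊆ P, 2 ≤ R.card → ∑ J ∈ R.powerset.erase R,
      (-1) ^ J.card * s (R \ J) * ∏ q ∈ J, (∑ p ∈ R \ J, z p * d q p) = 0) :
    s P ≠ 0 := by
  have hne : P.Nonempty := by
    rw [Finset.nonempty_iff_ne_empty]
    rintro rfl
    exact ha (by simp)
  set l : α → α → K := fun q p => z p * d q p with hl
  -- the right kernel
  have hker : ∀ v : P → K, (L P l).mulVec v = 0 → ∃ c, ∀ i, v i = c := by
    intro v hv
    obtain ⟨c, hc⟩ := hR (fun q => if h : q ∈ P then z q * v ⟨q, h⟩ else 0) (by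
      intro t ht
      have h1 := congrFun hv ⟨t, ht⟩
      rw [L_apply, Pi.zero_apply] at h1
      have h2 : ∑ q ∈ P.erase t, (z t * (if h : q ∈ P then z q * v ⟨q, h⟩ else 0) -
          z q * (if h : t ∈ P then z t * v ⟨t, h⟩ else 0)) * d q t =
          ∑ q ∈ P, (z t * (if h : q ∈ P then z q * v ⟨q, h⟩ else 0) -
          z q * (if h : t ∈ P then z t * v ⟨t, h⟩ else 0)) * d q t := by
        refine Finset.sum_subset (Finset.erase_subset _ _) fun q hq hq' => ?_
        have : q = t := by
          by_contra h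
          exact hq' (Finset.mem_erase.2 ⟨h, hq⟩)
        subst this
        rw [dif_pos hq]
        ring
      rw [h2, ← Finset.sum_coe_sort P]
      have h3 : ∀ q : P, (z t * (if h : (q : α) ∈ P then z q * v ⟨q, h⟩ else 0) -
          z q * (if h : t ∈ P then z t * v ⟨t, h⟩ else 0)) * d q t =
          - z t * (l t q * (v ⟨t, ht⟩ - v q)) := by
        intro q
        have h4 := hd t ht q q.2
        rw [dif_pos q.2, dif_pos ht]
        simp only [hl]
        rw [h4]
        ring
      rw [Finset.sum_congr rfl fun q _ => h3 q, ← Finset.mul_sum, h1, mul_zero])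
    refine ⟨c, fun i => ?_⟩
    have h := hc i i.2
    rw [dif_pos i.2] at h
    exact mul_left_cancel₀ (hz i i.2) (by rw [h, mul_comm])
  -- the left kernel
  have hleft : ∀ v : P → K, ∑ i : P, z i * ((L P l).mulVec v) i = 0 := by
    intro v
    have h1 : ∑ i : P, z i * ((L P l).mulVec v) i =
        ∑ i : P, ∑ p : P, z i * z p * d i p * (v i - v p) := by
      refine Finset.sum_congr rfl fun i _ => ?_
      rw [L_apply, Finset.mul_sum]
      refine Finset.sum_congr rfl fun p _ => ?_
      rw [hl]
      ring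
    have h2 : ∑ i : P, ∑ p : P, z i * z p * d i p * (v i - v p) =
        ∑ i : P, ∑ p : P, z i * z p * d i p * v i - ∑ i : P, ∑ p : P, z i * z p * d i p * v p := by
      rw [← Finset.sum_sub_distrib]
      refine Finset.sum_congr rfl fun i _ => ?_
      rw [← Finset.sum_sub_distrib]
      refine Finset.sum_congr rfl fun p _ => ?_
      ring
    rw [h1, h2]
    nth_rewrite 2 [Finset.sum_comm]
    rw [sub_eq_zero]
    refine Finset.sum_congr rfl fun i _ => Finset.sum_congr rfl fun p _ => ?_
    rw [hd i i.2 p p.2]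
    ring
  have hzL : ∀ j, ∑ i : P, z i * L P l i j = 0 := by
    intro j
    have h := hleft (Pi.single j 1)
    simpa using h
  -- the cofactors are not zero
  have hDne : ∀ r : P, (L P l).adjugate r r ≠ 0 := by
    intro r h0
    rw [Matrix.adjugate_apply] at h0
    obtain ⟨v, hv0, hv⟩ := Matrix.exists_mulVec_eq_zero_iff.2 h0
    have h1 : v r = 0 := by
      have := congrFun hv r
      change ((L P l).updateRow r (Pi.single r 1)) r ⬝ᵥ v = 0 at this
      rw [Matrix.updateRow_self] at this
      simpa using this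
    have h2 : ∀ i, i ≠ r → ((L P l).mulVec v) i = 0 := by
      intro i hi
      have := congrFun hv i
      change ((L P l).updateRow r (Pi.single r 1)) i ⬝ᵥ v = 0 at this
      rwa [Matrix.updateRow_ne hi] at this
    have h3 : ((L P l).mulVec v) r = 0 := by
      have := hleft v
      rw [Finset.sum_eq_single r (fun i _ hi => by rw [h2 i hi, mul_zero])
        (fun h => absurd (Finset.mem_univ _) h)] at this
      exact (mul_eq_zero.1 this).resolve_left (hz r r.2)
    obtain ⟨c, hc⟩ := hker v (by
      funext i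
      by_cases hi : i = r
      · subst hi
        exact h3
      · exact h2 i hi)
    apply hv0
    funext i
    rw [hc i, ← hc r, h1]
    rfl
  -- the left kernel is generated by `z`
  have hlk : ∀ w : P → K, (∀ j, ∑ i : P, w i * L P l i j = 0) → ∀ r i : P, z r * w i = w r * z i := by
    intro w hw r i
    set u : P → K := fun i => z r * w i - w r * z i with hu
    have h1 : ∀ j, ∑ i : P, u i * L P l i j = 0 := by
      intro j
      have : ∑ i : P, u i * L P l i j =
          z r * ∑ i : P, w i * L P l i j - w r * ∑ i : P, z i * L P l i j := by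
        rw [Finset.mul_sum, Finset.mul_sum, ← Finset.sum_sub_distrib]
        refine Finset.sum_congr rfl fun i _ => ?_
        simp only [hu]
        ring
      rw [this, hw, hzL]
      ring
    have hur : u r = 0 := by
      simp only [hu]
      ring
    by_contra hne'
    have hu0 : u ≠ 0 := fun h => hne' (sub_eq_zero.1 (congrFun h i))
    have h2 : Matrix.vecMul u ((L P l).updateRow r (Pi.single r 1)) = 0 := by
      funext j
      rw [Pi.zero_apply, ← h1 j]
      change ∑ i : P, u i * ((L P l).updateRow r (Pi.single r 1)) i j = _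
      refine Finset.sum_congr rfl fun i _ => ?_
      by_cases hi : i = r
      · subst hi
        rw [hur]
        ring
      · rw [Matrix.updateRow_ne hi]
    have h3 := Matrix.exists_vecMul_eq_zero_iff.1 ⟨u, hu0, h2⟩
    exact hDne r (by rw [Matrix.adjugate_apply]; exact h3)
  have hdet := det_L P l hne
  -- the rows and the columns of the adjugate
  have hcol : ∀ i i' j : P, (L P l).adjugate i j = (L P l).adjugate i' j := by
    intro i i' j
    have h : (L P l).mulVec (fun i => (L P l).adjugate i j) = 0 := by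
      funext k
      have := congrFun (congrFun (Matrix.mul_adjugate (L P l)) k) j
      rw [hdet, zero_smul] at this
      exact this
    obtain ⟨c, hc⟩ := hker _ h
    rw [hc i, hc i']
  have hrow : ∀ i r j : P, z r * (L P l).adjugate i j = (L P l).adjugate i r * z j := by
    intro i r j
    refine hlk (fun j => (L P l).adjugate i j) (fun k => ?_) r j
    have := congrFun (congrFun (Matrix.adjugate_mul (L P l)) i) k
    rw [hdet, zero_smul] at this
    exact this
  obtain ⟨p0, hp0⟩ := hne
  have hD : ∀ r : P, z p0 * (L P l).adjugate r r = (L P l).adjugate ⟨p0, hp0⟩ ⟨p0, hp0⟩ * z r := by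
    intro r
    have := hrow r ⟨p0, hp0⟩ r
    rw [hcol r ⟨p0, hp0⟩ ⟨p0, hp0⟩] at this
    exact this
  have hs2 := s_eq P l a s hs1 hs P.card P rfl (Finset.Subset.refl _) ⟨p0, hp0⟩
  have hs3 : z p0 * s P = (L P l).adjugate ⟨p0, hp0⟩ ⟨p0, hp0⟩ * ∑ p ∈ P, z p * a p := by
    rw [hs2, Finset.mul_sum, Finset.mul_sum, ← Finset.sum_coe_sort P, ← Finset.sum_coe_sort P]
    refine Finset.sum_congr rfl fun r _ => ?_
    rw [D_adj]
    linear_combination (a r) * hD r
  intro h0
  rw [h0, mul_zero] at hs3
  exact (mul_ne_zero (hDne _) ha) hs3.symm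

/-- the tree sum modulo three is not zero -/
theorem tree_ne (α : Type) [DecidableEq α] (P : Finset α) (z a : α → ZMod 3) (d : α → α → ZMod 3)
    (hz : ∀ p ∈ P, z p ≠ 0) (hd : ∀ p ∈ P, ∀ q ∈ P, d p q = d q p)
    (hR : ∀ e : α → ZMod 3, (∀ t ∈ P, ∑ q ∈ P.erase t, (z t * e q - z q * e t) * d q t = 0) →
      ∃ c, ∀ q ∈ P, e q = c * z q)
    (ha : ∑ p ∈ P, z p * a p ≠ 0)
    (s : Finset α → ZMod 3) (hs1 : ∀ p ∈ P, s {p} = a p)
    (hs : ∀ R ⊆ P, 2 ≤ R.card → ∑ J ∈ R.powerset.erase R,
      (-1) ^ J.card * s (R \ J) * ∏ q ∈ J, (∑ p ∈ R \ J, z p * d q p) = 0) :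
    s P ≠ 0 := by
  have : Fact (Nat.Prime 3) := ⟨Nat.prime_three⟩
  exact tree_ne_field P z a d hz hd hR ha s hs1 hs

end Pool.Agent.H81.Tree
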