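import Mathlib

/-!
Density zero of the set of dimensions `S` (helper81, for the hand-in of helper13 on `MP_d0f9e0_co`).
Part B: from the divergence of `∑ 1/p` over the primes `p ≡ 5 mod 8`.
-/

open Filter Finset

namespace Pool.Agent.H81.SicDens

/-- The counting form of the Chinese remainder theorem. -/
theorem card_crt {m n : ℕ} (h : m.Coprime n) (hm : 0 < m) (hn : 0 < n) (a b : ℕ → Prop)
    [DecidablePred a] [DecidablePred b] (ha : ∀ d, a d ↔ a (d % m)) (hb : ∀ d, b d ↔ b (d % n)) :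
    ((range (m * n)).filter (fun d => a d ∧ b d)).card
      = ((range m).filter a).card * ((range n).filter b).card := by
  rw [← Finset.card_product]
  refine Finset.card_bij (fun d _ => (d % m, d % n)) ?_ ?_ ?_
  · intro d hd
    simp only [Finset.mem_filter, Finset.mem_range, Finset.mem_product] at hd ⊢
    exact ⟨⟨Nat.mod_lt _ hm, (ha d).1 hd.2.1⟩, Nat.mod_lt _ hn, (hb d).1 hd.2.2⟩
  · intro x hx y hy hxy
    simp only [Finset.mem_filter, Finset.mem_range, Prod.mk.injEq] at hx hy hxy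
    have h1 : x ≡ y [MOD m * n] := (Nat.modEq_and_modEq_iff_modEq_mul h).1 ⟨hxy.1, hxy.2⟩
    have h2 : x % (m * n) = y % (m * n) := h1
    rwa [Nat.mod_eq_of_lt hx.1, Nat.mod_eq_of_lt hy.1] at h2
  · rintro ⟨x, y⟩ hxy
    simp only [Finset.mem_filter, Finset.mem_range, Finset.mem_product] at hxy
    obtain ⟨⟨hx, hax⟩, hy, hby⟩ := hxy
    have h1 := (Nat.chineseRemainder h x y).2
    have h2 := Nat.chineseRemainder_lt_mul h x y hm.ne' hn.ne'
    have h3 : (Nat.chineseRemainder h x y : ℕ) % m = x := by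
      have : (Nat.chineseRemainder h x y : ℕ) % m = x % m := h1.1
      rwa [Nat.mod_eq_of_lt hx] at this
    have h4 : (Nat.chineseRemainder h x y : ℕ) % n = y := by
      have : (Nat.chineseRemainder h x y : ℕ) % n = y % n := h1.2
      rwa [Nat.mod_eq_of_lt hy] at this
    refine ⟨Nat.chineseRemainder h x y, ?_, ?_⟩
    · simp only [Finset.mem_filter, Finset.mem_range]
      refine ⟨h2, (ha _).2 ?_, (hb _).2 ?_⟩
      · rwa [h3]
      · rwa [h4]
    · rw [h3, h4]

/-- `p` does not divide `d` exactly once. -/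
def Ok (p d : ℕ) : Prop := p ∣ d → p ^ 2 ∣ d

instance (p : ℕ) : DecidablePred (Ok p) := fun d => by unfold Ok; infer_instance

theorem ok_mod (p d : ℕ) : Ok p d ↔ Ok p (d % p ^ 2) := by
  unfold Ok
  have h1 : p ∣ d ↔ p ∣ d % p ^ 2 := (Nat.dvd_mod_iff (Dvd.intro_left (p ^ 1) rfl)).symm
  have h2 : p ^ 2 ∣ d ↔ p ^ 2 ∣ d % p ^ 2 := (Nat.dvd_mod_iff (dvd_refl _)).symm
  rw [← h1, ← h2]

theorem card_ok (p : ℕ) (hp : p.Prime) :
    ((range (p ^ 2)).filter (Ok p)).card = p ^ 2 - (p - 1) := by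
  have h1 : ((range (p ^ 2)).filter (fun d => ¬ Ok p d)) = (Ico 1 p).image (fun k => p * k) := by
    ext d
    simp only [Finset.mem_filter, Finset.mem_range, Finset.mem_image, Finset.mem_Ico, Ok,
      Classical.not_imp]
    constructor
    · rintro ⟨hd, ⟨k, rfl⟩, h2⟩
      refine ⟨k, ⟨?_, ?_⟩, rfl⟩
      · rcases Nat.eq_zero_or_pos k with rfl | h
        · exact absurd (by simp) h2
        · exact h
      · rw [pow_two] at hd
        exact lt_of_mul_lt_mul_left hd (Nat.zero_le _)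
    · rintro ⟨k, ⟨hk1, hk2⟩, rfl⟩
      refine ⟨?_, Dvd.intro _ rfl, ?_⟩
      · rw [pow_two]; exact Nat.mul_lt_mul_of_pos_left hk2 hp.pos
      · rw [pow_two]
        intro h
        have := Nat.dvd_of_mul_dvd_mul_left hp.pos h
        exact absurd (Nat.le_of_dvd (by omega) this) (by omega)
  have h2 : ((range (p ^ 2)).filter (fun d => ¬ Ok p d)).card = p - 1 := by
    rw [h1, Finset.card_image_of_injective, Nat.card_Ico]
    intro x y hxy
    exact Nat.eq_of_mul_eq_mul_left hp.pos hxy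
  have h3 := Finset.card_filter_add_card_filter_not (s := range (p ^ 2)) (Ok p)
  rw [h2, Finset.card_range] at h3
  omega

/-- `d` is good for all primes of a finite set. -/
def Oks (P : Finset ℕ) (d : ℕ) : Prop := ∀ p ∈ P, Ok p d

instance (P : Finset ℕ) : DecidablePred (Oks P) := fun d => by unfold Oks; infer_instance

theorem oks_mod (P : Finset ℕ) (d : ℕ) : Oks P d ↔ Oks P (d % ∏ p ∈ P, p ^ 2) := by
  unfold Oks
  refine forall₂_congr fun p hp => ?_
  rw [ok_mod p d, ok_mod p (d % ∏ p ∈ P, p ^ 2),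
    Nat.mod_mod_of_dvd _ (Finset.dvd_prod_of_mem (fun p => p ^ 2) hp)]

theorem card_oks (P : Finset ℕ) (hP : ∀ p ∈ P, p.Prime) :
    ((range (∏ p ∈ P, p ^ 2)).filter (Oks P)).card = ∏ p ∈ P, (p ^ 2 - (p - 1)) := by
  classical
  induction P using Finset.induction_on with
  | empty =>
    rw [Finset.prod_empty, Finset.prod_empty, Finset.filter_true_of_mem, Finset.card_range]
    intro d _ p hp
    exact absurd hp (Finset.notMem_empty p)
  | insert q P hq ih =>
    rw [Finset.prod_insert hq, Finset.prod_insert hq,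
      ← ih (fun p hp => hP p (Finset.mem_insert_of_mem hp)), ← card_ok q (hP q (Finset.mem_insert_self _ _)),
      ← card_crt ?_ ?_ ?_ (Ok q) (Oks P) (ok_mod q) (oks_mod P)]
    · congr 1
      refine Finset.filter_congr fun d _ => ?_
      simp only [Oks, Finset.mem_insert, forall_eq_or_imp]
    · refine Nat.Coprime.prod_right fun p hp => ?_
      refine Nat.Coprime.pow 2 2 ?_
      refine (Nat.coprime_primes (hP q (Finset.mem_insert_self _ _))
        (hP p (Finset.mem_insert_of_mem hp))).2 ?_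
      rintro rfl
      exact hq hp
    · exact pow_pos (hP q (Finset.mem_insert_self _ _)).pos 2
    · exact Finset.prod_pos fun p hp => pow_pos (hP p (Finset.mem_insert_of_mem hp)).pos 2

theorem card_mul (a : ℕ → Prop) [DecidablePred a] (M : ℕ) (ha : Function.Periodic a M) (k : ℕ) :
    ((range (M * k)).filter a).card = k * ((range M).filter a).card := by
  induction k with
  | zero => simp
  | succ k ih =>
    have h1 : range (M * (k + 1)) = range (M * k) ∪ Ico (M * k) (M * k + M) := by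
      ext x
      simp only [Finset.mem_range, Finset.mem_union, Finset.mem_Ico, Nat.mul_succ]
      omega
    have h2 : Disjoint ((range (M * k)).filter a) ((Ico (M * k) (M * k + M)).filter a) := by
      refine Finset.disjoint_filter_filter ?_
      rw [Finset.disjoint_left]
      intro x hx hx'
      simp only [Finset.mem_range, Finset.mem_Ico] at hx hx'
      omega
    rw [h1, Finset.filter_union, Finset.card_union_of_disjoint h2, ih,
      Nat.filter_Ico_card_eq_of_periodic _ _ a ha, Nat.count_eq_card_filter_range]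
    ring

theorem card_le (P : Finset ℕ) (hP : ∀ p ∈ P, p.Prime) (X : ℕ) :
    (((range X).filter (Oks P)).card : ℝ)
      ≤ (∏ p ∈ P, (1 - ((p : ℝ) - 1) / (p : ℝ) ^ 2)) * X + ((∏ p ∈ P, p ^ 2 : ℕ) : ℝ) := by
  set M : ℕ := ∏ p ∈ P, p ^ 2 with hM
  have hM0 : 0 < M := Finset.prod_pos fun p hp => pow_pos (hP p hp).pos 2
  have hper : Function.Periodic (Oks P) M := by
    intro d
    rw [eq_iff_iff, oks_mod P (d + M), oks_mod P d, ← hM, Nat.add_mod_right]
  have h1 : ((range X).filter (Oks P)).card ≤ (X / M + 1) * ((range M).filter (Oks P)).card := by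
    rw [← card_mul (Oks P) M hper]
    refine Finset.card_le_card (Finset.filter_subset_filter _ ?_)
    intro x hx
    rw [Finset.mem_range] at hx ⊢
    have := Nat.lt_mul_div_succ X hM0
    exact hx.trans this
  have h2 : (((range M).filter (Oks P)).card : ℝ)
      = (∏ p ∈ P, (1 - ((p : ℝ) - 1) / (p : ℝ) ^ 2)) * M := by
    rw [card_oks P hP, hM, Nat.cast_prod, Nat.cast_prod, ← Finset.prod_mul_distrib]
    refine Finset.prod_congr rfl fun p hp => ?_
    have hp1 : 1 ≤ p := (hP p hp).one_lt.le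
    have h3 : p - 1 ≤ p ^ 2 := (Nat.sub_le _ _).trans (Nat.le_self_pow (by norm_num) p)
    have hp0 : (p : ℝ) ≠ 0 := by exact_mod_cast (hP p hp).ne_zero
    rw [Nat.cast_sub h3, Nat.cast_sub hp1, Nat.cast_pow]
    push_cast
    field_simp
  have h0 : ((range M).filter (Oks P)).card ≤ M := by
    have := Finset.card_filter_le (range M) (Oks P)
    rwa [Finset.card_range] at this
  have h3 : (((range X).filter (Oks P)).card : ℝ)
      ≤ ((X / M : ℕ) : ℝ) * (((range M).filter (Oks P)).card : ℝ)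
        + (((range M).filter (Oks P)).card : ℝ) := by
    have : (((range X).filter (Oks P)).card : ℝ)
      ≤ (((X / M + 1) * ((range M).filter (Oks P)).card : ℕ) : ℝ) := by exact_mod_cast h1
    refine this.trans (le_of_eq ?_)
    push_cast
    ring
  refine h3.trans ?_
  have h4 : ((X / M : ℕ) : ℝ) * (((range M).filter (Oks P)).card : ℝ)
      ≤ (∏ p ∈ P, (1 - ((p : ℝ) - 1) / (p : ℝ) ^ 2)) * X := by
    rw [h2]
    have h5 : ((X / M : ℕ) : ℝ) * M ≤ X := by exact_mod_cast Nat.div_mul_le_self X M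
    have h6 : 0 ≤ ∏ p ∈ P, (1 - ((p : ℝ) - 1) / (p : ℝ) ^ 2) := by
      refine Finset.prod_nonneg fun p hp => ?_
      have hp1 : (1 : ℝ) ≤ p := by exact_mod_cast (hP p hp).one_lt.le
      rw [sub_nonneg, div_le_one (by positivity)]
      nlinarith
    calc ((X / M : ℕ) : ℝ) * ((∏ p ∈ P, (1 - ((p : ℝ) - 1) / (p : ℝ) ^ 2)) * M)
        = (∏ p ∈ P, (1 - ((p : ℝ) - 1) / (p : ℝ) ^ 2)) * (((X / M : ℕ) : ℝ) * M) := by ring
      _ ≤ _ := mul_le_mul_of_nonneg_left h5 h6
  have h7 : (((range M).filter (Oks P)).card : ℝ) ≤ (M : ℝ) := by exact_mod_cast h0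
  linarith

/-- The products of `1 - (p-1)/p²` get arbitrarily small. -/
theorem exists_small
    (hA : ¬ Summable (fun p : ℕ => if p.Prime ∧ p % 8 = 5 then (1 : ℝ) / p else 0))
    {ε : ℝ} (hε : 0 < ε) : ∃ P : Finset ℕ, (∀ p ∈ P, p.Prime ∧ p % 8 = 5) ∧
      ∏ p ∈ P, (1 - ((p : ℝ) - 1) / (p : ℝ) ^ 2) < ε := by
  have h1 := not_summable_iff_tendsto_nat_atTop_of_nonneg (f := fun p : ℕ =>
    if p.Prime ∧ p % 8 = 5 then (1 : ℝ) / p else 0) (fun p => by positivity) |>.1 hA
  obtain ⟨n, hn⟩ := (h1.eventually (eventually_gt_atTop (2 * (-Real.log ε)))).exists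
  refine ⟨(range n).filter (fun p => p.Prime ∧ p % 8 = 5), fun p hp => (Finset.mem_filter.1 hp).2, ?_⟩
  rw [← Finset.sum_filter] at hn
  have h2 : ∏ p ∈ (range n).filter (fun p => p.Prime ∧ p % 8 = 5),
      (1 - ((p : ℝ) - 1) / (p : ℝ) ^ 2)
      ≤ ∏ p ∈ (range n).filter (fun p => p.Prime ∧ p % 8 = 5), Real.exp (-((1 : ℝ) / p / 2)) := by
    refine Finset.prod_le_prod ?_ ?_
    · intro p hp
      have hp' := (Finset.mem_filter.1 hp).2.1
      have hp1 : (1 : ℝ) ≤ p := by exact_mod_cast hp'.one_lt.le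
      rw [sub_nonneg, div_le_one (by positivity)]
      nlinarith
    · intro p hp
      have hp' := (Finset.mem_filter.1 hp).2.1
      have hp2 : (2 : ℝ) ≤ p := by exact_mod_cast hp'.two_le
      refine le_trans ?_ (Real.one_sub_le_exp_neg _)
      have : (1 : ℝ) / p / 2 ≤ ((p : ℝ) - 1) / (p : ℝ) ^ 2 := by
        rw [div_div, div_le_div_iff₀ (by positivity) (by positivity)]
        nlinarith
      linarith
  refine lt_of_le_of_lt h2 ?_
  rw [← Real.exp_sum, Finset.sum_neg_distrib, ← Finset.sum_div]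
  rw [← Real.lt_log_iff_exp_lt hε] 
  linarith

/-- The set of dimensions. -/
def S : Set ℕ := {d : ℕ | (d % 8 = 0 ∧ IsSquare (d + 1)) ∨ (d % 8 = 1 ∧ IsSquare d) ∨
    (d % 8 = 3 ∧ ∀ p : ℕ, p.Prime → Odd (d.factorization p) → p % 8 = 1 ∨ p % 8 = 3) ∨
    (d % 8 = 7 ∧ ∀ p : ℕ, p.Prime → Odd (d.factorization p) → p % 8 = 1 ∨ p % 8 = 7)}

theorem ok_of {p d : ℕ} (hp : p.Prime) (h : ¬ Odd (d.factorization p)) : Ok p d := by
  intro h1
  rcases Nat.eq_zero_or_pos d with rfl | hd
  · simp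
  have h2 : 0 < d.factorization p := hp.factorization_pos_of_dvd hd.ne' h1
  have h3 : 2 ≤ d.factorization p := by
    rcases Nat.lt_or_ge (d.factorization p) 2 with h4 | h4
    · exfalso
      apply h
      have : d.factorization p = 1 := by omega
      rw [this]
      exact odd_one
    · exact h4
  exact (hp.pow_dvd_iff_le_factorization hd.ne').2 h3

theorem S_sub (P : Finset ℕ) (hP : ∀ p ∈ P, p.Prime ∧ p % 8 = 5) (X : ℕ) :
    S ∩ Set.Iio X ⊆ (((range (Nat.sqrt X + 1)).image (fun k => k ^ 2 - 1) ∪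
      (range (Nat.sqrt X + 1)).image (fun k => k ^ 2)) ∪ (range X).filter (Oks P) : Finset ℕ) := by
  rintro d ⟨hd, hX⟩
  rw [Set.mem_Iio] at hX
  simp only [Finset.coe_union, Set.mem_union, Finset.mem_coe, Finset.mem_image, Finset.mem_range,
    Finset.mem_filter]
  rcases hd with ⟨-, k, hk⟩ | ⟨-, k, hk⟩ | ⟨-, h⟩ | ⟨-, h⟩
  · left; left
    refine ⟨k, ?_, ?_⟩
    · rw [Nat.lt_succ_iff, Nat.le_sqrt, ← hk]
      exact hX
    · rw [pow_two, ← hk]; rfl
  · left; right
    refine ⟨k, ?_, ?_⟩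
    · rw [Nat.lt_succ_iff, Nat.le_sqrt, ← hk]
      exact hX.le
    · rw [pow_two, ← hk]
  · right
    refine ⟨hX, fun p hp => ok_of (hP p hp).1 fun h5 => ?_⟩
    have := h p (hP p hp).1 h5
    have := (hP p hp).2
    omega
  · right
    refine ⟨hX, fun p hp => ok_of (hP p hp).1 fun h5 => ?_⟩
    have := h p (hP p hp).1 h5
    have := (hP p hp).2
    omega

theorem ncard_le (P : Finset ℕ) (hP : ∀ p ∈ P, p.Prime ∧ p % 8 = 5) (X : ℕ) :
    ((S ∩ Set.Iio X).ncard : ℝ) ≤ 2 * (Nat.sqrt X + 1) +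
      ((∏ p ∈ P, (1 - ((p : ℝ) - 1) / (p : ℝ) ^ 2)) * X + ((∏ p ∈ P, p ^ 2 : ℕ) : ℝ)) := by
  have h1 := Set.ncard_le_ncard (S_sub P hP X) (Finset.finite_toSet _)
  rw [Set.ncard_coe_finset] at h1
  have h2 := (Finset.card_union_le ((range (Nat.sqrt X + 1)).image (fun k => k ^ 2 - 1) ∪
      (range (Nat.sqrt X + 1)).image (fun k => k ^ 2)) ((range X).filter (Oks P)))
  have h3 := (Finset.card_union_le ((range (Nat.sqrt X + 1)).image (fun k => k ^ 2 - 1))
      ((range (Nat.sqrt X + 1)).image (fun k => k ^ 2)))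
  have h4 := Finset.card_image_le (s := range (Nat.sqrt X + 1)) (f := fun k => k ^ 2 - 1)
  have h5 := Finset.card_image_le (s := range (Nat.sqrt X + 1)) (f := fun k => k ^ 2)
  rw [Finset.card_range] at h4 h5
  have h6 := card_le P (fun p hp => (hP p hp).1) X
  have h7 : ((S ∩ Set.Iio X).ncard : ℝ)
      ≤ ((2 * (Nat.sqrt X + 1) + ((range X).filter (Oks P)).card : ℕ) : ℝ) := by
    exact_mod_cast (by omega)
  refine h7.trans ?_
  push_cast
  push_cast at h6
  linarith

/-- **Part B.**  The set `S` has natural density zero. -/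
theorem dens (hA : ¬ Summable (fun p : ℕ => if p.Prime ∧ p % 8 = 5 then (1 : ℝ) / p else 0)) :
    Tendsto (fun X : ℕ => ((S ∩ Set.Iio X).ncard : ℝ) / X) atTop (nhds 0) := by
  rw [Metric.tendsto_atTop']
  intro ε hε
  obtain ⟨P, hP, hPε⟩ := exists_small hA (ε := ε / 4) (by positivity)
  set M : ℝ := ((∏ p ∈ P, p ^ 2 : ℕ) : ℝ) with hM
  have hsq : Tendsto (fun X : ℕ => (2 : ℝ) / Real.sqrt X) atTop (nhds 0) := by
    refine Tendsto.div_atTop tendsto_const_nhds ?_
    exact Real.tendsto_sqrt_atTop.comp tendsto_natCast_atTop_atTop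
  have hin : Tendsto (fun X : ℕ => (2 + M) / (X : ℝ)) atTop (nhds 0) :=
    Tendsto.div_atTop tendsto_const_nhds tendsto_natCast_atTop_atTop
  have e1 : ∀ᶠ X : ℕ in atTop, (2 : ℝ) / Real.sqrt X < ε / 4 :=
    hsq.eventually (gt_mem_nhds (by positivity))
  have e2 : ∀ᶠ X : ℕ in atTop, (2 + M) / (X : ℝ) < ε / 4 :=
    hin.eventually (gt_mem_nhds (by positivity))
  obtain ⟨N, hN⟩ := Filter.eventually_atTop.1 (e1.and e2)
  refine ⟨N, fun X hX => ?_⟩
  obtain ⟨h1, h2⟩ := hN X hX.le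
  have hX0 : 0 < X := by omega
  have hXr : (0 : ℝ) < X := by exact_mod_cast hX0
  rw [Real.dist_eq, sub_zero, abs_of_nonneg (by positivity), div_lt_iff₀ hXr]
  have h3 := ncard_le P hP X
  rw [← hM] at h3
  have h4 : (Nat.sqrt X : ℝ) ≤ Real.sqrt X := Real.nat_sqrt_le_real_sqrt
  have h5 : 2 * Real.sqrt X < ε / 4 * X := by
    rw [div_lt_iff₀ (Real.sqrt_pos.2 hXr)] at h1
    have h6 : Real.sqrt X * Real.sqrt X = X := Real.mul_self_sqrt hXr.le
    have h7 : 0 < Real.sqrt X := Real.sqrt_pos.2 hXr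
    nlinarith
  have h6 : 2 + M < ε / 4 * X := by rwa [div_lt_iff₀ hXr] at h2
  have h7 : (∏ p ∈ P, (1 - ((p : ℝ) - 1) / (p : ℝ) ^ 2)) * X ≤ ε / 4 * X :=
    mul_le_mul_of_nonneg_right hPε.le hXr.le
  nlinarith

end Pool.Agent.H81.SicDens
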